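import Pool.Agent.Lib.MP_9ff3e7_ag.F.Osg

/-! Removable singularities with parameters. -/

set_option autoImplicit false

namespace Pool.Agent.Lib.MP_5c318e_ag.B

open Complex Metric Filter Topology Set Function MeasureTheory
open Pool.Agent.Lib.MP_9ff3e7_ag

noncomputable section

section osg

variable {P : Type} [NormedAddCommGroup P] [NormedSpace ℂ P] [FiniteDimensional ℂ P] {U : Set P}

theorem osg1 {f : P → ℂ} (hU : IsOpen U) (hf : DifferentiableOn ℂ f U) : AnalyticOnNhd ℂ f U := by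
  intro x hx
  let e : P ≃L[ℂ] (Fin (Module.finrank ℂ P) → ℂ) := (Module.finBasis ℂ P).equivFunL
  have h := F.osgood (F := fun z => f (e.symm z)) (U := e.symm ⁻¹' U)
    (hU.preimage e.symm.continuous)
    (hf.comp e.symm.differentiable.differentiableOn fun _ h => h) (e x) (by simpa using hx)
  simpa [Function.comp_def] using h.comp (e.analyticAt x)

theorem osg {n : Type} [Fintype n] {f : P → n → ℂ} (hU : IsOpen U) (hf : DifferentiableOn ℂ f U) :
    AnalyticOnNhd ℂ f U :=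
  analyticOnNhd_pi_iff.2 fun i => osg1 hU (differentiableOn_pi.1 hf i)

end osg

variable {P V : Type} [NormedAddCommGroup P] [NormedSpace ℂ P] [NormedAddCommGroup V]
  [NormedSpace ℂ V] [CompleteSpace V]

theorem avg_diff {q : P → V} {K : Set P} (hK : IsCompact K) (hq : AnalyticOnNhd ℂ q K) {y0 v : P}
    {η : ℝ} (h : ∀ y ∈ ball y0 η, ∀ t ∈ sphere (0 : ℂ) 1, y + t • v ∈ K) :
    DifferentiableOn ℂ (fun y => Real.circleAverage (fun t => q (y + t • v)) 0 1) (ball y0 η) := by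
  obtain ⟨C, hC⟩ := hK.exists_bound_of_continuousOn hq.fderiv.continuousOn
  have m : ∀ y ∈ ball y0 η, ∀ t : ℝ, y + circleMap 0 1 t • v ∈ K := fun y hy t =>
    h y hy _ (circleMap_mem_sphere 0 zero_le_one t)
  have c : ∀ y ∈ ball y0 η, Continuous fun t : ℝ => q (y + circleMap 0 1 t • v) := fun y hy =>
    hq.continuousOn.comp_continuous (by fun_prop) (m y hy)
  intro y hy
  have n := isOpen_ball.mem_nhds hy
  have d := intervalIntegral.hasFDerivAt_integral_of_dominated_of_fderiv_le (𝕜 := ℂ)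
    (μ := volume) (a := 0) (b := 2 * Real.pi)
    (F := fun y t => q (y + circleMap 0 1 t • v))
    (F' := fun y t => fderiv ℂ q (y + circleMap 0 1 t • v))
    (bound := fun _ => C) n (mem_of_superset n fun z hz => (c z hz).aestronglyMeasurable)
    ((c y hy).intervalIntegrable _ _)
    (hq.fderiv.continuousOn.comp_continuous (by fun_prop) (m y hy)).aestronglyMeasurable
    (.of_forall fun t _ z hz => hC _ (m z hz t)) intervalIntegrable_const
    (.of_forall fun t _ z hz => by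
      simpa [Function.comp_def] using (hq _ (m z hz t)).differentiableAt.hasFDerivAt.comp z
        ((hasFDerivAt_id z).add_const (circleMap 0 1 t • v)))
  simp only [Real.circleAverage_def]
  exact (d.differentiableAt.const_smul _).differentiableWithinAt

/-- the extension over `z = 0` by the limit -/
def ext0 {E : Type} (f : ℂ × E → V) (p : ℂ × E) : V :=
  update (fun z => f (z, p.2)) 0 (limUnder (𝓝[≠] 0) fun z => f (z, p.2)) p.1

omit [NormedSpace ℂ V] [CompleteSpace V] in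
theorem ext0_ne {E : Type} (f : ℂ × E → V) {p : ℂ × E} (h : p.1 ≠ 0) : ext0 f p = f p := by
  rw [ext0, update_of_ne h]

theorem ext0_slice {E : Type} {f : ℂ × E → V} {ρ : ℝ} (hρ : 0 < ρ) {y : E}
    (hf : DifferentiableOn ℂ (fun z => f (z, y)) (ball 0 ρ \ {0}))
    (hb : ∃ C, ∀ᶠ z in 𝓝[≠] (0 : ℂ), ‖f (z, y)‖ ≤ C) :
    DifferentiableOn ℂ (fun z => ext0 f (z, y)) (ball 0 ρ) := by
  obtain ⟨C, hC⟩ := hb
  refine differentiableOn_update_limUnder_of_isLittleO (ball_mem_nhds 0 hρ) hf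
    (IsBoundedUnder.isLittleO_sub_self_inv ⟨C + ‖f (0, y)‖, eventually_map.2 ?_⟩)
  exact hC.mono fun z hz => norm_sub_le_of_le hz le_rfl

theorem ext0_diff {E : Type} [NormedAddCommGroup E] [NormedSpace ℂ E] [FiniteDimensional ℂ E]
    {f : ℂ × E → V} {ρ : ℝ} {W : Set E} (hW : IsOpen W)
    (hf : AnalyticOnNhd ℂ f ((ball 0 ρ \ {0}) ×ˢ W))
    (hb : ∀ y ∈ W, ∃ C, ∀ᶠ z in 𝓝[≠] (0 : ℂ), ‖f (z, y)‖ ≤ C) :
    DifferentiableOn ℂ (ext0 f) (ball 0 ρ ×ˢ W) := by
  rintro ⟨z, y⟩ ⟨hz, hy⟩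
  refine DifferentiableAt.differentiableWithinAt ?_
  rcases ne_or_eq z 0 with z0 | rfl
  · refine (hf (z, y) ⟨⟨hz, z0⟩, hy⟩).differentiableAt.congr_of_eventuallyEq ?_
    have : ∀ᶠ p : ℂ × E in 𝓝 (z, y), p.1 ≠ 0 := continuous_fst.continuousAt.eventually_ne z0
    exact this.mono fun p hp => ext0_ne f hp
  have hρ : 0 < ρ := pos_of_mem_ball hz
  have : ProperSpace E := FiniteDimensional.proper ℂ E
  obtain ⟨δ, δ0, hδ⟩ := nhds_basis_closedBall.mem_iff.1 (hW.mem_nhds hy)
  let K : Set (ℂ × E) := (closedBall 0 (3 * ρ / 4) \ ball 0 (ρ / 4)) ×ˢ closedBall y δ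
  have hK : IsCompact K :=
    ((isCompact_closedBall _ _).diff isOpen_ball).prod (isCompact_closedBall _ _)
  have sK : K ⊆ (ball 0 ρ \ {0}) ×ˢ W := fun p hp =>
    ⟨⟨closedBall_subset_ball (by linarith) hp.1.1, fun h => hp.1.2 (by
      rw [mem_singleton_iff.1 h]
      exact mem_ball_self (by linarith))⟩, hδ hp.2⟩
  let v : ℂ × E := ((ρ / 2 : ℝ), 0)
  have η0 : 0 < min δ (ρ / 4) := lt_min δ0 (by linarith)
  have b1 : ∀ p ∈ ball ((0 : ℂ), y) (min δ (ρ / 4)), ‖p.1‖ < ρ / 4 ∧ p.2 ∈ closedBall y δ :=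
    fun p hp => by
      rw [← ball_prod_same] at hp
      exact ⟨(mem_ball_zero_iff.1 hp.1).trans_le (min_le_right _ _),
        ball_subset_closedBall (ball_subset_ball (min_le_left _ _) hp.2)⟩
  have nt : ∀ t : ℂ, ‖t * ((ρ / 2 : ℝ) : ℂ)‖ = ‖t‖ * (ρ / 2) := fun t => by
    rw [norm_mul, norm_real, Real.norm_of_nonneg (by linarith)]
  have mK : ∀ p ∈ ball ((0 : ℂ), y) (min δ (ρ / 4)), ∀ t ∈ sphere (0 : ℂ) 1, p + t • v ∈ K := by
    intro p hp t ht
    obtain ⟨h1, h2⟩ := b1 p hp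
    have n1 := nt t
    rw [mem_sphere_zero_iff_norm.1 ht] at n1
    refine ⟨⟨?_, ?_⟩, by simpa [v] using h2⟩
    · rw [mem_closedBall_zero_iff]
      have := norm_add_le p.1 (t * ((ρ / 2 : ℝ) : ℂ))
      simp only [v, Prod.fst_add, Prod.smul_fst, smul_eq_mul]
      linarith
    · rw [mem_ball_zero_iff, not_lt]
      have := norm_sub_le (p.1 + t * ((ρ / 2 : ℝ) : ℂ)) p.1
      rw [add_sub_cancel_left] at this
      simp only [v, Prod.fst_add, Prod.smul_fst, smul_eq_mul]
      linarith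
  have d := avg_diff hK (hf.mono sK) mK
  refine (d.differentiableAt (ball_mem_nhds _ η0)).congr_of_eventuallyEq ?_
  filter_upwards [ball_mem_nhds _ η0] with p hp
  obtain ⟨h1, h2⟩ := b1 p hp
  have s := ext0_slice (f := f) hρ (y := p.2) (fun z hz => DifferentiableAt.differentiableWithinAt
    ((hf (z, p.2) ⟨hz, hδ h2⟩).differentiableAt.comp z (by fun_prop))) (hb _ (hδ h2))
  have s2 : DifferentiableOn ℂ (fun t : ℂ => ext0 f (p.1 + t * ((ρ / 2 : ℝ) : ℂ), p.2))
      (closedBall 0 1) := s.comp (f := fun t : ℂ => p.1 + t * ((ρ / 2 : ℝ) : ℂ)) (by fun_prop)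
    fun t ht => by
      rw [mem_ball_zero_iff]
      have := norm_add_le p.1 (t * ((ρ / 2 : ℝ) : ℂ))
      have h3 := mem_closedBall_zero_iff.1 ht
      rw [nt] at this
      nlinarith
  have m := DiffContOnCl.circleAverage (c := 0) (R := 1)
    (f := fun t : ℂ => ext0 f (p.1 + t * ((ρ / 2 : ℝ) : ℂ), p.2))
    (DifferentiableOn.diffContOnCl (by simpa [closure_ball (0 : ℂ) one_ne_zero] using s2))
  simp only [zero_mul, add_zero] at m
  rw [← m]
  refine Real.circleAverage_congr_sphere fun t ht => ?_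
  have hk := sK (mK p hp t (by simpa using ht))
  have e : p + t • v = (p.1 + t * ((ρ / 2 : ℝ) : ℂ), p.2) := by
    ext <;> simp [v]
  rw [e] at hk ⊢
  exact ext0_ne f hk.1.2

end

end Pool.Agent.Lib.MP_5c318e_ag.B
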