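import Pool.Agent.Lib.MP_5c318e_ag.B.HDefs
import Pool.Agent.Lib.MP_5c318e_ag.B.Ext
import Pool.Agent.Lib.MP_5c318e_ag.V.Alg
import Pool.Agent.Lib.MP_5c318e_ag.RD.RCalc
import Pool.Agent.Lib.MP_5c318e_ag.S.PDefs
import Pool.Agent.Lib.MP_5c318e_ag.H.Lift

/-! Holomorphic maps into a Riemann domain, the identity theorem, and the horn model of a
variation that is given in a global flat frame. -/

set_option autoImplicit false
set_option linter.unusedSectionVars false

namespace Pool.Agent.Lib.MP_5c318e_ag.Br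

open Complex Matrix Metric Filter Topology Set V B
open scoped ContDiff ComplexOrder

noncomputable section

variable {ι : Type} [Fintype ι] {X : Type} [TopologicalSpace X] [MeasurableSpace X]
  {E : Type} [NormedAddCommGroup E] [NormedSpace ℂ E] {n : Type} [Fintype n] [DecidableEq n]

/-- a holomorphic map from the open set `U` into a Riemann domain -/
structure HMap (D : RD ι X) (U : Set E) (L : E → X) : Prop where
  op : IsOpen U
  cont : ContinuousOn L U
  hol : DifferentiableOn ℂ (fun p => D.π (L p)) U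

variable {D : RD ι X}

section ax

variable {w : ℕ} {P P' : ℤ → E → Matrix n n ℂ} {a : E}

theorem ax_congr_ev (h : Ax w P a) (e : ∀ᶠ q in 𝓝 a, ∀ p, P' p q = P p q) : Ax w P' a := by
  have g : gr (wt w) P' =ᶠ[𝓝 a] gr (wt w) P := e.mono fun q hq => by simp only [gr, hq]
  refine ⟨fun p => (h.1 p).congr (e.mono fun q hq => hq p), fun ξ => ?_⟩
  rw [derM_congr g, g.self_of_nhds]
  exact h.2 ξ

theorem ax_comp {E' : Type} [NormedAddCommGroup E'] [NormedSpace ℂ E'] {g : E' → E} {b : E'}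
    (h : Ax w P (g b)) (hg : ContDiffAt ℂ ∞ g b) : Ax w (fun p q => P p (g q)) b := by
  refine ⟨fun p => (h.1 p).comp hg, fun ξ => ?_⟩
  have e : derM (-I) ξ (gr (wt w) fun p q => P p (g q)) b =
      derM (-I) (fderiv ℂ g b ξ) (gr (wt w) P) (g b) :=
    derM_comp_holo (SmM.sum _ fun p _ => (h.1 p).csmul _) (hg.differentiableAt (by simp))
  rw [e]
  exact h.2 _

theorem ax_gauge (h : Ax w P a) {g g' : Matrix n n ℂ} (e : g' * g = 1) :
    Ax w (fun p q => g * P p q * g') a := by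
  have s : SmM (gr (wt w) P) a := SmM.sum _ fun p _ => (h.1 p).csmul _
  have e1 : (gr (wt w) fun p q => g * P p q * g') = fun q => g * gr (wt w) P q * g' := by
    funext q
    simp only [gr, Finset.mul_sum, Finset.sum_mul, Matrix.mul_smul, Matrix.smul_mul]
  refine ⟨fun p => ((smM_const _).mul (h.1 p)).mul (smM_const _), fun ξ => ?_⟩
  have c : ∀ A : Matrix n n ℂ, g' * (g * A) = A := fun A => by
    rw [← Matrix.mul_assoc, e, Matrix.one_mul]
  rw [e1, derM_mul_const ((smM_const _).mul s), derM_const_mul _ s]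
  conv_rhs => rw [← h.2 ξ]
  simp only [Matrix.mul_assoc, c, Matrix.mul_sub, Matrix.sub_mul]

theorem lv_of_ax {U : Set E} (hU : IsOpen U) {Q : Matrix n n ℂ}
    (phs : ∀ q ∈ U, PHS w Q fun p => P p q) (ax : ∀ q ∈ U, Ax w P q) : LV U Q (wt w) P :=
  ⟨hU, fun p q hq => (ax q hq).1 p, fun q hq => (phs q hq).prj, fun q hq => (phs q hq).adj,
    fun q hq => (phs q hq).pos, fun q hq => (ax q hq).2⟩

end ax

namespace HMap

variable {U : Set E} {L : E → X} {p : E}

theorem contAt (H : HMap D U L) (hp : p ∈ U) : ContinuousAt L p :=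
  H.cont.continuousAt (H.op.mem_nhds hp)

theorem diffAt (H : HMap D U L) (hp : p ∈ U) : DifferentiableAt ℂ (fun q => D.π (L q)) p :=
  H.hol.differentiableAt (H.op.mem_nhds hp)

theorem ev (H : HMap D U L) (hp : p ∈ U) : ∀ᶠ q in 𝓝 p, D.sec (L p) (D.π (L q)) = L q :=
  ((H.contAt hp).eventually ((D.ch (L p)).open_source.mem_nhds (D.mem_src _))).mono
    fun _ h => RD.sec_π h

theorem ev_f {α : Type} (H : HMap D U L) (hp : p ∈ U) (f : X → α) :
    (fun q => f (L q)) =ᶠ[𝓝 p] fun q => f (D.sec (L p) (D.π (L q))) :=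
  (H.ev hp).mono fun _ h => (congrArg f h).symm

theorem mono (H : HMap D U L) {U' : Set E} (hU : IsOpen U') (h : U' ⊆ U) : HMap D U' L :=
  ⟨hU, H.cont.mono h, H.hol.mono h⟩

theorem comp (H : HMap D U L) {E' : Type} [NormedAddCommGroup E'] [NormedSpace ℂ E'] {U' : Set E'}
    (hU : IsOpen U') {g : E' → E} (hg : DifferentiableOn ℂ g U') (hm : MapsTo g U' U) :
    HMap D U' fun q => L (g q) :=
  ⟨hU, H.cont.comp hg.continuousOn hm, H.hol.comp hg hm⟩

section hol

variable {G : Type} [NormedAddCommGroup G] [NormedSpace ℂ G] {f : X → G}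

theorem hasFD (H : HMap D U L) (hp : p ∈ U)
    (hf : DifferentiableAt ℂ (fun z => f (D.sec (L p) z)) (D.π (L p))) :
    HasFDerivAt (fun q => f (L q)) ((D.fd f (L p)).comp (fderiv ℂ (fun q => D.π (L q)) p)) p :=
  (HasFDerivAt.comp (g := fun z => f (D.sec (L p) z)) p hf.hasFDerivAt
    (H.diffAt hp).hasFDerivAt).congr_of_eventuallyEq (H.ev_f hp f)

theorem hol_comp (H : HMap D U L) (hf : D.Hol f) : DifferentiableOn ℂ (fun q => f (L q)) U :=
  fun _ hp => (H.hasFD hp (hf _)).differentiableAt.differentiableWithinAt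

theorem fderiv_comp (H : HMap D U L) (hp : p ∈ U) (hf : D.Hol f) :
    fderiv ℂ (fun q => f (L q)) p = (D.fd f (L p)).comp (fderiv ℂ (fun q => D.π (L q)) p) :=
  (H.hasFD hp (hf _)).fderiv

end hol

variable [FiniteDimensional ℂ E]

theorem an (H : HMap D U L) (hp : p ∈ U) : AnalyticAt ℂ (fun q => D.π (L q)) p :=
  osg H.op H.hol p hp

theorem smooth (H : HMap D U L) (hp : p ∈ U) {G : Type} [NormedAddCommGroup G] [NormedSpace ℝ G]
    {f : X → G} (hf : ContDiffAt ℝ ∞ (fun z => f (D.sec (L p) z)) (D.π (L p))) :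
    ContDiffAt ℝ ∞ (fun q => f (L q)) p :=
  (ContDiffAt.comp (g := fun z => f (D.sec (L p) z)) p hf
    ((H.an hp).contDiffAt.restrict_scalars ℝ)).congr_of_eventuallyEq (H.ev_f hp f)

theorem lev_comp (H : HMap D U L) (hp : p ∈ U) {φ : X → ℝ}
    (hφ : ContDiffAt ℝ ∞ (fun z => φ (D.sec (L p) z)) (D.π (L p))) (ξ : E) :
    lev (fun q => φ (L q)) p ξ = D.levi φ (L p) (fderiv ℂ (fun q => D.π (L q)) p ξ) := by
  rw [lev_congr (H.ev_f hp φ)]
  exact lev_comp_holo (φ := fun z => φ (D.sec (L p) z)) (cd2 hφ) (H.an hp).contDiffAt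

theorem ax (H : HMap D U L) (hp : p ∈ U) {w : ℕ} {P : ℤ → X → Matrix n n ℂ}
    (h : Ax w (fun j z => P j (D.sec (L p) z)) (D.π (L p))) : Ax w (fun j q => P j (L q)) p :=
  ax_congr_ev (ax_comp (g := fun q => D.π (L q)) h (H.an hp).contDiffAt)
    ((H.ev hp).mono fun _ e j => (congrArg (P j) e).symm)

/-- a holomorphic map with surjective derivative is open at the point -/
theorem nhds_le (H : HMap D U L) (hp : p ∈ U)
    (hs : Function.Surjective (fderiv ℂ (fun q => D.π (L q)) p)) : 𝓝 (L p) ≤ map L (𝓝 p) := by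
  have : CompleteSpace E := FiniteDimensional.complete ℂ E
  have a := (H.an hp).hasStrictFDerivAt.map_nhds_eq_of_surj (LinearMap.range_eq_top.2 hs)
  have b : map L (𝓝 p) = map (D.sec (L p)) (map (fun q => D.π (L q)) (𝓝 p)) := by
    rw [Filter.map_map]
    exact map_congr ((H.ev hp).mono fun _ h => h.symm)
  rw [b, a]
  have c := (D.ch (L p)).symm.map_nhds_eq (x := D.π (L p)) (D.mem_tgt _)
  change map (D.sec (L p)) _ = 𝓝 (D.sec (L p) _) at c
  rw [c, D.sec_self]

end HMap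

theorem hmap_sec (D : RD ι X) (x : X) : HMap D (D.ch x).target (D.sec x) :=
  ⟨(D.ch x).open_target, D.sec_contOn x,
    differentiableOn_id.congr fun _ h => RD.π_sec h⟩

/-- the identity theorem on a connected Riemann domain -/
theorem hol_ident [PreconnectedSpace X] {f : X → n → ℂ} (hf : D.Hol f) {x : X}
    (h : ∀ᶠ y in 𝓝 x, f y = 0) (y : X) : f y = 0 := by
  have hc : IsClopen {x | ∀ᶠ y in 𝓝 x, f y = 0} := by
    refine ⟨?_, isOpen_setOfPred_eventually_nhds⟩
    rw [← closure_subset_iff_isClosed]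
    intro x hx
    obtain ⟨r, hr, hb⟩ := Metric.isOpen_iff.1 (D.ch x).open_target _ (D.mem_tgt x)
    have an := (osg (D.ch x).open_target ((hmap_sec D x).hol_comp hf)).mono hb
    have nb : (D.ch x).source ∩ D.π ⁻¹' ball (D.π x) r ∈ 𝓝 x :=
      inter_mem ((D.ch x).open_source.mem_nhds (D.mem_src x))
        (D.cont_π.continuousAt.preimage_mem_nhds (ball_mem_nhds _ hr))
    obtain ⟨x', ⟨h1, h2⟩, h3⟩ := mem_closure_iff_nhds.1 hx _ nb
    have t : Tendsto (D.sec x) (𝓝 (D.π x')) (𝓝 x') := by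
      have := (RD.sec_contAt (RD.π_mem h1)).tendsto
      rwa [RD.sec_π h1] at this
    have z := an.eqOn_zero_of_preconnected_of_eventuallyEq_zero (convex_ball _ _).isPreconnected h2
      (t.eventually h3)
    filter_upwards [nb] with y hy
    have := z hy.2
    simpa only [RD.sec_π hy.1, Pi.zero_apply] using this
  have := isClopen_iff.1 hc
  rcases this with e | e
  · exact absurd (e ▸ h : x ∈ (∅ : Set X)) (notMem_empty x)
  · exact Eventually.self_of_nhds (p := fun y => f y = 0) (eq_univ_iff_forall.1 e y)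

theorem strip_open (a : ℝ) (y0 : E) (R : ℝ) : IsOpen (strip a y0 R) :=
  (isOpen_lt continuous_const (continuous_im.comp continuous_fst)).inter
    (isOpen_ball.preimage continuous_snd)

theorem strip_convex (a : ℝ) (y0 : E) (R : ℝ) : Convex ℝ (strip a y0 R) :=
  (convex_halfSpace_im_gt a).prod (convex_ball y0 R)

theorem strip_shift {a R : ℝ} {y0 : E} {p : ℂ × E} (hp : p ∈ strip a y0 R) :
    (p.1 + 1, p.2) ∈ strip a y0 R := ⟨by simpa using hp.1, hp.2⟩

theorem sm_hn_an {h : E → Matrix n n ℂ} {om : E → n → ℂ} {p : E} (hh : SmM h p)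
    (ho : AnalyticAt ℂ om p) : ContDiffAt ℝ ∞ (fun q => hn (h q) (om q)) p := by
  have s : ∀ i, Sm (fun q => om q i) p := fun i =>
    (analyticAt_pi_iff.1 ho i).contDiffAt.restrict_scalars ℝ
  refine Sm.re (f := fun q => hq (h q) (om q) (om q)) ?_
  simp only [hq, dotProduct, mulVec]
  exact ContDiffAt.sum fun i _ => (s i).conj.mul (ContDiffAt.sum fun j _ => (hh i j).mul (s j))

theorem hn_pos_of {h : Matrix n n ℂ} (H : h.PosDef) {v : n → ℂ} (hv : v ≠ 0) : 0 < hn h v :=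
  (Complex.pos_iff.1 (H.dotProduct_mulVec_pos hv)).1

/-- the horn model of a variation on the strip -/
theorem horn_of_lv {a R : ℝ} {y0 : E} (hR : 0 < R) {w : ℕ} {Q : Matrix n n ℂ}
    {P : ℤ → ℂ × E → Matrix n n ℂ} {om : ℂ × E → n → ℂ} (L : LV (strip a y0 R) Q (wt w) P)
    {T : GL n ℤ} (uni : (cx T)ᴴ * Q * cx T = Q)
    (per : ∀ q ∈ strip a y0 R, ∀ j, P j (q.1 + 1, q.2) * cx T = cx T * P j q)
    (hol : DifferentiableOn ℂ om (strip a y0 R))
    (omT : ∀ q ∈ strip a y0 R, om (q.1 + 1, q.2) = cx T *ᵥ om q)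
    (ne : ∀ q ∈ strip a y0 R, om q ≠ 0) (top : ∀ q ∈ strip a y0 R, P w q *ᵥ om q = om q)
    (psh : ∀ q ∈ strip a y0 R, ∀ ξ,
      lev (fun q => Real.log (hn (Q * wey (wt w) P q) (om q))) q ξ ≤ 0)
    (mod : ∃ A : ℝ, ∀ y ∈ ball y0 R, ∃ C : ℝ, ∀ z : ℂ, a + 1 ≤ z.im →
      hn (Q * wey (wt w) P (z, y)) (om (z, y)) ≤ C * Real.exp (A * z.im)) :
    HornM a y0 R ((∑ p ∈ wt w, (p : ℝ) ^ 2) * Fintype.card n) (fun q => Q * wey (wt w) P q)
      (gr (wt w) P) ((-1 : ℂ) ^ w • Q) (cx T) om := by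
  have phs : ∀ q ∈ strip a y0 R, PHS w Q fun j => P j q := fun q hq =>
    ⟨L.prj q hq, L.adj q hq, L.pos q hq⟩
  have m0 : (((a + 1 : ℝ) : ℂ) * I, y0) ∈ strip a y0 R := ⟨by simp, mem_ball_self hR⟩
  refine ⟨hR, L.gm, fun q hq => ?_, ⟨T, rfl⟩, ?_, ?_, fun q hq u v => ?_, hol, omT, ne,
    fun q hq => ?_, psh, mod⟩
  · have e : wey (wt w) P (q.1 + 1, q.2) * cx T = cx T * wey (wt w) P q := by
      simp only [wey, Finset.sum_mul, Finset.mul_sum, Matrix.smul_mul, Matrix.mul_smul, per q hq]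
    rw [Matrix.mul_assoc, Matrix.mul_assoc, e, ← Matrix.mul_assoc, ← Matrix.mul_assoc, uni]
  · rw [IsHermitian, conjTranspose_smul, (phs _ m0).herm.eq]
    simp
  · rw [Matrix.mul_smul, Matrix.smul_mul, uni]
  · have := (phs q hq).qf_le v u
    rw [mul_comm] at this
    have e : B.hq ((-1 : ℂ) ^ w • Q) u v = (-1 : ℂ) ^ w * qf Q v u := by
      rw [B.hq, smul_mulVec, dotProduct_smul, qf, smul_eq_mul]
    rw [e, norm_mul, norm_pow, norm_neg, norm_one, one_pow, one_mul]
    exact this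
  · have e : wey (wt w) P q *ᵥ om q = (-1 : ℂ) ^ w • om q := by
      conv_lhs => rw [← top q hq]
      rw [mulVec_mulVec, L.wey_mul hq, smul_mulVec, top q hq, zpow_natCast]
    rw [B.hq, B.hq, ← mulVec_mulVec, e, smul_mulVec, mulVec_smul]

end

end Pool.Agent.Lib.MP_5c318e_ag.Br
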