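import Pool.Agent.Lib.MP_5c318e_ag.B.BrA
import Pool.Agent.Lib.MP_5c318e_ag.G.CvRD
import Pool.Agent.Lib.MP_5c318e_ag.V.Top

/-! Lifting a periodic map of the strip to a cover; the horn model of a variation on a cover. -/

set_option autoImplicit false
set_option linter.unusedSectionVars false

namespace Pool.Agent.Lib.MP_5c318e_ag.Br

open Complex Matrix Metric Filter Topology Set V G B
open scoped ContDiff ComplexOrder

noncomputable section

variable {ι : Type} [Fintype ι] {X : Type} [TopologicalSpace X] [MeasurableSpace X]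
  {E : Type} [NormedAddCommGroup E] [NormedSpace ℂ E] {n : Type} [Fintype n] [DecidableEq n]
  {D : RD ι X}

section line

variable {U : Set E} {w : ℕ} {Q : Matrix n n ℂ} {P : ℤ → E → Matrix n n ℂ} {om : E → n → ℂ}

theorem smM_col {p : E} (ho : AnalyticAt ℂ om p) : SmM (fun q => replicateCol Unit (om q)) p :=
  fun i _ => (analyticAt_pi_iff.1 ho i).contDiffAt.restrict_scalars ℝ

theorem d_col {p : E} (ho : AnalyticAt ℂ om p) (ξ : E) :
    derM (-I) ξ (fun q => replicateCol Unit (om q)) p = replicateCol Unit (fderiv ℂ om p ξ) := by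
  ext i j
  have := d_holo (ξ := ξ) (analyticAt_pi_iff.1 ho i).differentiableAt
  rw [fderiv_apply ho.differentiableAt] at this
  exact this

theorem dbar_col {p : E} (ho : AnalyticAt ℂ om p) (ξ : E) :
    derM I ξ (fun q => replicateCol Unit (om q)) p = 0 := by
  ext i j
  exact dbar_holo (analyticAt_pi_iff.1 ho i).differentiableAt

/-- the derivative of a section of the top piece -/
theorem d_top (L : LV U Q (wt w) P) (hol : AnalyticOnNhd ℂ om U)
    (top : ∀ q ∈ U, P w q *ᵥ om q = om q) {q : E} (hq : q ∈ U) (ξ : E) :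
    fderiv ℂ om q ξ = P w q *ᵥ fderiv ℂ om q ξ +
      th (fun x => Q * wey (wt w) P x) ξ q *ᵥ om q := by
  have e : derM (-I) ξ (fun x => P w x * replicateCol Unit (om x)) q =
      derM (-I) ξ (fun x => replicateCol Unit (om x)) q :=
    derM_congr_on L.op hq fun x hx => by rw [← replicateCol_mulVec, top x hx]
  have z : P w q * th (fun x => Q * wey (wt w) P x) ξ q = 0 := by
    have a := L.th_shift hq ξ (w + 1)
    rw [add_sub_cancel_right, (L.prj q hq).zero (w + 1) (by simp [wt]), Matrix.mul_zero] at a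
    exact a.symm
  rw [derM_mul (L.sm w q hq) (smM_col (hol q hq)), d_col (hol q hq), L.d_prj hq, z, sub_zero,
    Matrix.mul_assoc, ← replicateCol_mulVec, top q hq, ← replicateCol_mulVec,
    ← replicateCol_mulVec, ← replicateCol_add, replicateCol_inj] at e
  rw [add_comm]
  exact e.symm

theorem nsq_col (h : Matrix n n ℂ) (v : n → ℂ) :
    nsq (1 : Matrix Unit Unit ℂ) h (replicateCol Unit v) = hn h v := by
  rw [nsq, ip_col, hn, hq]

/-- the curvature of the line spanned by a top section whose derivative has top part on the line -/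
theorem lev_line (L : LV U Q (wt w) P) (hol : AnalyticOnNhd ℂ om U)
    (top : ∀ q ∈ U, P w q *ᵥ om q = om q) {q : E} (hq : q ∈ U) (ne : om q ≠ 0) {ξ : E} {c : ℂ}
    (line : P w q *ᵥ fderiv ℂ om q ξ = c • om q) :
    lev (fun x => -Real.log (hn (Q * wey (wt w) P x) (om x))) q ξ =
      hn (Q * wey (wt w) P q) (th (fun x => Q * wey (wt w) P x) ξ q *ᵥ om q) /
        hn (Q * wey (wt w) P q) (om q) := by
  have t : Th (fun _ : E => (1 : Matrix Unit Unit ℂ)) (fun x => Q * wey (wt w) P x) ξ q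
      (replicateCol Unit (om q)) =
      replicateCol Unit (th (fun x => Q * wey (wt w) P x) ξ q *ᵥ om q) := by
    rw [Th, th_const, Matrix.mul_zero, sub_zero, replicateCol_mulVec]
  have a := lev_top_eq (ξ := ξ) (p := (w : ℂ)) (gm_const L.op (PosDef.one (n := Unit))) L.gm hq
    (X := fun x => replicateCol Unit (om x)) (fun y hy => smM_col (hol y hy))
    (fun y hy => dbar_col (hol y hy) ξ) (fun y hy => ?_) ?_ ⟨c, ?_⟩
  · simpa only [t, nsq_col] using a
  · rw [Yh, Matrix.mul_zero, sub_zero, ← replicateCol_mulVec, ← replicateCol_smul]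
    conv_lhs => rw [← top y hy]
    rw [mulVec_mulVec, L.gr_mul hy, smul_mulVec, top y hy, Int.cast_natCast]
  · exact fun e => ne (funext fun i => congrFun (congrFun e i) ())
  · rw [t, d_col (hol q hq), d_top L hol top hq, line, replicateCol_add, add_sub_cancel_right,
      replicateCol_smul]

theorem lev_line_le (L : LV U Q (wt w) P) (hol : AnalyticOnNhd ℂ om U)
    (top : ∀ q ∈ U, P w q *ᵥ om q = om q) {q : E} (hq : q ∈ U) (ne : om q ≠ 0) {ξ : E} {c : ℂ}
    (line : P w q *ᵥ fderiv ℂ om q ξ = c • om q) :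
    lev (fun x => Real.log (hn (Q * wey (wt w) P x) (om x))) q ξ ≤ 0 := by
  have a := lev_line L hol top hq ne line
  have p := hn_pos_of (L.pos q hq) ne
  rw [lev_neg (cd2 ((sm_hn_an (L.met.sm q hq) (hol q hq)).log p.ne'))] at a
  have b := div_nonneg (qf_nonneg (L.pos q hq) (th (fun x => Q * wey (wt w) P x) ξ q *ᵥ om q)) p.le
  exact neg_nonneg.1 (a ▸ b)

end line

section flat

variable {w : ℕ} {Q : Matrix n n ℂ} {P : ℤ → X → Matrix n n ℂ} {om : X → n → ℂ} {U : Set E}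
  {L : E → X}

theorem HMap.lv [FiniteDimensional ℂ E] (H : HMap D U L) (phs : ∀ x, PHS w Q fun j => P j x)
    (ax : ∀ x, Ax w (fun j z => P j (D.sec x z)) (D.π x)) : LV U Q (wt w) fun j q => P j (L q) :=
  lv_of_ax H.op (fun _ _ => phs _) fun _ hq => H.ax hq (ax _)

theorem sm_norm (ax : ∀ x, Ax w (fun j z => P j (D.sec x z)) (D.π x)) (hol : D.Hol om) :
    D.Sm fun x => hn (Q * wey (wt w) P x) (om x) := fun x =>
  sm_hn_an (h := fun z => Q * wey (wt w) (fun j z => P j (D.sec x z)) z)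
    ((smM_const _).mul (SmM.sum _ fun j _ => ((ax x).1 j).csmul _))
    (osg (D.ch x).open_target ((hmap_sec D x).hol_comp hol) _ (D.mem_tgt x))

/-- the norm of a top section that spans its own line is log-superharmonic -/
theorem levi_line (phs : ∀ x, PHS w Q fun j => P j x)
    (ax : ∀ x, Ax w (fun j z => P j (D.sec x z)) (D.π x)) (hol : D.Hol om)
    (top : ∀ x, P w x *ᵥ om x = om x) {x : X} (ne : om x ≠ 0) {ξ : ι → ℂ} {c : ℂ}
    (line : P w x *ᵥ D.fd om x ξ = c • om x) :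
    D.levi (fun y => Real.log (hn (Q * wey (wt w) P y) (om y))) x ξ ≤ 0 :=
  lev_line_le (om := fun z => om (D.sec x z)) (c := c) ((hmap_sec D x).lv phs ax)
    (osg (D.ch x).open_target ((hmap_sec D x).hol_comp hol)) (fun _ _ => top _) (D.mem_tgt x)
    (by rwa [D.sec_self]) (by rwa [D.sec_self])

theorem HMap.rankLe (H : HMap D U L) (hol : D.Hol om) {ν : ℕ}
    (rk : ∀ q ∈ U, Module.finrank ℂ ((Submodule.span ℂ {om (L q)} ⊔
      LinearMap.range (D.fd om (L q)).toLinearMap : Submodule ℂ (n → ℂ))) ≤ ν + 1) :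
    RankLe U (fun q => om (L q)) ν := fun q hq => by
  refine (Submodule.finrank_mono (sup_le_sup_left ?_ _)).trans (rk q hq)
  rw [H.fderiv_comp hq hol]
  rintro _ ⟨v, rfl⟩
  exact ⟨_, rfl⟩

theorem scal_all [PreconnectedSpace X] (hol : D.Hol om) {T : Matrix n n ℂ} (hU : IsOpen U) {p : E}
    (hp : p ∈ U) (op : 𝓝 (L p) ≤ map L (𝓝 p)) (s : Scal U T fun q => om (L q)) :
    Scal univ T om := by
  obtain ⟨l, hl⟩ := s
  refine ⟨l, fun x _ => sub_eq_zero.1 (hol_ident (D := D) (f := fun y => T *ᵥ om y - l • om y)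
    (fun y => ?_) (x := L p) (op ?_) x)⟩
  · refine DifferentiableAt.sub ?_ ((hol y).const_smul l)
    exact (LinearMap.toContinuousLinearMap T.mulVecLin).differentiableAt.comp _ (hol y)
  · exact mem_map.2 (mem_of_superset (hU.mem_nhds hp) fun q hq => sub_eq_zero.2 (hl q hq))

/-- the horn model along a holomorphic map of the strip -/
theorem horn_flat [FiniteDimensional ℂ E] {a R : ℝ} {y0 : E} (hR : 0 < R) {L : ℂ × E → X}
    (H : HMap D (strip a y0 R) L) (phs : ∀ x, PHS w Q fun j => P j x)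
    (ax : ∀ x, Ax w (fun j z => P j (D.sec x z)) (D.π x)) (hol : D.Hol om)
    (ne : ∀ x, om x ≠ 0) (top : ∀ x, P w x *ᵥ om x = om x)
    (psh : ∀ x ξ, D.levi (fun y => Real.log (hn (Q * wey (wt w) P y) (om y))) x ξ ≤ 0)
    {T : GL n ℤ} (uni : (cx T)ᴴ * Q * cx T = Q)
    (per : ∀ q ∈ strip a y0 R, ∀ j, P j (L (q.1 + 1, q.2)) * cx T = cx T * P j (L q))
    (omT : ∀ q ∈ strip a y0 R, om (L (q.1 + 1, q.2)) = cx T *ᵥ om (L q))
    (mod : ∃ A : ℝ, ∀ y ∈ ball y0 R, ∃ C : ℝ, ∀ z : ℂ, a + 1 ≤ z.im →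
      hn (Q * wey (wt w) P (L (z, y))) (om (L (z, y))) ≤ C * Real.exp (A * z.im)) :
    HornM a y0 R ((∑ p ∈ wt w, (p : ℝ) ^ 2) * Fintype.card n) (fun q => Q * wey (wt w) P (L q))
      (fun q => gr (wt w) P (L q)) ((-1 : ℂ) ^ w • Q) (cx T) fun q => om (L q) :=
  horn_of_lv hR (H.lv phs ax) uni per (H.hol_comp hol) omT (fun _ _ => ne _) (fun _ _ => top _)
    (fun q hq ξ => (H.lev_comp hq (φ := fun y => Real.log (hn (Q * wey (wt w) P y) (om y)))
      ((sm_norm ax hol _).log (by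
        rw [D.sec_self]
        exact (hn_pos_of (phs _).pos (ne _)).ne')) ξ).trans_le (psh _ _)) mod

end flat

section lift

variable {S Γ : Type} [TopologicalSpace S] [Group Γ] {c : Coc S Γ}

/-- a map on a convex open set lifts to the cover -/
theorem exists_lift_convex (c : Coc S Γ) {U : Set E} (hU : IsOpen U) (hc : Convex ℝ U) {F : E → S}
    (hF : ContinuousOn F U) {q0 : E} (h0 : q0 ∈ U) (g0 : Γ) :
    ∃ L : E → Cv c, (L q0).g = g0 ∧ (∀ q, (L q).y = F q) ∧ ContinuousOn L U := by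
  obtain ⟨k, k0, hk⟩ := Abs.lift_on hU (Abs.convex_simplyConnected hc ⟨q0, h0⟩) (U := univ) c.κ
    (fun y _ => c.self y) (fun y _ => by simpa only [nhdsWithin_univ] using c.coc y) hF
    (mapsTo_univ _ _) h0 g0
  exact ⟨fun q => ⟨F q, k q⟩, k0, fun _ => rfl, fun q hq => ContinuousAt.continuousWithinAt
    (Cv.tendsto_iff.2 ⟨hF.continuousAt (hU.mem_nhds hq), hk q hq⟩)⟩

/-- two lifts of one map differ by a deck transformation -/
theorem lift_deck {A : Type} [TopologicalSpace A] {U : Set A} (hU : IsPreconnected U)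
    {L L' : A → Cv c} (h : ContinuousOn L U) (h' : ContinuousOn L' U)
    (e : ∀ q ∈ U, (L' q).y = (L q).y) : ∃ T : Γ, ∀ q ∈ U, L' q = T • L q := by
  rcases U.eq_empty_or_nonempty with rfl | ⟨q0, h0⟩
  · exact ⟨1, fun _ h => h.elim⟩
  refine ⟨(L' q0).g * (L q0).g⁻¹, fun q hq => Cv.ext (e q hq) ?_⟩
  have := Abs.lift_ratio hU (t := fun a b => c.κ (L a).y (L b).y) (k := fun a => (L' a).g)
    (k' := fun a => (L a).g) (fun a ha => ?_) (fun a ha => (Cv.tendsto_iff.1 (h a ha)).2) h0 hq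
  · rw [Cv.smul_g, this, inv_mul_cancel_right]
  · filter_upwards [(Cv.tendsto_iff.1 (h' a ha)).2, self_mem_nhdsWithin] with b hb hm
    rw [hb, e a ha, e b hm]

/-- a periodic map of the strip lifts, with a monodromy `T` -/
theorem exists_lift (c : Coc S Γ) {a R : ℝ} {y0 : E} {F : ℂ × E → S}
    (hF : ContinuousOn F (strip a y0 R)) (per : ∀ q ∈ strip a y0 R, F (q.1 + 1, q.2) = F q)
    {q0 : ℂ × E} (h0 : q0 ∈ strip a y0 R) (g0 : Γ) :
    ∃ (L : ℂ × E → Cv c) (T : Γ), (L q0).g = g0 ∧ (∀ q, (L q).y = F q) ∧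
      ContinuousOn L (strip a y0 R) ∧ ∀ q ∈ strip a y0 R, L (q.1 + 1, q.2) = T • L q := by
  obtain ⟨L, l0, ly, lc⟩ := exists_lift_convex c (strip_open a y0 R) (strip_convex a y0 R) hF h0 g0
  obtain ⟨T, hT⟩ := lift_deck (strip_convex a y0 R).isPreconnected lc
    (L' := fun q => L (q.1 + 1, q.2)) (lc.comp (by fun_prop) fun _ h => strip_shift h)
    fun q hq => by rw [ly, ly, per q hq]
  exact ⟨L, T, l0, ly, lc, hT⟩

/-- a lift of a map that is open at `p` is open at `p` -/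
theorem lift_nhds_le {A : Type} [TopologicalSpace A] {L : A → Cv c} {p : A} (h : ContinuousAt L p)
    (op : 𝓝 (L p).y ≤ map (fun q => (L q).y) (𝓝 p)) : 𝓝 (L p) ≤ map L (𝓝 p) := by
  rw [Cv.nhds_eq]
  refine (map_mono op).trans_eq ?_
  rw [Filter.map_map]
  exact map_congr (h.eventually (Cv.ev_lift (L p)))

end lift

section collar

theorem ex_add_one (z : ℂ) : ex (z + 1) = ex z := by
  rw [ex, ex, mul_add, mul_one, exp_add, exp_two_pi_mul_I, mul_one]

theorem norm_ex (z : ℂ) : ‖ex z‖ = Real.exp (-(2 * Real.pi * z.im)) := by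
  simp [ex, norm_exp]

theorem ex_ne (z : ℂ) : ex z ≠ 0 := exp_ne_zero _

theorem hasStrictDerivAt_ex (z : ℂ) : HasStrictDerivAt ex (ex z * (2 * Real.pi * I * 1)) z :=
  ((hasStrictDerivAt_id z).const_mul (2 * Real.pi * I)).cexp

theorem differentiable_ex : Differentiable ℂ ex := fun z =>
  (hasStrictDerivAt_ex z).hasDerivAt.differentiableAt

theorem ex_mem {a : ℝ} {z : ℂ} (h : a < z.im) :
    ex z ∈ ball (0 : ℂ) (Real.exp (-(2 * Real.pi * a))) \ {0} :=
  ⟨by
    rw [mem_ball_zero_iff, norm_ex, Real.exp_lt_exp, neg_lt_neg_iff]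
    exact mul_lt_mul_of_pos_left h Real.two_pi_pos, ex_ne z⟩

theorem exists_ex {a : ℝ} {z : ℂ} (h : z ∈ ball (0 : ℂ) (Real.exp (-(2 * Real.pi * a))) \ {0}) :
    ∃ u : ℂ, a < u.im ∧ ex u = z := by
  have e : ex (log z / (2 * Real.pi * I)) = z := by
    rw [ex, mul_div_cancel₀ _ two_pi_I_ne_zero, exp_log h.2]
  refine ⟨_, ?_, e⟩
  have h1 := h.1
  rw [mem_ball_zero_iff, ← e, norm_ex, Real.exp_lt_exp, neg_lt_neg_iff] at h1
  exact lt_of_mul_lt_mul_left h1 Real.two_pi_pos.le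

theorem map_ex_nhds (z : ℂ) : map ex (𝓝 z) = 𝓝 (ex z) :=
  (hasStrictDerivAt_ex z).map_nhds_eq
    (mul_ne_zero (ex_ne z) (mul_ne_zero two_pi_I_ne_zero one_ne_zero))

/-- the collar map read on the strip -/
theorem HMap.strip {a R : ℝ} {y0 : E} {Hm : ℂ × E → X}
    (H : HMap D ((ball (0 : ℂ) (Real.exp (-(2 * Real.pi * a))) \ {0}) ×ˢ ball y0 R) Hm) :
    HMap D (strip a y0 R) fun q => Hm (ex q.1, q.2) :=
  H.comp (strip_open a y0 R) (g := fun q : ℂ × E => (ex q.1, q.2))
    ((differentiable_ex.comp differentiable_fst).prodMk differentiable_snd).differentiableOn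
    fun _ h => ⟨ex_mem h.1, h.2⟩

theorem strip_nhds_le {A : Type} [TopologicalSpace A] {Hm : ℂ × E → A} {q : ℂ × E}
    (op : 𝓝 (Hm (ex q.1, q.2)) ≤ map Hm (𝓝 (ex q.1, q.2))) :
    𝓝 (Hm (ex q.1, q.2)) ≤ map (fun q : ℂ × E => Hm (ex q.1, q.2)) (𝓝 q) := by
  refine op.trans_eq ?_
  have : 𝓝 (ex q.1, q.2) = map (Prod.map ex id) (𝓝 q) := by
    rw [nhds_prod_eq, ← map_ex_nhds, ← q.eta, nhds_prod_eq, ← prod_map_map_eq', Filter.map_id]
  rw [this, Filter.map_map]
  rfl

/-- polynomial growth in `1 / |z|` is exponential growth on the strip -/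
theorem mod_of_pow {a : ℝ} {N : ℂ → ℝ} {C A : ℝ}
    (h : ∀ z : ℂ, z ≠ 0 → ‖z‖ ≤ Real.exp (-(2 * Real.pi * (a + 1))) → N z ≤ C * ‖z‖ ^ (-A))
    (u : ℂ) (hu : a + 1 ≤ u.im) : N (ex u) ≤ C * Real.exp (2 * Real.pi * A * u.im) := by
  have := h (ex u) (ex_ne u) (by
    rw [norm_ex, Real.exp_le_exp, neg_le_neg_iff]
    exact mul_le_mul_of_nonneg_left hu Real.two_pi_pos.le)
  rwa [norm_ex, ← Real.exp_mul, show -(2 * Real.pi * u.im) * -A = 2 * Real.pi * A * u.im by ring]
    at this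

end collar

end

end Pool.Agent.Lib.MP_5c318e_ag.Br
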