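import Pool.Agent.Lib.MP_5c318e_ag.B.BrB
import Pool.Agent.Lib.MP_5c318e_ag.G.Pk

/-! The horn model of a package along a collar, and the dichotomy along a connected divisor. -/

set_option autoImplicit false
set_option linter.unusedSectionVars false

namespace Pool.Agent.Lib.MP_5c318e_ag.Br

open Complex Matrix Metric Filter Topology Set V G B
open scoped ContDiff ComplexOrder

noncomputable section

variable {ι : Type} [Fintype ι] {S : Type} [TopologicalSpace S] [MeasurableSpace S] [T2Space S]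
  [SigmaCompactSpace S] {D : RD ι S} {n : Type} [Fintype n] [DecidableEq n] {w : ℕ}
  {E : Type} [NormedAddCommGroup E] [NormedSpace ℂ E]

/-- the map `[om]` from the cover to projective space has rank at most `ν` -/
def Rk (V : Pk D n w) (om : V.Bt → n → ℂ) (ν : ℕ) : Prop :=
  ∀ x, Module.finrank ℂ ((Submodule.span ℂ {om x} ⊔ LinearMap.range (V.rd.fd om x).toLinearMap :
    Submodule ℂ (n → ℂ))) ≤ ν + 1

/-- the top part of the derivative of `om` is a multiple of `om` -/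
def Line (V : Pk D n w) (om : V.Bt → n → ℂ) : Prop :=
  ∀ x ξ, ∃ c : ℂ, V.P w x *ᵥ V.rd.fd om x ξ = c • om x

/-- `L` lifts the map `F` of the strip to the cover, with monodromy `γ` -/
structure Lift (V : Pk D n w) (a : ℝ) (y0 : E) (R : ℝ) (F : ℂ × E → S) (L : ℂ × E → V.Bt)
    (γ : V.Γ) : Prop where
  y : ∀ q, (L q).y = F q
  cont : ContinuousOn L (strip a y0 R)
  per : ∀ q ∈ strip a y0 R, L (q.1 + 1, q.2) = γ • L q

variable {V : Pk D n w} {om : V.Bt → n → ℂ}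

theorem hn_eq_N (T : V.Top om) (x : V.Bt) : hn (V.h x) (om x) = V.N om x.y := (T.N_eq x).symm

theorem N_pos (ne : ∀ x, om x ≠ 0) (y : S) : 0 < V.N om y := hn_pos_of (V.pos _) (ne _)

theorem sm_N (T : V.Top om) : D.Sm (V.N om) :=
  (Cv.rmap_y D (c := V.c)).sm_of Cv.y_surjective (by
    simp only [← hn_eq_N T]
    exact sm_norm V.glv.ax T.hol)

theorem Line.levi (T : V.Top om) (ne : ∀ x, om x ≠ 0) (h : Line V om) (y : S) (ξ : ι → ℂ) :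
    D.levi (fun y => Real.log (V.N om y)) y ξ ≤ 0 := by
  obtain ⟨c, hc⟩ := h ⟨y, 1⟩ ξ
  have a := (Cv.rmap_y D (c := V.c)).levi (fun y => Real.log (V.N om y)) ⟨y, 1⟩ ξ
  simp only [← hn_eq_N T] at a
  exact a ▸ levi_line V.glv.phs V.glv.ax T.hol T.top (ne _) hc

theorem sm_log_N (T : V.Top om) (ne : ∀ x, om x ≠ 0) : D.Sm fun y => Real.log (V.N om y) :=
  (sm_N T).comp_at fun y => Real.contDiffAt_log.2 (N_pos ne y).ne'

theorem Line.psh (T : V.Top om) (ne : ∀ x, om x ≠ 0) (h : Line V om) :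
    D.Psh fun y => -Real.log (V.N om y) :=
  ⟨(sm_log_N T ne).neg, fun y ξ =>
    (neg_nonneg.2 (h.levi T ne y ξ)).trans_eq (lev_neg ((sm_log_N T ne).two y)).symm⟩

theorem levi_of_psh (T : V.Top om) (ne : ∀ x, om x ≠ 0)
    (h : D.Psh fun y => -Real.log (V.N om y)) (y : S) (ξ : ι → ℂ) :
    D.levi (fun y => Real.log (V.N om y)) y ξ ≤ 0 :=
  neg_nonneg.1 ((h.2 y ξ).trans_eq (lev_neg ((sm_log_N T ne).two y)))

theorem sc_conj (T : V.Top om) {γ : V.Γ} (h : V.Sc om γ) (δ : V.Γ) : V.Sc om (δ * γ * δ⁻¹) := by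
  obtain ⟨l, hl⟩ := h
  refine ⟨l, fun x => ?_⟩
  rw [V.cx_coe_mul, V.cx_coe_mul, ← mulVec_mulVec, ← mulVec_mulVec, ← T.eqv δ⁻¹, hl, mulVec_smul,
    ← T.eqv, smul_inv_smul]

variable {a R : ℝ} {y0 : E} {F : ℂ × E → S} {L : ℂ × E → V.Bt} {γ : V.Γ}

theorem exists_Lift (V : Pk D n w) (hF : ContinuousOn F (strip a y0 R))
    (per : ∀ q ∈ strip a y0 R, F (q.1 + 1, q.2) = F q) {q0 : ℂ × E} (h0 : q0 ∈ strip a y0 R)
    (g0 : V.Γ) : ∃ L γ, Lift V a y0 R F L γ ∧ (L q0).g = g0 := by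
  obtain ⟨L, γ, h1, h2, h3, h4⟩ := exists_lift V.c hF per h0 g0
  exact ⟨L, γ, ⟨h2, h3, h4⟩, h1⟩

theorem strip_mem (a : ℝ) (y0 : E) (hR : 0 < R) : (((a + 1 : ℝ) : ℂ) * I, y0) ∈ strip a y0 R :=
  ⟨by simp, mem_ball_self hR⟩

namespace Lift

theorem smul (H : Lift V a y0 R F L γ) (δ : V.Γ) :
    Lift V a y0 R F (fun q => δ • L q) (δ * γ * δ⁻¹) :=
  ⟨H.y, (continuous_const_smul δ).comp_continuousOn H.cont, fun q hq => by
    rw [H.per q hq, mul_smul, mul_smul, inv_smul_smul]⟩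

theorem mono (H : Lift V a y0 R F L γ) {a' R' : ℝ} {y' : E} (h : strip a' y' R' ⊆ strip a y0 R) :
    Lift V a' y' R' F L γ := ⟨H.y, H.cont.mono h, fun q hq => H.per q (h hq)⟩

/-- two lifts differ by a deck transformation, their monodromies are conjugate -/
theorem conj (H : Lift V a y0 R F L γ) (hR : 0 < R) {F' : ℂ × E → S} {L' : ℂ × E → V.Bt}
    {γ' : V.Γ} (H' : Lift V a y0 R F' L' γ') (e : ∀ q ∈ strip a y0 R, F' q = F q) :
    ∃ δ : V.Γ, γ' = δ * γ * δ⁻¹ ∧ ∀ q ∈ strip a y0 R, L' q = δ • L q := by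
  obtain ⟨δ, hδ⟩ := lift_deck (strip_convex a y0 R).isPreconnected H.cont H'.cont
    fun q hq => by rw [H.y, H'.y, e q hq]
  refine ⟨δ, ?_, hδ⟩
  have m := strip_mem a y0 hR
  have b := H'.per _ m
  rw [hδ _ (strip_shift m), H.per _ m, hδ _ m, ← mul_smul, ← mul_smul] at b
  rw [mul_right_cancel (congrArg Cv.g b), mul_inv_cancel_right]

theorem hmap (H : Lift V a y0 R F L γ) (hF : HMap D (strip a y0 R) F) :
    HMap V.rd (strip a y0 R) L :=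
  ⟨hF.op, H.cont, by simpa only [Cv.rd_π, H.y] using hF.hol⟩

theorem norm (H : Lift V a y0 R F L γ) (T : V.Top om) (q : ℂ × E) :
    hn (V.h (L q)) (om (L q)) = V.N om (F q) := by rw [hn_eq_N T, H.y]

theorem rankLe (H : Lift V a y0 R F L γ) (hF : HMap D (strip a y0 R) F) (T : V.Top om) {ν : ℕ}
    (rk : Rk V om ν) : RankLe (strip a y0 R) (fun q => om (L q)) ν :=
  (H.hmap hF).rankLe T.hol fun _ _ => rk _

theorem scal_iff (H : Lift V a y0 R F L γ) (T : V.Top om) {p : ℂ × E} (hp : p ∈ strip a y0 R)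
    (op : 𝓝 (F p) ≤ map F (𝓝 p)) :
    (Scal (strip a y0 R) (cx γ) fun q => om (L q)) ↔ V.Sc om γ := by
  refine ⟨fun h => ?_, fun ⟨l, h⟩ => ⟨l, fun _ _ => h _⟩⟩
  obtain ⟨l, hl⟩ := scal_all T.hol (strip_open a y0 R) hp (lift_nhds_le
    (H.cont.continuousAt ((strip_open a y0 R).mem_nhds hp)) (by simpa only [H.y] using op)) h
  exact ⟨l, fun x => hl x (mem_univ x)⟩

/-- BRIDGE: the horn model of a package along a periodic holomorphic map of the strip -/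
theorem horn [FiniteDimensional ℂ E] (H : Lift V a y0 R F L γ) (hR : 0 < R)
    (hF : HMap D (strip a y0 R) F) (T : V.Top om) (ne : ∀ x, om x ≠ 0)
    (psh : D.Psh fun y => -Real.log (V.N om y))
    (mod : ∃ A : ℝ, ∀ y ∈ ball y0 R, ∃ C : ℝ, ∀ z : ℂ, a + 1 ≤ z.im →
      V.N om (F (z, y)) ≤ C * Real.exp (A * z.im)) :
    HornM a y0 R (KK w n) (fun q => V.h (L q)) (fun q => V.Y (L q)) ((-1 : ℂ) ^ w • V.Q) (cx γ)
      fun q => om (L q) := by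
  refine horn_flat hR (H.hmap hF) V.glv.phs V.glv.ax T.hol ne T.top (fun x ξ => ?_) (V.inv γ)
    (fun q hq j => by rw [H.per q hq, V.eqv]) (fun q hq => by rw [H.per q hq, T.eqv]) ?_
  · have a := (Cv.rmap_y D (c := V.c)).levi (fun y => Real.log (V.N om y)) x ξ
    have b := levi_of_psh T ne psh x.y ξ
    rw [← a] at b
    simp only [← hn_eq_N T] at b
    exact b
  · simp only [← H.norm T] at mod
    exact mod

end Lift

/-! ### collars -/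

/-- the height of the strip over the disc of radius `ρ` -/
def lvl (ρ : ℝ) : ℝ := -Real.log ρ / (2 * Real.pi)

theorem exp_lvl {ρ : ℝ} (h : 0 < ρ) : Real.exp (-(2 * Real.pi * lvl ρ)) = ρ := by
  rw [lvl, mul_div_cancel₀ _ Real.two_pi_pos.ne', neg_neg, Real.exp_log h]

/-- the collar map on the strip -/
def onS {A : Type} (Hm : ℂ × E → A) (q : ℂ × E) : A := Hm (ex q.1, q.2)

theorem onS_per {A : Type} (Hm : ℂ × E → A) (q : ℂ × E) : onS Hm (q.1 + 1, q.2) = onS Hm q := by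
  simp only [onS, ex_add_one]

theorem mem_lvl {ρ : ℝ} (h : 0 < ρ) {q : ℂ × E} (hq : q ∈ strip (lvl ρ) y0 R) :
    (ex q.1, q.2) ∈ (ball (0 : ℂ) ρ \ {0}) ×ˢ ball y0 R :=
  ⟨exp_lvl h ▸ ex_mem hq.1, hq.2⟩

theorem HMap.onS {ρ : ℝ} (h : 0 < ρ) {Hm : ℂ × E → S}
    (H : HMap D ((ball (0 : ℂ) ρ \ {0}) ×ˢ ball y0 R) Hm) :
    HMap D (B.strip (lvl ρ) y0 R) (onS Hm) := HMap.strip (by rwa [exp_lvl h])

theorem HMap.nhds_le_of_inj [FiniteDimensional ℂ E] {U : Set E} {Hm : E → S} {p : E}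
    (H : HMap D U Hm) (hp : p ∈ U) (dim : Module.finrank ℂ E = Fintype.card ι)
    (inj : Function.Injective (fderiv ℂ (fun q => D.π (Hm q)) p)) : 𝓝 (Hm p) ≤ map Hm (𝓝 p) :=
  H.nhds_le hp ((LinearMap.injective_iff_surjective_of_finrank_eq_finrank
    (f := (fderiv ℂ (fun q => D.π (Hm q)) p).toLinearMap) (by simpa using dim)).1 inj)

theorem mod_onS {ρ : ℝ} (h : 0 < ρ) {N : ℂ × E → ℝ}
    (mod : ∃ A : ℝ, ∀ y ∈ ball y0 R, ∃ C : ℝ, ∀ z ∈ ball (0 : ℂ) ρ \ {0}, N (z, y) ≤ C * ‖z‖ ^ (-A)) :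
    ∃ A : ℝ, ∀ y ∈ ball y0 R, ∃ C : ℝ, ∀ z : ℂ, lvl ρ + 1 ≤ z.im →
      onS N (z, y) ≤ C * Real.exp (A * z.im) := by
  obtain ⟨A, hA⟩ := mod
  refine ⟨2 * Real.pi * A, fun y hy => ?_⟩
  obtain ⟨C, hC⟩ := hA y hy
  refine ⟨C, fun z hz => ?_⟩
  have := hC (ex z) (exp_lvl h ▸ ex_mem (a := lvl ρ) (by linarith))
  rwa [norm_ex, ← Real.exp_mul, show -(2 * Real.pi * z.im) * -A = 2 * Real.pi * A * z.im by ring]
    at this

section glob

variable {κ : Type} [Fintype κ] {S' : Type} [TopologicalSpace S'] [MeasurableSpace S']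

/-- a collar over the Riemann domain `D'`: the points `Φ z x`, `0 < |z| < ρ`, holomorphic and open
on the pieces -/
structure Col (D : RD ι S) (D' : RD κ S') (ρ R : S' → ℝ) (σ : S' → (κ → ℂ) → S')
    (Φ : ℂ → S' → S) : Prop where
  ρ0 : ∀ x, 0 < ρ x
  R0 : ∀ x, 0 < R x
  sec : ∀ x, σ x (D'.π x) = x ∧ ContinuousOn (σ x) (ball (D'.π x) (R x)) ∧
    ∀ y ∈ ball (D'.π x) (R x), D'.π (σ x y) = y
  hol : ∀ x, HMap D ((ball (0 : ℂ) (ρ x) \ {0}) ×ˢ ball (D'.π x) (R x)) fun u => Φ u.1 (σ x u.2)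
  opn : ∀ x, ∃ u ∈ (ball (0 : ℂ) (ρ x) \ {0}) ×ˢ ball (D'.π x) (R x),
    𝓝 (Φ u.1 (σ x u.2)) ≤ map (fun u : ℂ × (κ → ℂ) => Φ u.1 (σ x u.2)) (𝓝 u)

variable {D' : RD κ S'} {ρ R : S' → ℝ} {σ : S' → (κ → ℂ) → S'} {Φ : ℂ → S' → S}

/-- lifts of the piece of the collar at `x` -/
abbrev CL (V : Pk D n w) (D' : RD κ S') (ρ R : S' → ℝ) (σ : S' → (κ → ℂ) → S') (Φ : ℂ → S' → S)
    (x : S') (L : ℂ × (κ → ℂ) → V.Bt) (γ : V.Γ) : Prop :=
  Lift V (lvl (ρ x)) (D'.π x) (R x) (fun q => Φ (ex q.1) (σ x q.2)) L γ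

namespace Col

theorem hmap (C : Col D D' ρ R σ Φ) (x : S') :
    HMap D (strip (lvl (ρ x)) (D'.π x) (R x)) fun q => Φ (ex q.1) (σ x q.2) :=
  (C.hol x).onS (C.ρ0 x)

theorem exists_lift (C : Col D D' ρ R σ Φ) (V : Pk D n w) (x : S') {q0 : ℂ × (κ → ℂ)}
    (h0 : q0 ∈ strip (lvl (ρ x)) (D'.π x) (R x)) (g0 : V.Γ) :
    ∃ L γ, CL V D' ρ R σ Φ x L γ ∧ (L q0).g = g0 :=
  exists_Lift V (C.hmap x).cont (fun q _ => by simp only [ex_add_one]) h0 g0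

theorem scal_iff (C : Col D D' ρ R σ Φ) (T : V.Top om) {x : S'} {L : ℂ × (κ → ℂ) → V.Bt}
    (H : CL V D' ρ R σ Φ x L γ) :
    (Scal (strip (lvl (ρ x)) (D'.π x) (R x)) (cx γ) fun q => om (L q)) ↔ V.Sc om γ := by
  obtain ⟨⟨z, y⟩, hu, op⟩ := C.opn x
  obtain ⟨u, h1, rfl⟩ := exists_ex (a := lvl (ρ x)) (z := z) (by
    rw [exp_lvl (C.ρ0 x)]
    exact hu.1)
  exact H.scal_iff T (p := (u, y)) ⟨h1, hu.2⟩
    (strip_nhds_le (Hm := fun u => Φ u.1 (σ x u.2)) (q := (u, y)) op)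

theorem horn (C : Col D D' ρ R σ Φ) (T : V.Top om) (ne : ∀ x, om x ≠ 0)
    (psh : D.Psh fun y => -Real.log (V.N om y)) {x : S'}
    (mod : ∃ A : ℝ, ∀ y ∈ ball (D'.π x) (R x), ∃ c : ℝ, ∀ z ∈ ball (0 : ℂ) (ρ x) \ {0},
      V.N om (Φ z (σ x y)) ≤ c * ‖z‖ ^ (-A))
    {L : ℂ × (κ → ℂ) → V.Bt} (H : CL V D' ρ R σ Φ x L γ) :
    HornM (lvl (ρ x)) (D'.π x) (R x) (KK w n) (fun q => V.h (L q)) (fun q => V.Y (L q))
      ((-1 : ℂ) ^ w • V.Q) (cx γ) fun q => om (L q) :=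
  H.horn (C.R0 x) (C.hmap x) T ne psh
    (mod_onS (C.ρ0 x) (N := fun u => V.N om (Φ u.1 (σ x u.2))) mod)

/-- the monodromies of neighbouring pieces are conjugate -/
theorem ev_conj (C : Col D D' ρ R σ Φ) (V : Pk D n w) (x : S') :
    ∀ᶠ x' in 𝓝 x, ∀ L γ L' γ', CL V D' ρ R σ Φ x L γ → CL V D' ρ R σ Φ x' L' γ' →
      ∃ δ : V.Γ, γ' = δ * γ * δ⁻¹ := by
  have t : Tendsto D'.π (𝓝 x) (𝓝 (D'.π x)) := D'.cont_π.continuousAt
  have u : ∀ {x x' : S'}, D'.π x' ∈ ball (D'.π x) (R x) → σ x (D'.π x') = x' →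
      σ x =ᶠ[𝓝 (D'.π x')] D'.sec x' := fun {x x'} h e =>
    D'.sec_unique e ((C.sec x).2.1.continuousAt (isOpen_ball.mem_nhds h))
      (mem_of_superset (isOpen_ball.mem_nhds h) (C.sec x).2.2)
  filter_upwards [t.eventually (ball_mem_nhds _ (C.R0 x)),
    t.eventually (u (mem_ball_self (C.R0 x)) (C.sec x).1),
    (D'.ch x).open_source.mem_nhds (D'.mem_src x)] with x' h1 h2 h3 L γ L' γ' H H'
  rw [RD.sec_π h3] at h2
  obtain ⟨r, hr, hb⟩ := Metric.eventually_nhds_iff_ball.1 ((((u h1 h2).trans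
    (u (mem_ball_self (C.R0 x')) (C.sec x').1).symm).and (isOpen_ball.mem_nhds h1)).and
    (ball_mem_nhds _ (C.R0 x')))
  obtain ⟨δ, hδ, -⟩ := (H.mono (a' := max (lvl (ρ x)) (lvl (ρ x'))) (y' := D'.π x') (R' := r)
    fun q hq => ⟨(le_max_left _ _).trans_lt hq.1, (hb _ hq.2).1.2⟩).conj hr
    (H'.mono fun q hq => ⟨(le_max_right _ _).trans_lt hq.1, (hb _ hq.2).2⟩)
    fun q hq => by rw [(hb _ hq.2).1.1]
  exact ⟨δ, hδ⟩

/-- all local monodromies along a connected divisor are conjugate -/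
theorem conj [PreconnectedSpace S'] (C : Col D D' ρ R σ Φ) {x x' : S'}
    {L L' : ℂ × (κ → ℂ) → V.Bt} {γ γ' : V.Γ} (H : CL V D' ρ R σ Φ x L γ)
    (H' : CL V D' ρ R σ Φ x' L' γ') : ∃ δ : V.Γ, γ' = δ * γ * δ⁻¹ := by
  choose l g hg _ using fun x => C.exists_lift V x (strip_mem _ _ (C.R0 x)) 1
  have k := Abs.const_of_eventually isPreconnected_univ (u := fun x => ConjClasses.mk (g x))
    (fun x _ => ?_) (mem_univ x) (mem_univ x')
  · obtain ⟨δ1, h1, -⟩ := H.conj (C.R0 x) (hg x) fun _ _ => rfl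
    obtain ⟨δ2, h2, -⟩ := (hg x').conj (C.R0 x') H' fun _ _ => rfl
    obtain ⟨δ, h⟩ := isConj_iff.1 (ConjClasses.mk_eq_mk_iff_isConj.1 k)
    exact ⟨δ2 * δ * δ1, by rw [h2, ← h, h1]; group⟩
  · rw [nhdsWithin_univ]
    filter_upwards [C.ev_conj V x] with x' h
    obtain ⟨δ, hδ⟩ := h _ _ _ _ (hg x) (hg x')
    exact (ConjClasses.mk_eq_mk_iff_isConj.2 (isConj_iff.2 ⟨δ, hδ.symm⟩)).symm

/-- GOOD or BAD -/
theorem dich [PreconnectedSpace S'] (C : Col D D' ρ R σ Φ) (T : V.Top om) :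
    (∀ x L γ, CL V D' ρ R σ Φ x L γ → V.Sc om γ) ∨
      ∀ x L γ, CL V D' ρ R σ Φ x L γ → ¬ V.Sc om γ := by
  by_cases h : ∃ x L γ, CL V D' ρ R σ Φ x L γ ∧ V.Sc om γ
  · obtain ⟨x, L, γ, H, s⟩ := h
    refine Or.inl fun x' L' γ' H' => ?_
    obtain ⟨δ, rfl⟩ := C.conj H H'
    exact sc_conj T s δ
  · exact Or.inr fun x L γ H s => h ⟨x, L, γ, H, s⟩

/-- the horn models of all pieces -/
theorem input (C : Col D D' ρ R σ Φ) (T : V.Top om) (ne : ∀ x, om x ≠ 0)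
    (psh : D.Psh fun y => -Real.log (V.N om y))
    (mod : ∀ x, ∃ A : ℝ, ∀ y ∈ ball (D'.π x) (R x), ∃ c : ℝ, ∀ z ∈ ball (0 : ℂ) (ρ x) \ {0},
      V.N om (Φ z (σ x y)) ≤ c * ‖z‖ ^ (-A)) (x : S') :
    ∃ (h Y : ℂ × (κ → ℂ) → Matrix n n ℂ) (Q T : Matrix n n ℂ) (om1 : ℂ × (κ → ℂ) → n → ℂ),
      HornM (lvl (ρ x)) (D'.π x) (R x) (KK w n) h Y Q T om1 ∧
      ∀ p ∈ strip (lvl (ρ x)) (D'.π x) (R x), V.N om (Φ (ex p.1) (σ x p.2)) = hn (h p) (om1 p) := by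
  obtain ⟨L, γ, H, -⟩ := C.exists_lift V x (strip_mem _ _ (C.R0 x)) 1
  exact ⟨_, _, _, _, _, C.horn T ne psh (mod x) H, fun p _ => (H.norm T p).symm⟩

/-- the input of `horn_input` at a bad divisor -/
theorem bad_input (C : Col D D' ρ R σ Φ) (T : V.Top om) (ne : ∀ x, om x ≠ 0)
    (psh : D.Psh fun y => -Real.log (V.N om y)) {ν : ℕ} (rk : Rk V om ν)
    (mod : ∀ x, ∃ A : ℝ, ∀ y ∈ ball (D'.π x) (R x), ∃ c : ℝ, ∀ z ∈ ball (0 : ℂ) (ρ x) \ {0},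
      V.N om (Φ z (σ x y)) ≤ c * ‖z‖ ^ (-A))
    (bad : ∀ x L γ, CL V D' ρ R σ Φ x L γ → ¬ V.Sc om γ) (x : S') :
    ∃ (h Y : ℂ × (κ → ℂ) → Matrix n n ℂ) (Q T : Matrix n n ℂ) (om1 : ℂ × (κ → ℂ) → n → ℂ),
      HornM (lvl (ρ x)) (D'.π x) (R x) (KK w n) h Y Q T om1 ∧
      RankLe (strip (lvl (ρ x)) (D'.π x) (R x)) om1 ν ∧
      ¬ Scal (strip (lvl (ρ x)) (D'.π x) (R x)) T om1 ∧
      ∀ p ∈ strip (lvl (ρ x)) (D'.π x) (R x), V.N om (Φ (ex p.1) (σ x p.2)) = hn (h p) (om1 p) := by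
  obtain ⟨L, γ, H, -⟩ := C.exists_lift V x (strip_mem _ _ (C.R0 x)) 1
  exact ⟨_, _, _, _, _, C.horn T ne psh (mod x) H, H.rankLe (C.hmap x) T rk,
    fun s => bad x L γ H ((C.scal_iff T H).1 s), fun p _ => (H.norm T p).symm⟩

end Col

end glob

end

end Pool.Agent.Lib.MP_5c318e_ag.Br
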