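import Pool.Agent.Lib.MP_5c318e_ag.B.HDefs
import Pool.Agent.Lib.MP_5c318e_ag.V.Top
import Pool.Agent.Lib.MP_5c318e_ag.V.Max

/-! Norms of vectors, operator bounds, comparison of the metric at different points. -/

set_option autoImplicit false

namespace Pool.Agent.Lib.MP_5c318e_ag.B

open Complex Matrix Metric Filter Topology Set
open scoped ComplexOrder ContDiff ComplexConjugate

noncomputable section

variable {E : Type} [NormedAddCommGroup E] [NormedSpace ℂ E] {n : Type} [Fintype n] [DecidableEq n]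

section alg

variable {h : Matrix n n ℂ}

omit [DecidableEq n] in
theorem hq_eq (Q : Matrix n n ℂ) (u v : n → ℂ) :
    hq Q u v = V.ip (1 : Matrix Unit Unit ℂ) Q (replicateCol Unit u) (replicateCol Unit v) :=
  (V.ip_col Q u v).symm

omit [DecidableEq n] in
theorem hn_eq (Q : Matrix n n ℂ) (v : n → ℂ) :
    hn Q v = V.nsq (1 : Matrix Unit Unit ℂ) Q (replicateCol Unit v) := by
  rw [hn, hq_eq, V.nsq]

omit [DecidableEq n] in
theorem hq_add_left (Q : Matrix n n ℂ) (u u' v : n → ℂ) : hq Q (u + u') v = hq Q u v + hq Q u' v := by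
  simp only [hq, mulVec_add, dotProduct_add]

omit [DecidableEq n] in
theorem hq_add_right (Q : Matrix n n ℂ) (u v v' : n → ℂ) :
    hq Q u (v + v') = hq Q u v + hq Q u v' := by
  simp only [hq, star_add, add_dotProduct]

omit [DecidableEq n] in
theorem hq_smul_left (Q : Matrix n n ℂ) (a : ℂ) (u v : n → ℂ) : hq Q (a • u) v = a * hq Q u v := by
  simp only [hq, mulVec_smul, dotProduct_smul, smul_eq_mul]

omit [DecidableEq n] in
theorem hq_smul_right (Q : Matrix n n ℂ) (a : ℂ) (u v : n → ℂ) :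
    hq Q u (a • v) = conj a * hq Q u v := by
  simp only [hq, star_smul, smul_dotProduct, smul_eq_mul]
  rfl

omit [DecidableEq n] in
theorem hq_mulVec (Q A B : Matrix n n ℂ) (u v : n → ℂ) :
    hq Q (A *ᵥ u) (B *ᵥ v) = hq (Bᴴ * Q * A) u v := by
  simp only [hq, star_mulVec, ← mulVec_mulVec, dotProduct_mulVec, vecMul_vecMul]

omit [DecidableEq n] in
theorem hq_conj {Q : Matrix n n ℂ} (H : Q.IsHermitian) (u v : n → ℂ) : conj (hq Q u v) = hq Q v u := by
  rw [hq_eq, hq_eq, V.ip_conj isHermitian_one H]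

omit [DecidableEq n] in
theorem hn_smul (Q : Matrix n n ℂ) (a : ℂ) (v : n → ℂ) : hn Q (a • v) = ‖a‖ ^ 2 * hn Q v := by
  rw [hn, hq_smul_left, hq_smul_right, ← mul_assoc, mul_conj', ← ofReal_pow, re_ofReal_mul, hn]

omit [Fintype n] [DecidableEq n] in
theorem col_ne {v : n → ℂ} (hv : v ≠ 0) : replicateCol Unit v ≠ 0 := fun e =>
  hv (funext fun i => congrFun (congrFun e i) ())

theorem hn_nonneg (H : h.PosDef) (v : n → ℂ) : 0 ≤ hn h v := by
  rw [hn_eq]
  exact V.nsq_nonneg PosDef.one H _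

theorem hn_pos (H : h.PosDef) {v : n → ℂ} (hv : v ≠ 0) : 0 < hn h v := by
  rw [hn_eq]
  exact V.nsq_pos PosDef.one H (col_ne hv)

theorem hq_self (H : h.PosDef) (v : n → ℂ) : hq h v v = (hn h v : ℝ) := by
  rw [hn_eq, hq_eq, V.ip_self PosDef.one H]

theorem hq_cs (H : h.PosDef) (u v : n → ℂ) : ‖hq h u v‖ ^ 2 ≤ hn h u * hn h v := by
  rw [hn_eq, hn_eq, hq_eq]
  exact V.ip_cs PosDef.one H _ _

omit [DecidableEq n] in
theorem hn_zero (Q : Matrix n n ℂ) : hn Q 0 = 0 := by simp [hn, hq]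

omit [DecidableEq n] in
theorem cont_hq (Q : Matrix n n ℂ) {X : Type} [TopologicalSpace X] {u v : X → n → ℂ} {s : Set X}
    (hu : ContinuousOn u s) (hv : ContinuousOn v s) : ContinuousOn (fun x => hq Q (u x) (v x)) s := by
  have : Continuous fun p : (n → ℂ) × (n → ℂ) => hq Q p.1 p.2 := by
    unfold hq
    fun_prop
  exact this.comp_continuousOn (hu.prodMk hv)

theorem sqrt_hn_add (H : h.PosDef) (u v : n → ℂ) : √(hn h (u + v)) ≤ √(hn h u) + √(hn h v) := by
  have a := hn_nonneg H u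
  have b := hn_nonneg H v
  have c : ∀ x y, (hq h x y).re ≤ √(hn h x) * √(hn h y) := fun x y => by
    rw [← Real.sqrt_mul (hn_nonneg H x)]
    exact (re_le_norm _).trans (Real.le_sqrt_of_sq_le (hq_cs H x y))
  refine Real.sqrt_le_iff.2 ⟨by positivity, ?_⟩
  rw [add_sq, Real.sq_sqrt a, Real.sq_sqrt b]
  have e : hn h (u + v) = hn h u + (hq h u v).re + (hq h v u).re + hn h v := by
    simp only [hn, hq_add_left, hq_add_right, add_re]
    ring
  nlinarith [c u v, c v u]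

/-- operator bound -/
def Bd (h A : Matrix n n ℂ) (C : ℝ) : Prop := ∀ v, √(hn h (A *ᵥ v)) ≤ C * √(hn h v)

variable {A B : Matrix n n ℂ} {C D : ℝ}

omit [DecidableEq n] in
theorem Bd.mono (a : Bd h A C) (hC : C ≤ D) : Bd h A D := fun v =>
  (a v).trans (mul_le_mul_of_nonneg_right hC (Real.sqrt_nonneg _))

theorem bd_one : Bd h 1 1 := fun v => by simp

omit [DecidableEq n] in
theorem Bd.mul (a : Bd h A C) (b : Bd h B D) (hC : 0 ≤ C) : Bd h (A * B) (C * D) := fun v => by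
  rw [← mulVec_mulVec, mul_assoc]
  exact (a _).trans (mul_le_mul_of_nonneg_left (b v) hC)

theorem Bd.pow (a : Bd h A C) (hC : 0 ≤ C) (k : ℕ) : Bd h (A ^ k) (C ^ k) := by
  induction k with
  | zero => simpa using bd_one
  | succ k ih =>
    rw [pow_succ, pow_succ]
    exact ih.mul a (by positivity)

theorem Bd.add (H : h.PosDef) (a : Bd h A C) (b : Bd h B D) : Bd h (A + B) (C + D) := fun v => by
  rw [add_mulVec, add_mul]
  exact (sqrt_hn_add H _ _).trans (add_le_add (a v) (b v))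

omit [DecidableEq n] in
theorem Bd.smul (a : Bd h A C) (c : ℂ) : Bd h (c • A) (‖c‖ * C) := fun v => by
  rw [smul_mulVec, hn_smul, Real.sqrt_mul (sq_nonneg _), Real.sqrt_sq (norm_nonneg _), mul_assoc]
  exact mul_le_mul_of_nonneg_left (a v) (norm_nonneg _)

theorem Bd.sub (H : h.PosDef) (a : Bd h A C) (b : Bd h B D) : Bd h (A - B) (C + D) := by
  have := a.add H (b.smul (-1))
  simpa [sub_eq_add_neg] using this

theorem bd_sum (H : h.PosDef) {α : Type} (s : Finset α) {F : α → Matrix n n ℂ} {c : α → ℝ}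
    (a : ∀ i ∈ s, Bd h (F i) (c i)) : Bd h (∑ i ∈ s, F i) (∑ i ∈ s, c i) := by
  classical
  induction s using Finset.induction_on with
  | empty => exact fun v => by simp [hn_zero]
  | insert i s hi ih =>
    rw [Finset.sum_insert hi, Finset.sum_insert hi]
    exact (a i (Finset.mem_insert_self i s)).add H
      (ih fun j hj => a j (Finset.mem_insert_of_mem hj))

theorem Bd.sq (H : h.PosDef) (a : Bd h A C) (v : n → ℂ) : hn h (A *ᵥ v) ≤ C ^ 2 * hn h v := by
  have := pow_le_pow_left₀ (Real.sqrt_nonneg _) (a v) 2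
  rwa [mul_pow, Real.sq_sqrt (hn_nonneg H _), Real.sq_sqrt (hn_nonneg H _)] at this

omit [DecidableEq n] in
theorem bd_of_sq (hC : 0 ≤ C) (a : ∀ v, hn h (A *ᵥ v) ≤ C ^ 2 * hn h v) : Bd h A C := fun v => by
  refine (Real.sqrt_le_sqrt (a v)).trans (le_of_eq ?_)
  rw [Real.sqrt_mul (sq_nonneg _), Real.sqrt_sq hC]

theorem exists_bd (H : h.PosDef) (A : Matrix n n ℂ) : ∃ C, 0 ≤ C ∧ Bd h A C := by
  refine ⟨√(V.nsq h h A), Real.sqrt_nonneg _, bd_of_sq (Real.sqrt_nonneg _) fun v => ?_⟩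
  rw [Real.sq_sqrt (V.nsq_nonneg H H A), hn_eq, hn_eq, replicateCol_mulVec]
  exact V.nsq_mul PosDef.one H H _ _

/-- the sup norm is bounded by the norm of `h` -/
theorem exists_norm_le (H : h.PosDef) : ∃ C, 0 ≤ C ∧ ∀ v : n → ℂ, ‖v‖ ≤ C * √(hn h v) := by
  refine ⟨√(V.nsq h (1 : Matrix n n ℂ) 1), Real.sqrt_nonneg _, fun v => ?_⟩
  rw [← Real.sqrt_mul (V.nsq_nonneg H PosDef.one _)]
  refine (pi_norm_le_iff_of_nonneg (Real.sqrt_nonneg _)).2 fun i => Real.le_sqrt_of_sq_le ?_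
  have a := V.nsq_mul (h₁ := (1 : Matrix Unit Unit ℂ)) PosDef.one H PosDef.one (1 : Matrix n n ℂ)
    (replicateCol Unit v)
  rw [Matrix.one_mul, ← hn_eq, ← hn_eq] at a
  refine le_trans ?_ a
  have e : hn (1 : Matrix n n ℂ) v = ∑ j, ‖v j‖ ^ 2 := by
    simp only [hn, hq, one_mulVec, dotProduct, re_sum, Pi.star_apply]
    refine Finset.sum_congr rfl fun j _ => ?_
    rw [← starRingEnd_apply, conj_mul', ← ofReal_pow, ofReal_re]
  rw [e]
  exact Finset.single_le_sum (f := fun j => ‖v j‖ ^ 2) (fun j _ => sq_nonneg _) (Finset.mem_univ i)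

end alg

section cmp

variable {U : Set E} {h Y : E → Matrix n n ℂ} {K : ℝ}

/-- Schwarz lemma on a disc -/
theorem lam_disc (G : V.GM U h Y K) {x ξ : E} {r : ℝ} (hr : 0 < r)
    (hs : ∀ t ∈ ball (0 : ℂ) r, x + t • ξ ∈ U) : V.lam h ξ x ≤ 2 * K / r ^ 2 := by
  have hx : x ∈ U := by simpa using hs 0 (mem_ball_self hr)
  have G' := G.comp (g := fun t : ℂ => x + t • ξ) isOpen_ball (fun t _ => by fun_prop) hs
  have N : V.Neg (ball 0 r) K fun t => V.lam (fun t : ℂ => h (x + t • ξ)) 1 t := fun t ht =>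
    ⟨V.cd2 (V.sm_nsq G'.toMet G'.toMet ht (G'.sm_th ht 1)), G'.schwarz ht⟩
  have a := N.ahlfors (G.K_nonneg hx) hr Subset.rfl
  have d : HasDerivAt (fun t : ℂ => x + t • ξ) ξ 0 := by
    simpa using ((hasDerivAt_id (0 : ℂ)).smul_const ξ).const_add x
  rw [V.lam_comp (g := fun t : ℂ => x + t • ξ) (G.sm _ (hs 0 (mem_ball_self hr)))
    d.differentiableAt, fderiv_apply_one_eq_deriv, d.deriv] at a
  simpa using a

/-- the Lipschitz constant -/
def lc (K : ℝ) : ℝ := 6 * √(2 * K)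

theorem lc_nonneg (K : ℝ) : 0 ≤ lc K := by
  unfold lc
  positivity

theorem sm_hn (M : V.Met U h) {x : E} (hx : x ∈ U) {X : E → n → ℂ}
    (hX : ∀ i, ContDiffAt ℝ ∞ (fun y => X y i) x) : ContDiffAt ℝ ∞ (fun y => hn (h y) (X y)) x := by
  simp only [hn_eq]
  exact V.sm_nsq (V.met_const M.op PosDef.one) M hx fun i _ => hX i

theorem der_log_hn (G : V.GM U h Y K) {v : n → ℂ} (hv : v ≠ 0) {x ξ : E} {r : ℝ} (hr : 0 < r)
    (hs : ∀ t ∈ ball (0 : ℂ) r, x + t • ξ ∈ U) :
    DifferentiableAt ℝ (fun y => Real.log (hn (h y) v)) x ∧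
      |fderiv ℝ (fun y => Real.log (hn (h y) v)) x ξ| ≤ lc K / r := by
  have hx : x ∈ U := by simpa using hs 0 (mem_ball_self hr)
  have d : DifferentiableAt ℝ (fun y => hn (h y) v) x :=
    (sm_hn G.toMet hx (X := fun _ => v) fun _ => contDiffAt_const).differentiableAt (by simp)
  refine ⟨d.log (hn_pos (G.pos x hx) hv).ne', ?_⟩
  simp only [hn_eq]
  refine (V.abs_pd_log_nsq (V.met_const G.op PosDef.one) G.toMet hx (col_ne hv) ξ).trans ?_
  have e : V.lam (fun _ : E => (1 : Matrix Unit Unit ℂ)) ξ x = 0 := by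
    simp [V.lam, V.th_const, V.nsq, V.ip_zero_left]
  rw [e, zero_add, lc, mul_div_assoc]
  refine mul_le_mul_of_nonneg_left ((Real.sqrt_le_sqrt (lam_disc G hr hs)).trans (le_of_eq ?_))
    (by norm_num)
  rw [Real.sqrt_div' _ (sq_nonneg r), Real.sqrt_sq hr.le]

theorem line_der (G : V.GM U h Y K) {v : n → ℂ} (hv : v ≠ 0) {x ξ : E} {r s : ℝ} (hr : 0 < r)
    (hs : ∀ t ∈ ball (0 : ℂ) r, x + ((s : ℂ) + t) • ξ ∈ U) :
    ∃ d, HasDerivAt (fun s : ℝ => Real.log (hn (h (x + (s : ℂ) • ξ)) v)) d s ∧ |d| ≤ lc K / r := by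
  obtain ⟨a, b⟩ := der_log_hn G hv (x := x + (s : ℂ) • ξ) (ξ := ξ) hr fun t ht => by
    rw [add_assoc, ← add_smul]
    exact hs t ht
  have d : HasDerivAt (fun s : ℝ => x + (s : ℂ) • ξ) ξ s := by
    simpa using ((ofRealCLM.hasDerivAt (x := s)).smul_const ξ).const_add x
  exact ⟨_, HasFDerivAt.comp_hasDerivAt (f := fun s : ℝ => x + (s : ℂ) • ξ) s a.hasFDerivAt d, b⟩

theorem cmp_seg (G : V.GM U h Y K) {v : n → ℂ} (hv : v ≠ 0) {x ξ : E} {r : ℝ} (hr : 0 < r)
    (hs : ∀ s ∈ Icc (0 : ℝ) 1, ∀ t ∈ ball (0 : ℂ) r, x + ((s : ℂ) + t) • ξ ∈ U) :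
    |Real.log (hn (h (x + ξ)) v) - Real.log (hn (h x) v)| ≤ lc K / r := by
  choose! d hd using fun s (h : s ∈ Icc (0 : ℝ) 1) => line_der G hv hr (hs s h)
  have := norm_image_sub_le_of_norm_deriv_le_segment_01'
    (f := fun s : ℝ => Real.log (hn (h (x + (s : ℂ) • ξ)) v)) (f' := d)
    (fun s h => (hd s h).1.hasDerivWithinAt) fun s h => (hd s (Ico_subset_Icc_self h)).2
  simpa using this

theorem cmp_ray (G : V.GM U h Y K) {v : n → ℂ} (hv : v ≠ 0) {x ξ : E}
    (hs : ∀ s : ℝ, 0 ≤ s → ∀ t ∈ ball (0 : ℂ) (s + 1), x + ((s : ℂ) + t) • ξ ∈ U) {s : ℝ}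
    (h0 : 0 ≤ s) :
    |Real.log (hn (h (x + (s : ℂ) • ξ)) v) - Real.log (hn (h x) v)| ≤ lc K * Real.log (s + 1) := by
  choose! d hd using fun (s : ℝ) (h : 0 ≤ s) => line_der G hv (by linarith : 0 < s + 1) (hs s h)
  have B : ∀ u : ℝ, 0 ≤ u → HasDerivAt (fun u : ℝ => lc K * Real.log (u + 1)) (lc K / (u + 1)) u :=
    fun u hu => by
      simpa [div_eq_mul_inv] using
        (((hasDerivAt_id u).add_const 1).log (by simp only [id]; linarith)).const_mul (lc K)
  have := image_norm_le_of_norm_deriv_right_le_deriv_boundary'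
    (f := fun s : ℝ => Real.log (hn (h (x + (s : ℂ) • ξ)) v) - Real.log (hn (h x) v)) (f' := d)
    (a := 0) (b := s)
    (fun u hu => ((hd u hu.1).1.sub_const _).continuousAt.continuousWithinAt)
    (fun u hu => ((hd u hu.1).1.sub_const _).hasDerivWithinAt)
    (B := fun u : ℝ => lc K * Real.log (u + 1)) (B' := fun u => lc K / (u + 1)) (by simp)
    (fun u hu => (B u hu.1).continuousAt.continuousWithinAt)
    (fun u hu => (B u hu.1).hasDerivWithinAt) (fun u hu => (hd u hu.1).2) (right_mem_Icc.2 h0)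
  exact this

theorem hn_le_of_log {h₁ h₂ : Matrix n n ℂ} (H₁ : h₁.PosDef) (H₂ : h₂.PosDef) {c : ℝ}
    (a : ∀ v : n → ℂ, v ≠ 0 → |Real.log (hn h₁ v) - Real.log (hn h₂ v)| ≤ c) (v : n → ℂ) :
    hn h₁ v ≤ Real.exp c * hn h₂ v ∧ hn h₂ v ≤ Real.exp c * hn h₁ v := by
  rcases eq_or_ne v 0 with rfl | hv
  · simp [hn_zero]
  have p₁ := hn_pos H₁ hv
  have p₂ := hn_pos H₂ hv
  obtain ⟨b₁, b₂⟩ := abs_le.1 (a v hv)
  constructor
  · rw [← Real.exp_log p₁, ← Real.exp_log p₂, ← Real.exp_add, Real.exp_le_exp]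
    linarith
  · rw [← Real.exp_log p₁, ← Real.exp_log p₂, ← Real.exp_add, Real.exp_le_exp]
    linarith

/-- comparison on the half ball -/
theorem cmp_ball {y0 y : E} {R : ℝ} (G : V.GM (ball y0 R) h Y K) (hy : y ∈ ball y0 (R / 2))
    (v : n → ℂ) : hn (h y0) v ≤ Real.exp (lc K) * hn (h y) v := by
  have n1 := mem_ball_iff_norm.1 hy
  have n0 := norm_nonneg (y - y0)
  refine (hn_le_of_log (G.pos y (ball_subset_ball (by linarith) hy))
    (G.pos y0 (mem_ball_self (by linarith))) (fun v hv => ?_) v).2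
  have := cmp_seg G hv (x := y0) (ξ := y - y0) one_pos fun s hs t ht => by
    rw [add_mem_ball_iff_norm, norm_smul]
    have a := norm_add_le (s : ℂ) t
    rw [norm_real, Real.norm_of_nonneg hs.1] at a
    have b := mem_ball_zero_iff.1 ht
    nlinarith [hs.2, norm_nonneg ((s : ℂ) + t)]
  simpa using this

end cmp

section strip

variable {a R K : ℝ} {y0 : E} {h Y : ℂ × E → Matrix n n ℂ}

omit [NormedSpace ℂ E] in
theorem isOpen_strip : IsOpen (strip a y0 R) :=
  (isOpen_lt continuous_const (continuous_im.comp continuous_fst)).inter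
    (isOpen_ball.preimage continuous_snd)

theorem cmp_hor (G : V.GM (strip a y0 R) h Y K) {v : n → ℂ} (hv : v ≠ 0) {w : ℂ} {y : E}
    (hp : (w, y) ∈ strip a y0 R) {u m : ℝ} (hm : 0 < m) (hu : |u| ≤ m) :
    |Real.log (hn (h (w + u, y)) v) - Real.log (hn (h (w, y)) v)| ≤ lc K * m / (w.im - a) := by
  have p : 0 < w.im - a := sub_pos.2 hp.1
  have := cmp_seg G hv (x := (w, y)) (ξ := ((u : ℂ), 0)) (div_pos p hm) fun s _ t ht => by
    refine ⟨?_, by simpa using hp.2⟩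
    have b := (abs_im_le_norm t).trans_lt (mem_ball_zero_iff.1 ht)
    rw [lt_div_iff₀ hm] at b
    have c : |t.im * u| ≤ |t.im| * m := by
      rw [abs_mul]
      exact mul_le_mul_of_nonneg_left hu (abs_nonneg _)
    have e : ((w, y) + ((s : ℂ) + t) • ((u : ℂ), (0 : E))).1.im = w.im + t.im * u := by simp
    rw [e]
    linarith [(abs_le.1 c).1]
  rw [div_div_eq_mul_div] at this
  simpa using this

/-- the base point -/
def w0 (a : ℝ) : ℂ := ((a + 1 : ℝ) : ℂ) * I

theorem cmp_strip (G : V.GM (strip a y0 R) h Y K) {R' m : ℝ} (hR : R' < R) (hm : 0 < m) {y : E}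
    (hy : y ∈ closedBall y0 R') {w : ℂ} (h1 : a + 1 ≤ w.im) (h2 : |w.re| ≤ m) (v : n → ℂ) :
    hn (h (w, y)) v ≤ Real.exp (lc K * (R / (R - R') + m + Real.log (w.im - a))) *
        hn (h (w0 a, y0)) v ∧
      hn (h (w0 a, y0)) v ≤ Real.exp (lc K * (R / (R - R') + m + Real.log (w.im - a))) *
        hn (h (w, y)) v := by
  have n1 := mem_closedBall_iff_norm.1 hy
  have n0 := norm_nonneg (y - y0)
  have R0 : 0 < R := by linarith
  have yb : y ∈ ball y0 R := closedBall_subset_ball hR hy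
  have i0 : (w0 a).im = a + 1 := by simp [w0]
  refine hn_le_of_log (G.pos _ ⟨by simp only; linarith, yb⟩)
    (G.pos _ ⟨by simp only [i0]; linarith, mem_ball_self R0⟩) (fun v hv => ?_) v
  have s1 := cmp_seg G hv (x := (w0 a, y0)) (ξ := (0, y - y0)) (r := (R - R') / R)
    (div_pos (by linarith) R0) fun s hs t ht => by
      refine ⟨by simp [i0], ?_⟩
      simp only [Prod.snd_add, Prod.smul_snd]
      rw [add_mem_ball_iff_norm, norm_smul]
      have a := norm_add_le (s : ℂ) t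
      rw [norm_real, Real.norm_of_nonneg hs.1] at a
      have b := mem_ball_zero_iff.1 ht
      rw [lt_div_iff₀ R0] at b
      have c : ‖(s : ℂ) + t‖ * ‖y - y0‖ ≤ (1 + ‖t‖) * ‖y - y0‖ :=
        mul_le_mul_of_nonneg_right (by linarith [hs.2]) n0
      nlinarith [norm_nonneg t]
  have s2 := cmp_hor G hv (w := w0 a) (y := y) ⟨by simp only [i0]; linarith, yb⟩ hm h2
  have s3 := cmp_ray G hv (x := (w0 a + w.re, y)) (ξ := (I, 0)) (s := w.im - a - 1)
    (fun s _ t ht => by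
      refine ⟨?_, by simpa using yb⟩
      have b := (abs_re_le_norm t).trans_lt (mem_ball_zero_iff.1 ht)
      have e : ((w0 a + w.re, y) + ((s : ℂ) + t) • (I, (0 : E))).1.im = a + 1 + s + t.re := by
        simp [i0]
        ring
      rw [e]
      linarith [(abs_lt.1 b).1]) (by linarith)
  have e3 : ((w0 a + w.re, y) : ℂ × E) + ((w.im - a - 1 : ℝ) : ℂ) • (I, (0 : E)) = (w, y) := by
    refine Prod.ext (Complex.ext ?_ ?_) (by simp)
    · simp [w0]
    · simp [w0]
  rw [e3, sub_add_cancel] at s3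
  rw [div_div_eq_mul_div] at s1
  rw [i0, add_sub_cancel_left, div_one] at s2
  simp only [Prod.mk_add_mk, add_zero, add_sub_cancel] at s1
  have t := abs_sub_le (Real.log (hn (h (w, y)) v)) (Real.log (hn (h (w0 a + w.re, y)) v))
    (Real.log (hn (h (w0 a, y0)) v))
  have t' := abs_sub_le (Real.log (hn (h (w0 a + w.re, y)) v)) (Real.log (hn (h (w0 a, y)) v))
    (Real.log (hn (h (w0 a, y0)) v))
  rw [mul_add, mul_add, ← mul_div_assoc]
  linarith

end strip

end

end Pool.Agent.Lib.MP_5c318e_ag.B
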