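import Pool.Agent.Lib.MP_5c318e_ag.B.Cmp
import Pool.Agent.Lib.MP_5c318e_ag.B.Ext

/-! A periodic holomorphic map of moderate growth is a power of `q` times a holomorphic map. -/

set_option autoImplicit false

namespace Pool.Agent.Lib.MP_5c318e_ag.B

open Complex Metric Filter Topology Set Function Function.Periodic

noncomputable section

variable {E : Type} [NormedAddCommGroup E] [NormedSpace ℂ E] {n : Type} [Fintype n]
  {a R m : ℝ} {y0 : E} {Ψ : ℂ × E → n → ℂ}

/-- the radius of the disc of the parameter `q` -/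
def rad (a m : ℝ) : ℝ := Real.exp (-2 * Real.pi * a / m)

theorem rad_pos (a m : ℝ) : 0 < rad a m := Real.exp_pos _

theorem q_mem (hm : 0 < m) (w : ℂ) : qParam m w ∈ ball 0 (rad a m) ↔ a < w.im := by
  rw [mem_ball_zero_iff]
  exact norm_qParam_lt_iff hm a w

theorem qParam_add (m : ℝ) (w u : ℂ) : qParam m (w + u) = qParam m w * qParam m u := by
  rw [qParam, qParam, qParam, ← exp_add]
  congr 1
  ring

theorem abs_re_inv (hm : 0 < m) (z : ℂ) : |(invQParam m z).re| ≤ m := by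
  have e : invQParam m z = ((m / (2 * Real.pi) : ℝ) : ℂ) * (-I * log z) := by
    rw [invQParam, ← div_div, div_I]
    push_cast
    ring
  have p := Real.pi_pos
  rw [e, re_ofReal_mul, abs_mul, abs_of_pos (by positivity)]
  have h : |(-I * log z).re| ≤ Real.pi := by
    simpa [log_im] using abs_arg_le_pi z
  calc _ ≤ m / (2 * Real.pi) * Real.pi := mul_le_mul_of_nonneg_left h (by positivity)
    _ = m / 2 := by field_simp
    _ ≤ m := by linarith

omit [NormedSpace ℂ E] [Fintype n] in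
theorem desc_eq (hm : 0 < m) (per : ∀ p ∈ strip a y0 R, Ψ (p.1 + m, p.2) = Ψ p) {p : ℂ × E}
    (hp : p ∈ strip a y0 R) : Ψ (invQParam m (qParam m p.1), p.2) = Ψ p := by
  classical
  have P : Periodic (fun w : ℂ => if a < w.im then Ψ (w, p.2) else 0) (m : ℂ) := fun w => by
    simp only [add_im, ofReal_im, add_zero]
    split_ifs with h
    · exact per (w, p.2) ⟨h, hp.2⟩
    · rfl
  obtain ⟨k, hk⟩ := qParam_left_inv_mod_period hm.ne' p.1
  have := P.int_mul k p.1
  have h1 : a < p.1.im := hp.1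
  simpa [hk, h1] using this

theorem desc_diff (hm : 0 < m) (hol : DifferentiableOn ℂ Ψ (strip a y0 R))
    (per : ∀ p ∈ strip a y0 R, Ψ (p.1 + m, p.2) = Ψ p) :
    DifferentiableOn ℂ (fun p : ℂ × E => Ψ (invQParam m p.1, p.2))
      ((ball 0 (rad a m) \ {0}) ×ˢ ball y0 R) := by
  rintro ⟨z, y⟩ ⟨⟨hz, z0⟩, hy⟩
  have z0' : z ≠ 0 := z0
  refine DifferentiableAt.differentiableWithinAt ?_
  let g : ℂ × E → ℂ × E := fun p => (invQParam m z + invQParam m (p.1 / z), p.2)
  have g0 : g (z, y) = (invQParam m z, y) := by simp [g, invQParam, z0']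
  have s : (invQParam m z, y) ∈ strip a y0 R :=
    ⟨(q_mem hm _).1 (by rwa [qParam_right_inv hm.ne' z0']), hy⟩
  have dg : DifferentiableAt ℂ g (z, y) := by
    refine DifferentiableAt.prodMk (DifferentiableAt.const_add _ (DifferentiableAt.const_mul
      (DifferentiableAt.clog (by fun_prop) ?_) _)) differentiableAt_snd
    simp [z0']
  have d : DifferentiableAt ℂ (fun p => Ψ (g p)) (z, y) :=
    DifferentiableAt.comp (g := Ψ) _ (by rw [g0]; exact hol.differentiableAt (isOpen_strip.mem_nhds s)) dg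
  refine d.congr_of_eventuallyEq ?_
  have e1 : ∀ᶠ p in 𝓝 ((z, y) : ℂ × E), g p ∈ strip a y0 R :=
    dg.continuousAt.eventually (by rw [g0]; exact isOpen_strip.mem_nhds s)
  have e2 : ∀ᶠ p : ℂ × E in 𝓝 (z, y), p.1 ≠ 0 := continuous_fst.continuousAt.eventually_ne z0'
  filter_upwards [e1, e2] with p h1 h2
  rw [← desc_eq hm per h1]
  simp only [g]
  rw [qParam_add, qParam_right_inv hm.ne' z0', qParam_right_inv hm.ne' (div_ne_zero h2 z0'),
    mul_div_cancel₀ _ z0']

theorem descend [FiniteDimensional ℂ E] (hm : 0 < m) (hR : 0 < R)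
    (hol : DifferentiableOn ℂ Ψ (strip a y0 R))
    (per : ∀ p ∈ strip a y0 R, Ψ (p.1 + m, p.2) = Ψ p) (nz : ∀ p ∈ strip a y0 R, Ψ p ≠ 0)
    {A : ℝ} (gr : ∀ y ∈ ball y0 R, ∃ C τ : ℝ, ∀ w : ℂ, τ ≤ w.im → |w.re| ≤ m →
      ‖Ψ (w, y)‖ ≤ C * Real.exp (A * w.im)) :
    ∃ (a0 : ℤ) (F : ℂ × E → n → ℂ), AnalyticOnNhd ℂ F (ball 0 (rad a m) ×ˢ ball y0 R) ∧
      (∀ p ∈ strip a y0 R, Ψ p = qParam m p.1 ^ a0 • F (qParam m p.1, p.2)) ∧
      ∃ y ∈ ball y0 R, F (0, y) ≠ 0 := by
  have pp := Real.pi_pos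
  let f : ℤ → ℂ × E → n → ℂ := fun j p => p.1 ^ (-j) • Ψ (invQParam m p.1, p.2)
  have O : IsOpen ((ball (0 : ℂ) (rad a m) \ {0}) ×ˢ ball y0 R) :=
    (isOpen_ball.sdiff isClosed_singleton).prod isOpen_ball
  have fa : ∀ j, AnalyticOnNhd ℂ (f j) ((ball 0 (rad a m) \ {0}) ×ˢ ball y0 R) := fun j =>
    osg O (DifferentiableOn.smul (fun p hp => (DifferentiableAt.zpow differentiableAt_fst
      (Or.inl hp.1.2)).differentiableWithinAt) (desc_diff hm hol per))
  let P : ℤ → Prop := fun j => ∀ y ∈ ball y0 R, ∃ C, ∀ᶠ z in 𝓝[≠] (0 : ℂ), ‖f j (z, y)‖ ≤ C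
  have Fa : ∀ j, P j → AnalyticOnNhd ℂ (ext0 (f j)) (ball 0 (rad a m) ×ˢ ball y0 R) := fun j h =>
    osg (isOpen_ball.prod isOpen_ball) (ext0_diff isOpen_ball (fa j) h)
  have sl : ∀ j, P j → ∀ y ∈ ball y0 R, AnalyticAt ℂ (fun z => ext0 (f j) (z, y)) 0 :=
    fun j h y hy => (Fa j h (0, y) ⟨mem_ball_self (rad_pos a m), hy⟩).comp_of_eq
      (analyticAt_id.prod analyticAt_const) rfl
  have rel : ∀ (i j : ℤ) (z : ℂ) (y : E), z ≠ 0 → f i (z, y) = z ^ (j - i) • f j (z, y) :=
    fun i j z y hz => by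
      simp only [f]
      rw [smul_smul, ← zpow_add₀ hz]
      congr 2
      ring
  obtain ⟨k, hk⟩ := exists_nat_ge (A * m / (2 * Real.pi))
  have Pk : P (-k) := fun y hy => by
    obtain ⟨C, τ, hC⟩ := gr y hy
    refine ⟨max C 0, ?_⟩
    have t := (tendsto_comap_iff.1 (invQParam_tendsto hm)).eventually (eventually_ge_atTop (max τ 0))
    filter_upwards [t, self_mem_nhdsWithin] with z h1 h2
    have b := (hC _ ((le_max_left _ _).trans h1) (abs_re_inv hm z)).trans
      (mul_le_mul_of_nonneg_right (le_max_left C 0) (Real.exp_pos _).le)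
    have i0 : 0 ≤ (invQParam m z).im := (le_max_right _ _).trans h1
    have nz : ‖z‖ = Real.exp (-2 * Real.pi * (invQParam m z).im / m) := by
      rw [← norm_qParam, qParam_right_inv hm.ne' h2]
    simp only [f, neg_neg, zpow_natCast, norm_smul, norm_pow]
    refine (mul_le_mul_of_nonneg_left b (by positivity)).trans ?_
    rw [mul_left_comm]
    refine mul_le_of_le_one_right (le_max_right _ _) ?_
    rw [nz, ← Real.exp_nat_mul, ← Real.exp_add, Real.exp_le_one_iff]
    rw [div_le_iff₀ (by positivity)] at hk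
    have e : k * (-2 * Real.pi * (invQParam m z).im / m) + A * (invQParam m z).im =
        -((k * (2 * Real.pi) - A * m) * (invQParam m z).im / m) := by
      field_simp
      ring
    rw [e, neg_nonpos]
    exact div_nonneg (mul_nonneg (by linarith) i0) hm.le
  have bdd : ∃ b : ℤ, ∀ j, P j → j ≤ b := by
    have y0b := mem_ball_self (x := y0) hR
    have ne : ¬∀ᶠ z in 𝓝 (0 : ℂ), ext0 (f (-k)) (z, y0) = 0 := fun h => by
      have t := qParam_tendsto hm
      have t2 : ∀ᶠ w : ℂ in comap im atTop, a < w.im :=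
        tendsto_comap.eventually (eventually_gt_atTop a)
      have : (comap im atTop : Filter ℂ).NeBot := comap_neBot fun s hs => by
        obtain ⟨x, hx⟩ := Filter.nonempty_of_mem hs
        exact ⟨x * I, by simpa using hx⟩
      obtain ⟨w, h1, h2⟩ := ((t.eventually (h.filter_mono nhdsWithin_le_nhds)).and t2).exists
      rw [ext0_ne _ (qParam_ne_zero w)] at h1
      simp only [f] at h1
      rw [desc_eq hm per (p := (w, y0)) ⟨h2, y0b⟩] at h1
      exact nz (w, y0) ⟨h2, y0b⟩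
        ((smul_eq_zero.1 h1).resolve_left (zpow_ne_zero _ (qParam_ne_zero w)))
    obtain ⟨l, g, ga, g0, hg⟩ := (sl _ Pk y0 y0b).exists_eventuallyEq_pow_smul_nonzero_iff.2 ne
    refine ⟨l - k, fun j hj => ?_⟩
    by_contra hl
    obtain ⟨C, hC⟩ := hj y0 y0b
    obtain ⟨e, he⟩ := Int.eq_ofNat_of_zero_le (a := j + k - l - 1) (by omega)
    have b : ∀ᶠ z in 𝓝[≠] (0 : ℂ), ‖g z‖ ≤ ‖z‖ ^ (e + 1) * C := by
      filter_upwards [hC, self_mem_nhdsWithin, hg.filter_mono nhdsWithin_le_nhds] with z h1 h2 h3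
      have h2' : z ≠ 0 := h2
      rw [ext0_ne _ h2', rel _ j z y0 h2', sub_zero] at h3
      have e2 : g z = z ^ (e + 1) • f j (z, y0) := by
        rw [← inv_smul_smul₀ (pow_ne_zero l h2') (g z), ← h3, smul_smul, ← zpow_natCast,
          ← zpow_neg, ← zpow_add₀ h2', ← zpow_natCast]
        congr 2
        push_cast
        omega
      rw [e2, norm_smul, norm_pow]
      exact mul_le_mul_of_nonneg_left h1 (by positivity)
    have t1 : Tendsto (fun z => ‖g z‖) (𝓝[≠] 0) (𝓝 ‖g 0‖) :=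
      ga.continuousAt.norm.tendsto.mono_left nhdsWithin_le_nhds
    have t2 : Tendsto (fun z : ℂ => ‖z‖ ^ (e + 1) * C) (𝓝[≠] 0) (𝓝 0) := by
      have : Continuous fun z : ℂ => ‖z‖ ^ (e + 1) * C := by fun_prop
      simpa using (this.tendsto 0).mono_left nhdsWithin_le_nhds
    exact g0 (norm_le_zero_iff.1 (le_of_tendsto_of_tendsto t1 t2 b))
  obtain ⟨a0, h0, hmax⟩ := Int.exists_greatest_of_bdd bdd ⟨_, Pk⟩
  refine ⟨a0, ext0 (f a0), Fa a0 h0, fun p hp => ?_, ?_⟩
  · rw [ext0_ne _ (qParam_ne_zero p.1)]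
    simp only [f]
    rw [desc_eq hm per hp, smul_smul, ← zpow_add₀ (qParam_ne_zero p.1), add_neg_cancel, zpow_zero,
      one_smul]
  · by_contra hz
    push Not at hz
    have : P (a0 + 1) := fun y hy => by
      obtain ⟨C, hC⟩ := (sl a0 h0 y hy).differentiableAt.isBigO_sub.bound
      refine ⟨C, ?_⟩
      filter_upwards [self_mem_nhdsWithin, hC.filter_mono nhdsWithin_le_nhds] with z h2 h3
      have h2' : z ≠ 0 := h2
      rw [hz y hy, sub_zero, sub_zero, ext0_ne _ h2'] at h3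
      rw [rel _ a0 z y h2', norm_smul, sub_add_cancel_left, zpow_neg_one, norm_inv,
        inv_mul_le_iff₀ (norm_pos_iff.2 h2'), mul_comm]
      exact h3
    have := hmax _ this
    omega

end

end Pool.Agent.Lib.MP_5c318e_ag.B
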