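import Pool.Agent.Lib.MP_5c318e_ag.B.Loc
import Pool.Agent.Lib.MP_5c318e_ag.RD.RCalc

/-! The statement along a connected boundary divisor. -/

set_option autoImplicit false

namespace Pool.Agent.Lib.MP_5c318e_ag.B

open Complex Matrix Metric Filter Topology Set Function.Periodic Asymptotics
open Pool.Agent.Lib.MP_5c318e_ag.M
open Pool.Agent.Lib.MP_5c318e_ag.R (mv)
open scoped ComplexOrder Nat ContDiff

noncomputable section

variable {E : Type} [NormedAddCommGroup E] [NormedSpace ℂ E] {n : Type} [Fintype n] [DecidableEq n]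

/-- the asymptotic relation, uniformly along the filter `l` of parameters -/
def AsyU {P : Type} (f : ℂ × P → ℝ) (l : Filter P) (β : ℝ) (b : ℕ) (c : ℝ) : Prop :=
  Tendsto (fun p : ℂ × P => f p / (Real.exp (-(β * p.1.im)) * p.1.im ^ b))
    (comap im atTop ×ˢ l) (𝓝 c)

theorem Asy.congr {f g : ℂ → ℝ} {β c a : ℝ} {b : ℕ} (h : Asy f β b c)
    (e : ∀ w : ℂ, a < w.im → g w = f w) : Asy g β b c :=
  h.congr' ((tendsto_comap.eventually (eventually_gt_atTop a)).mono fun w hw => by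
    simp only [e w hw])

theorem Asy.uniq {f : ℂ → ℝ} {β β' c c' : ℝ} {b b' : ℕ} (h : Asy f β b c) (h' : Asy f β' b' c')
    (hc : 0 < c) (hc' : 0 < c') : β = β' ∧ b = b' ∧ c = c' := by
  have t := h.comp tend_mul_I
  have t' := h'.comp tend_mul_I
  have i : ∀ τ : ℝ, ((τ : ℂ) * I).im = τ := fun τ => by simp
  have L : Tendsto (fun τ : ℝ => (β - β') * τ + ((b' : ℝ) - b) * Real.log τ) atTop
      (𝓝 (Real.log c - Real.log c')) := by
    refine ((t.log hc.ne').sub (t'.log hc'.ne')).congr' ?_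
    filter_upwards [t.eventually (lt_mem_nhds hc), eventually_gt_atTop 0] with τ h1 h2
    simp only [Function.comp, i] at h1 ⊢
    have f0 : f (τ * I) ≠ 0 := fun e => by simp [e] at h1
    rw [Real.log_div f0 (by positivity), Real.log_div f0 (by positivity),
      Real.log_mul (by positivity) (by positivity), Real.log_mul (by positivity) (by positivity),
      Real.log_exp, Real.log_exp, Real.log_pow, Real.log_pow]
    ring
  have e1 : β = β' := by
    have a := (Real.isLittleO_log_id_atTop.tendsto_div_nhds_zero.const_mul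
      ((b' : ℝ) - b)).const_add (β - β')
    rw [mul_zero, add_zero] at a
    refine sub_eq_zero.1 (tendsto_nhds_unique (a.congr' ?_) (L.div_atTop tendsto_id))
    filter_upwards [eventually_gt_atTop 0] with τ h2
    simp only [id]
    field_simp
  subst e1
  have e2 : b = b' := by
    have a : ((b' : ℝ) - b) = 0 := by
      refine tendsto_nhds_unique (tendsto_const_nhds.congr' ?_)
        (L.div_atTop Real.tendsto_log_atTop)
      filter_upwards [Real.tendsto_log_atTop.eventually (eventually_gt_atTop 0)] with τ h2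
      rw [sub_self, zero_mul, zero_add, mul_div_cancel_right₀ _ h2.ne']
    exact_mod_cast (sub_eq_zero.1 a).symm
  subst e2
  exact ⟨rfl, rfl, tendsto_nhds_unique t t'⟩

theorem beta_inj {M : ℕ} (hM : 0 < M) {a a' : ℤ}
    (e : (4 * Real.pi * a / M : ℝ) = 4 * Real.pi * a' / M) : a = a' := by
  have m : (M : ℝ) ≠ 0 := by exact_mod_cast hM.ne'
  rw [div_left_inj' m] at e
  exact_mod_cast mul_left_cancel₀ (by positivity [Real.pi_pos]) e

theorem tend_termU {P : Type} [NormedAddCommGroup P] [NormedSpace ℝ P] {m : ℝ} (hm : 0 < m)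
    {g : ℂ × P → ℝ} {y : P} (hg : AnalyticAt ℝ g (0, y)) (i b : ℕ)
    (h0 : b < i → ∀ᶠ y' in 𝓝 y, g (0, y') = 0) :
    Tendsto (fun p : ℂ × P => g (qParam m p.1, p.2) * p.1.im ^ i / p.1.im ^ b)
      (comap im atTop ×ˢ 𝓝 y) (𝓝 (if i = b then g (0, y) else 0)) := by
  have t1 : Tendsto (fun p : ℂ × P => p.1) (comap im atTop ×ˢ 𝓝 y) (comap im atTop) := tendsto_fst
  have t2 : Tendsto (fun p : ℂ × P => p.2) (comap im atTop ×ˢ 𝓝 y) (𝓝 y) := tendsto_snd
  have tq := (((qParam_tendsto hm).mono_right nhdsWithin_le_nhds).comp t1).prodMk_nhds t2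
  have tg := hg.continuousAt.tendsto.comp tq
  have ti := (tendsto_comap (f := im)).comp t1
  have p := ti.eventually (eventually_gt_atTop 0)
  rcases lt_trichotomy i b with h | rfl | h
  · rw [if_neg h.ne]
    obtain ⟨e, rfl⟩ := Nat.exists_eq_add_of_lt h
    refine (tg.div_atTop ((tendsto_pow_atTop e.succ_ne_zero).comp ti)).congr'
      (p.mono fun w hw => ?_)
    simp only [Function.comp, Nat.succ_eq_add_one] at hw ⊢
    field_simp
    ring
  · rw [if_pos rfl]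
    exact tg.congr' (p.mono fun w hw => by
      simp only [Function.comp] at hw ⊢
      rw [mul_div_assoc, div_self (pow_pos hw i).ne', mul_one])
  · rw [if_neg h.ne']
    obtain ⟨e, rfl⟩ := Nat.exists_eq_add_of_lt h
    have o := (hg.hasStrictFDerivAt.isBigO_sub.comp_tendsto (tq.prodMk_nhds
      ((tendsto_const_nhds (x := (0 : ℂ))).prodMk_nhds t2))).norm_right.mul
      (isBigO_refl (fun p : ℂ × P => p.1.im ^ (e + 1)) (comap im atTop ×ˢ 𝓝 y))
    have t := o.trans_tendsto (((tend_pow_q hm (e + 1)).comp t1).congr fun w => by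
      simp [Function.comp, mul_comm])
    refine t.congr' ?_
    filter_upwards [p, t2.eventually (h0 h)] with w hw hz
    simp only [Function.comp, hz, sub_zero] at hw ⊢
    field_simp
    ring

namespace Orb

variable {a R K : ℝ} {y0 : E} {h Y : ℂ × E → Matrix n n ℂ} {Q T : Matrix n n ℂ}
  {om F : ℂ × E → n → ℂ} {r M : ℕ} {a0 : ℤ}

theorem asyU (O : Orb a y0 R K h Y Q T om r M a0 F) {b : ℕ} (hb : b < r)
    (h0 : ∀ j, b < j → ∀ y ∈ ball y0 R, hn (Rj Q (mlog r M T) j) (F (0, y)) = 0) {y : E}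
    (hy : y ∈ ball y0 R) : AsyU (fun p => hn (h p) (om p)) (𝓝 y) (4 * Real.pi * a0 / M) b
      (hn (Rj Q (mlog r M T) b) (F (0, y))) := by
  have t := tendsto_finsetSum (Finset.range r) fun j _ => tend_termU O.m0
    (an_hn (O.an0 hy).restrictScalars (Rj Q (mlog r M T) j)) j b
    fun hj => mem_of_superset (isOpen_ball.mem_nhds hy) (h0 j hj)
  rw [Finset.sum_ite_eq', if_pos (Finset.mem_range.2 hb)] at t
  refine t.congr' ?_
  filter_upwards [prod_mem_prod (tendsto_comap.eventually (eventually_gt_atTop a))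
    (isOpen_ball.mem_nhds hy)] with p hp
  rw [O.N_eq hp, mul_div_mul_left _ _ (Real.exp_pos _).ne', Finset.sum_div]
  exact Finset.sum_congr rfl fun j _ => by ring

theorem scal_N (O : Orb a y0 R K h Y Q T om r M a0 F) (s : Scal (strip a y0 R) T om) {y : E}
    (hy : y ∈ ball y0 R) : mlog r M T *ᵥ F (0, y) = 0 := by
  obtain ⟨l, hl⟩ := s
  have pw : ∀ (A : Matrix n n ℂ) (c : ℂ) (v : n → ℂ), A *ᵥ v = c • v → ∀ k : ℕ,
      A ^ k *ᵥ v = c ^ k • v := fun A c v e k => by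
    induction k with
    | zero => simp
    | succ k ih => rw [pow_succ, ← mulVec_mulVec, e, mulVec_smul, ih, smul_smul, pow_succ']
  have z : ∀ p ∈ strip a y0 R, mlog r M T *ᵥ om p = 0 := fun p hp => by
    have e1 : (T ^ M - 1) *ᵥ om p = (l ^ M - 1) • om p := by
      rw [sub_mulVec, pw T l _ (hl p hp), one_mulVec, sub_smul, one_smul]
    have e2 := pw _ _ _ e1 r
    rw [O.unip, zero_mulVec] at e2
    rw [eq_zero_of_pow_eq_zero ((smul_eq_zero.1 e2.symm).resolve_right (O.ne p hp))] at e1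
    rw [mlog, smul_mulVec, nlog, sum_mulVec, Finset.sum_eq_zero, smul_zero]
    intro i _
    rw [smul_mulVec, pw _ _ _ e1]
    cases i <;> simp
  have t1 := ((mv (mlog r M T)).continuous.tendsto _).comp
    ((O.an1 hy).continuousAt.tendsto.comp O.tq)
  refine tendsto_nhds_unique t1 (tendsto_const_nhds.congr' ?_)
  filter_upwards [eventually_gt_atTop a] with τ hτ
  have hp : ((τ : ℂ) * I, y) ∈ strip a y0 R := ⟨by simpa using hτ, hy⟩
  have e := z _ hp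
  rw [O.eq _ hp, mulVec_smul, smul_eq_zero, mulVec_mulVec,
    (commute_nexp (Commute.refl (mlog r M T)) r _).eq, ← mulVec_mulVec] at e
  have e2 := congrArg (fun v => nexp r (mlog r M T) (-(τ * I)) *ᵥ v)
    (e.resolve_left (zpow_ne_zero a0 (qParam_ne_zero _)))
  simp only [mulVec_mulVec, ← mul_assoc, nexp_neg_mul O.nil, one_mul, mulVec_zero] at e2
  exact e2.symm

end Orb

/-- `horn_local` with the uniform asymptotic relation and the case of scalar monodromy -/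
theorem horn_loc (n : Type) [Fintype n] [DecidableEq n] : ∃ M : ℕ, 0 < M ∧ ∀ K : ℝ, ∃ C : ℝ, 1 ≤ C ∧
    ∀ (E : Type) [NormedAddCommGroup E] [NormedSpace ℂ E] [FiniteDimensional ℂ E]
      (a : ℝ) (y0 : E) (R : ℝ) (h Y : ℂ × E → Matrix n n ℂ) (Q T : Matrix n n ℂ) (om : ℂ × E → n → ℂ),
      HornM a y0 R K h Y Q T om → ∃ (a0 : ℤ) (b : ℕ) (c : E → ℝ),
      (∀ y ∈ ball y0 R, 0 < c y ∧ ContDiffAt ℝ ∞ c y ∧
        Asy (fun w => hn (h (w, y)) (om (w, y))) (4 * Real.pi * a0 / M) b (c y) ∧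
        AsyU (fun p => hn (h p) (om p)) (𝓝 y) (4 * Real.pi * a0 / M) b (c y)) ∧
      (Scal (strip a y0 R) T om → b = 0) ∧
      (∀ ν : ℕ, RankLe (strip a y0 R) om ν → ¬ Scal (strip a y0 R) T om → ∀ y ∈ ball y0 R,
        ∀ L : Submodule ℂ E, ν ≤ Module.finrank ℂ L →
          ∃ ξ ∈ L, ξ ≠ 0 ∧ V.lev (fun y => Real.log (c y)) y ξ = 0) ∧
      ∀ s : ℕ, ∃ W : E → ℂ, DifferentiableOn ℂ W (ball y0 R) ∧ c y0 ^ (M * s) ≤ ‖W y0‖ ^ 2 ∧
        ∀ y ∈ ball y0 (R / 2), ∀ (G : ℂ → ℂ) (r : ℂ) (B : ℝ),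
          DifferentiableOn ℂ G (ball 0 (Real.exp (-(2 * Real.pi * a))) \ {0}) →
          Tendsto (fun z => G z * z ^ (a0 * s + 1)) (𝓝[≠] 0) (𝓝 r) →
          (∀ w : ℂ, w.im = a + 1 → ‖G (ex w) * ex w‖ ^ 2 * hn (h (w, y)) (om (w, y)) ^ (M * s) ≤ B) →
          ‖r * W y‖ ^ 2 ≤ C ^ s * B := by
  obtain ⟨M, hM, kr⟩ := kron_unif n
  refine ⟨M, hM, fun K => ⟨cA (Fintype.card n) M K, one_le_cA _ _ _, ?_⟩⟩
  intro E _ _ _ a y0 R h Y Q T om H
  have u := (kr T (isInt_iff.2 H.int) H.det_ne H.eig_le).1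
  obtain ⟨a0, F, h1, h2, y1, hy1, h3⟩ := H.exists_orb hM u
  have O : Orb a y0 R K h Y Q T om (Fintype.card n) M a0 F := ⟨H, hM, u, h1, h2⟩
  obtain ⟨b, hb, ⟨y2, hy2, c2⟩, h0⟩ := O.exists_b hy1 h3
  have : (comap im atTop : Filter ℂ).NeBot := comap_neBot fun s hs => by
    obtain ⟨x, hx⟩ := Filter.nonempty_of_mem hs
    exact ⟨x * I, by simpa using hx⟩
  have ne := fun y hy => O.c_ne hb h0 hy2 (y2 := y) hy c2
  have ps : ∀ y ∈ ball y0 R, 0 < hn (Rj Q (mlog (Fintype.card n) M T) b) (F (0, y)) := fun y hy => by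
    refine lt_of_le_of_ne (ge_of_tendsto (O.asy hb hy fun j hj => h0 j hj y hy) ?_) (ne y hy).symm
    filter_upwards [tendsto_comap.eventually (eventually_gt_atTop a),
      tendsto_comap.eventually (eventually_gt_atTop 0)] with w t1 t2
    exact div_nonneg (hn_nonneg (H.gm.pos (w, y) ⟨t1, hy⟩) _) (by positivity)
  refine ⟨a0, b, fun y => hn (Rj Q (mlog (Fintype.card n) M T) b) (F (0, y)), fun y hy =>
    ⟨ps y hy, (an_hn (O.an2 hy).restrictScalars _).contDiffAt,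
      O.asy hb hy fun j hj => h0 j hj y hy, O.asyU hb h0 hy⟩, fun s => ?_,
    fun ν rk bad y hy L hL => O.deg h0 rk bad hy (ne y hy) L hL,
    O.res_le hb (fun j hj => h0 j hj y0 (mem_ball_self H.pos)) (ps y0 (mem_ball_self H.pos))⟩
  cases b with
  | zero => rfl
  | succ j =>
    refine absurd ?_ c2
    rw [hn, hq_Rj, pow_succ (mlog _ M T) j, ← mulVec_mulVec, O.scal_N s hy2]
    simp [hq]

/-- along a connected divisor, good or bad -/
theorem horn_glob (n : Type) [Fintype n] [DecidableEq n] : ∃ M : ℕ, 0 < M ∧ ∀ K : ℝ, ∃ C : ℝ, 1 ≤ C ∧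
    ∀ (ι : Type) [Fintype ι] (S : Type) [TopologicalSpace S] [MeasurableSpace S] [PreconnectedSpace S]
      (D : RD ι S) (a R : S → ℝ) (σ : S → (ι → ℂ) → S) (N : ℂ → S → ℝ),
      (∀ x, σ x (D.π x) = x ∧ ContinuousOn (σ x) (ball (D.π x) (R x)) ∧
        ∀ y ∈ ball (D.π x) (R x), D.π (σ x y) = y) →
      (∀ x, ∃ (h Y : ℂ × (ι → ℂ) → Matrix n n ℂ) (Q T : Matrix n n ℂ) (om : ℂ × (ι → ℂ) → n → ℂ),
        HornM (a x) (D.π x) (R x) K h Y Q T om ∧
        ∀ p ∈ strip (a x) (D.π x) (R x), N p.1 (σ x p.2) = hn (h p) (om p)) →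
      ∃ (a0 : ℤ) (b : ℕ) (c : S → ℝ), (∀ x, 0 < c x) ∧ D.Sm c ∧
        (∀ x, Asy (fun w => N w x) (4 * Real.pi * a0 / M) b (c x)) ∧
        (∀ x, AsyU (fun p => N p.1 p.2) (𝓝 x) (4 * Real.pi * a0 / M) b (c x)) ∧
        (∀ (x : S) (h Y : ℂ × (ι → ℂ) → Matrix n n ℂ) (Q T : Matrix n n ℂ)
          (om : ℂ × (ι → ℂ) → n → ℂ), HornM (a x) (D.π x) (R x) K h Y Q T om →
          (∀ p ∈ strip (a x) (D.π x) (R x), N p.1 (σ x p.2) = hn (h p) (om p)) →
          (Scal (strip (a x) (D.π x) (R x)) T om → b = 0) ∧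
          ∀ ν : ℕ, RankLe (strip (a x) (D.π x) (R x)) om ν →
            ¬ Scal (strip (a x) (D.π x) (R x)) T om →
            ∀ L : Submodule ℂ (ι → ℂ), ν ≤ Module.finrank ℂ L →
              ∃ ξ ∈ L, ξ ≠ 0 ∧ D.levi (fun x => Real.log (c x)) x ξ = 0) ∧
        ∀ (s : ℕ) (x : S), ∃ W : (ι → ℂ) → ℂ, DifferentiableOn ℂ W (ball (D.π x) (R x)) ∧
          c x ^ (M * s) ≤ ‖W (D.π x)‖ ^ 2 ∧
          ∀ y ∈ ball (D.π x) (R x / 2), ∀ (G : ℂ → ℂ) (r : ℂ) (B : ℝ),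
            DifferentiableOn ℂ G (ball 0 (Real.exp (-(2 * Real.pi * a x))) \ {0}) →
            Tendsto (fun z => G z * z ^ (a0 * s + 1)) (𝓝[≠] 0) (𝓝 r) →
            (∀ w : ℂ, w.im = a x + 1 → ‖G (ex w) * ex w‖ ^ 2 * N w (σ x y) ^ (M * s) ≤ B) →
            ‖r * W y‖ ^ 2 ≤ C ^ s * B := by
  obtain ⟨M, hM, H⟩ := horn_loc n
  refine ⟨M, hM, fun K => ?_⟩
  obtain ⟨C, hC, H⟩ := H K
  refine ⟨C, hC, ?_⟩
  intro ι _ S _ _ _ D a R σ N hσ hm
  choose h Y Q T om hH hN using hm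
  choose A b c k1 k2 k3 k4 using fun x => H _ _ _ _ _ _ _ _ _ (hH x)
  have b0 : ∀ x, D.π x ∈ ball (D.π x) (R x) := fun x => mem_ball_self (hH x).pos
  have bn : ∀ x, ball (D.π x) (R x) ∈ 𝓝 (D.π x) := fun x => isOpen_ball.mem_nhds (b0 x)
  have as : ∀ x, ∀ y ∈ ball (D.π x) (R x),
      Asy (fun w => N w (σ x y)) (4 * Real.pi * A x / M) (b x) (c x y) := fun x y hy =>
    (k1 x y hy).2.2.1.congr fun w hw => hN x (w, y) ⟨hw, hy⟩
  have as0 : ∀ x, Asy (fun w => N w x) (4 * Real.pi * A x / M) (b x) (c x (D.π x)) := fun x => by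
    simpa only [(hσ x).1] using as x _ (b0 x)
  have ov : ∀ x, ∀ y ∈ ball (D.π x) (R x), A (σ x y) = A x ∧ b (σ x y) = b x ∧
      c (σ x y) (D.π (σ x y)) = c x y := fun x y hy => by
    obtain ⟨e1, e2, e3⟩ := (as0 (σ x y)).uniq (as x y hy) (k1 _ _ (b0 _)).1 (k1 x y hy).1
    exact ⟨beta_inj hM e1, e2, e3⟩
  have sg : ∀ x, σ x =ᶠ[𝓝 (D.π x)] D.sec x := fun x =>
    D.sec_unique (hσ x).1 ((hσ x).2.1.continuousAt (bn x)) (mem_of_superset (bn x) (hσ x).2.2)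
  have nb : ∀ x, ∀ᶠ x' in 𝓝 x, D.π x' ∈ ball (D.π x) (R x) ∧ σ x (D.π x') = x' := fun x => by
    filter_upwards [(D.cont_π.tendsto x).eventually (bn x), (D.cont_π.tendsto x).eventually (sg x),
      (D.ch x).open_source.mem_nhds (D.mem_src x)] with x' h1 h2 h3
    exact ⟨h1, h2.trans (RD.sec_π h3)⟩
  have lc : IsLocallyConstant fun x => (A x, b x) :=
    (IsLocallyConstant.iff_eventually_eq _).2 fun x => (nb x).mono fun x' hx => by
      have := ov x _ hx.1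
      rw [hx.2] at this
      exact Prod.ext this.1 this.2.1
  obtain ⟨⟨a0, b1⟩, e⟩ := lc.exists_eq_const
  have eA : ∀ x, A x = a0 := fun x => congrArg Prod.fst (congrFun e x)
  have eb : ∀ x, b x = b1 := fun x => congrArg Prod.snd (congrFun e x)
  have cs : ∀ x, (fun z => c (D.sec x z) (D.π (D.sec x z))) =ᶠ[𝓝 (D.π x)] c x := fun x => by
    filter_upwards [bn x, sg x] with y h1 h2
    rw [← h2, (ov x y h1).2.2]
  refine ⟨a0, b1, fun x => c x (D.π x), fun x => (k1 x _ (b0 x)).1,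
    fun x => (k1 x _ (b0 x)).2.1.congr_of_eventuallyEq (cs x), fun x => eA x ▸ eb x ▸ as0 x,
    fun x => ?_, fun x h' Y' Q' T' om' H' N' => ?_, fun s x => ?_⟩
  · have t := (k1 x _ (b0 x)).2.2.2
    rw [eA x, eb x] at t
    refine (t.comp (tendsto_id.prodMap (D.cont_π.tendsto x))).congr' ?_
    filter_upwards [prod_mem_prod (tendsto_comap.eventually (eventually_gt_atTop (a x))) (nb x)]
      with p hp
    have := hN x (p.1, D.π p.2) ⟨hp.1, hp.2.1⟩
    rw [hp.2.2] at this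
    simp only [Function.comp, Prod.map, id, this]
  · obtain ⟨A', b', c', j1, j2, j3, -⟩ := H _ _ _ _ _ _ _ _ _ H'
    have u : ∀ y ∈ ball (D.π x) (R x), b x = b' ∧ c x y = c' y := fun y hy =>
      ((as x y hy).uniq ((j1 y hy).2.2.1.congr fun w hw => N' (w, y) ⟨hw, hy⟩) (k1 x y hy).1
        (j1 y hy).1).2
    refine ⟨fun s => (eb x).symm.trans ((u _ (b0 x)).1.trans (j2 s)), fun ν rk bad L hL => ?_⟩
    obtain ⟨ξ, m1, m2, m3⟩ := j3 ν rk bad _ (b0 x) L hL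
    refine ⟨ξ, m1, m2, Eq.trans ?_ m3⟩
    refine V.lev_congr ?_
    filter_upwards [cs x, bn x] with y h1 h2
    rw [h1, (u y h2).2]
  · obtain ⟨W, w1, w2, w3⟩ := k4 x s
    refine ⟨W, w1, w2, fun y hy G r B g1 g2 g3 => w3 y hy G r B g1 (eA x ▸ g2) fun w hw => ?_⟩
    rw [← hN x (w, y) ⟨by simp only [hw]; linarith,
      ball_subset_ball (by linarith [(hH x).pos]) hy⟩]
    exact g3 w hw

/-- GLOBAL on a connected `S`: the input of the upper count. -/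
theorem horn_input (n : Type) [Fintype n] [DecidableEq n] : ∃ M : ℕ, 0 < M ∧ ∀ K : ℝ, ∃ C : ℝ, 1 ≤ C ∧
    ∀ (ι : Type) [Fintype ι] (S : Type) [TopologicalSpace S] [MeasurableSpace S] [PreconnectedSpace S]
      (D : RD ι S) (a R : S → ℝ) (σ : S → (ι → ℂ) → S) (N : ℂ → S → ℝ) (ν : ℕ),
      (∀ x, σ x (D.π x) = x ∧ ContinuousOn (σ x) (ball (D.π x) (R x)) ∧
        ∀ y ∈ ball (D.π x) (R x), D.π (σ x y) = y) →
      (∀ x, ∃ (h Y : ℂ × (ι → ℂ) → Matrix n n ℂ) (Q T : Matrix n n ℂ) (om : ℂ × (ι → ℂ) → n → ℂ),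
        HornM (a x) (D.π x) (R x) K h Y Q T om ∧ RankLe (strip (a x) (D.π x) (R x)) om ν ∧
        ¬ Scal (strip (a x) (D.π x) (R x)) T om ∧
        ∀ p ∈ strip (a x) (D.π x) (R x), N p.1 (σ x p.2) = hn (h p) (om p)) →
      ∃ (a0 : ℤ) (b : ℕ) (c : S → ℝ), (∀ x, 0 < c x) ∧ D.Sm c ∧
        (∀ x, Asy (fun w => N w x) (4 * Real.pi * a0 / M) b (c x)) ∧
        (∀ x, ∀ L : Submodule ℂ (ι → ℂ), ν ≤ Module.finrank ℂ L →
          ∃ ξ ∈ L, ξ ≠ 0 ∧ 0 ≤ D.levi (fun x => Real.log (c x)) x ξ) ∧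
        ∀ (s : ℕ) (x : S), ∃ W : (ι → ℂ) → ℂ, DifferentiableOn ℂ W (ball (D.π x) (R x)) ∧
          c x ^ (M * s) ≤ ‖W (D.π x)‖ ^ 2 ∧
          ∀ y ∈ ball (D.π x) (R x / 2), ∀ (G : ℂ → ℂ) (r : ℂ) (B : ℝ),
            DifferentiableOn ℂ G (ball 0 (Real.exp (-(2 * Real.pi * a x))) \ {0}) →
            Tendsto (fun z => G z * z ^ (a0 * s + 1)) (𝓝[≠] 0) (𝓝 r) →
            (∀ w : ℂ, w.im = a x + 1 → ‖G (ex w) * ex w‖ ^ 2 * N w (σ x y) ^ (M * s) ≤ B) →
            ‖r * W y‖ ^ 2 ≤ C ^ s * B := by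
  obtain ⟨M, hM, H⟩ := horn_glob n
  refine ⟨M, hM, fun K => ?_⟩
  obtain ⟨C, hC, H⟩ := H K
  refine ⟨C, hC, ?_⟩
  intro ι _ S _ _ _ D a R σ N ν hσ hm
  obtain ⟨a0, b, c, k1, k2, k3, -, k5, k6⟩ := H ι S D a R σ N hσ fun x => by
    obtain ⟨h, Y, Q, T, om, j1, -, -, j4⟩ := hm x
    exact ⟨h, Y, Q, T, om, j1, j4⟩
  refine ⟨a0, b, c, k1, k2, k3, fun x L hL => ?_, k6⟩
  obtain ⟨h, Y, Q, T, om, j1, j2, j3, j4⟩ := hm x
  obtain ⟨ξ, m1, m2, m3⟩ := (k5 x h Y Q T om j1 j4).2 ν j2 j3 L hL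
  exact ⟨ξ, m1, m2, m3.ge⟩

end

end Pool.Agent.Lib.MP_5c318e_ag.B
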