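import Pool.Agent.Lib.MP_5c318e_ag.V.Fun
import Pool.Agent.Lib.MP_5c318e_ag.V.Lev

/-! The local model of a polarised variation near a boundary divisor. -/

set_option autoImplicit false

namespace Pool.Agent.Lib.MP_5c318e_ag.B

open Complex Matrix Metric Filter Topology

noncomputable section

variable {E : Type} [NormedAddCommGroup E] [NormedSpace ℂ E] {n : Type} [Fintype n] [DecidableEq n]

/-- the sesquilinear form of a matrix -/
def hq (Q : Matrix n n ℂ) (u v : n → ℂ) : ℂ := star v ⬝ᵥ Q *ᵥ u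

/-- the squared norm of a vector -/
def hn (h : Matrix n n ℂ) (v : n → ℂ) : ℝ := (hq h v v).re

/-- the universal cover of (punctured disc) × (ball) -/
def strip (a : ℝ) (y0 : E) (R : ℝ) : Set (ℂ × E) := {p | a < p.1.im ∧ p.2 ∈ ball y0 R}

/-- `z = exp (2 π i w)` -/
def ex (w : ℂ) : ℂ := exp (2 * Real.pi * I * w)

/-- flat frame on the cover: metric `h`, grading `Y`, form `Q`, monodromy `T`, section `om` -/
structure HornM (a : ℝ) (y0 : E) (R K : ℝ) (h Y : ℂ × E → Matrix n n ℂ) (Q T : Matrix n n ℂ)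
    (om : ℂ × E → n → ℂ) : Prop where
  pos : 0 < R
  gm : V.GM (strip a y0 R) h Y K
  per : ∀ p ∈ strip a y0 R, Tᴴ * h (p.1 + 1, p.2) * T = h p
  int : ∃ T0 : Matrix n n ℤ, T = T0.map (Int.cast : ℤ → ℂ)
  herm : Q.IsHermitian
  uni : Tᴴ * Q * T = Q
  le : ∀ p ∈ strip a y0 R, ∀ u v, ‖hq Q u v‖ ^ 2 ≤ hn (h p) u * hn (h p) v
  hol : DifferentiableOn ℂ om (strip a y0 R)
  omT : ∀ p ∈ strip a y0 R, om (p.1 + 1, p.2) = T *ᵥ om p
  ne : ∀ p ∈ strip a y0 R, om p ≠ 0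
  top : ∀ p ∈ strip a y0 R, hq Q (om p) (om p) = hq (h p) (om p) (om p)
  psh : ∀ p ∈ strip a y0 R, ∀ ξ, V.lev (fun q => Real.log (hn (h q) (om q))) p ξ ≤ 0
  mod : ∃ A : ℝ, ∀ y ∈ ball y0 R, ∃ C : ℝ, ∀ w : ℂ, a + 1 ≤ w.im →
    hn (h (w, y)) (om (w, y)) ≤ C * Real.exp (A * w.im)

/-- the map `[om]` to projective space has rank at most `ν` on `U` -/
def RankLe {P : Type} [NormedAddCommGroup P] [NormedSpace ℂ P] (U : Set P) (om : P → n → ℂ)
    (ν : ℕ) : Prop :=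
  ∀ p ∈ U, Module.finrank ℂ
    ((Submodule.span ℂ {om p} ⊔ LinearMap.range (fderiv ℂ om p).toLinearMap :
      Submodule ℂ (n → ℂ))) ≤ ν + 1

/-- the monodromy is a scalar on the lines `om` -/
def Scal {P : Type} (U : Set P) (T : Matrix n n ℂ) (om : P → n → ℂ) : Prop :=
  ∃ l : ℂ, ∀ p ∈ U, T *ᵥ om p = l • om p

/-- `f w ∼ c exp (-β im w) (im w) ^ b` as `im w → ∞` -/
def Asy (f : ℂ → ℝ) (β : ℝ) (b : ℕ) (c : ℝ) : Prop :=
  Tendsto (fun w : ℂ => f w / (Real.exp (-(β * w.im)) * w.im ^ b)) (comap im atTop) (𝓝 c)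

end

end Pool.Agent.Lib.MP_5c318e_ag.B
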