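import Pool.Agent.Lib.MP_5c318e_ag.B.Pol
import Pool.Agent.Lib.MP_5c318e_ag.R.Drop

/-! The local statement at a boundary divisor. -/

set_option autoImplicit false

namespace Pool.Agent.Lib.MP_5c318e_ag.B

open Complex Matrix Metric Filter Topology Set Function.Periodic
open Pool.Agent.Lib.MP_5c318e_ag.M
open Pool.Agent.Lib.MP_5c318e_ag.R (mv mv_apply rank_drop' hrk_of_cover)
open scoped ComplexOrder Nat ComplexConjugate ContDiff

noncomputable section

variable {E : Type} [NormedAddCommGroup E] [NormedSpace ℂ E] {n : Type} [Fintype n] [DecidableEq n]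

section alg

variable {Q N : Matrix n n ℂ} {r : ℕ}

theorem nexp_fix (nil : N ^ r = 0) {v : n → ℂ} (hv : N *ᵥ v = 0) (w : ℂ) : nexp r N w *ᵥ v = v := by
  rw [← nexp_of_le nil (Nat.le_succ r), nexp_mulVec, Finset.sum_range_succ']
  simp [pow_succ, ← mulVec_mulVec, hv]

theorem der_mv_nexp (nil : N ^ r = 0) (w : ℂ) :
    HasDerivAt (fun w => mv (nexp r N w)) ((mv (nexp r N w)).comp (mv N)) w := by
  let L : (n → n → ℂ) →ₗ[ℂ] ((n → ℂ) →L[ℂ] (n → ℂ)) :=
    { toFun := fun A => mv (Matrix.of A)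
      map_add' := fun A B => ContinuousLinearMap.ext fun v => add_mulVec (Matrix.of A) (Matrix.of B) v
      map_smul' := fun c A => ContinuousLinearMap.ext fun v => smul_mulVec c (Matrix.of A) v }
  have d : HasDerivAt (fun w => (fun i j => nexp r N w i j : n → n → ℂ))
      (fun i j => (N * nexp r N w) i j) w :=
    hasDerivAt_pi.2 fun i => hasDerivAt_pi.2 fun j => hasDerivAt_nexp nil w i j
  have e : (mv (nexp r N w)).comp (mv N) = mv (N * nexp r N w) :=
    ContinuousLinearMap.ext fun v => by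
      rw [(commute_nexp (Commute.refl N) r w).eq]
      exact mulVec_mulVec v _ _
  rw [e]
  exact (LinearMap.toContinuousLinearMap L).hasFDerivAt.comp_hasDerivAt w d

theorem hq_Rj (Q N : Matrix n n ℂ) (j : ℕ) (u v : n → ℂ) :
    hq (Rj Q N j) u v = (2 * I) ^ j / (j ! : ℂ) * hq Q (N ^ j *ᵥ u) v := by
  simp only [hq, Rj, smul_mulVec, dotProduct_smul, smul_eq_mul, mulVec_mulVec]

theorem top_inv (H : Q.IsHermitian) (nil : N ^ r = 0) (hQ : Nᴴ * Q = -(Q * N)) {b : ℕ}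
    {u : n → ℂ} (h0 : ∀ j, b < j → hn (Rj Q N j) u = 0) (w : ℂ) :
    hn (Rj Q N b) (nexp r N w *ᵥ u) = hn (Rj Q N b) u := by
  have z : ∀ j, b < j → hq Q (N ^ j *ᵥ u) u = 0 := fun j hj => by
    have := hq_herm (Rj_herm H hQ j) u
    rw [h0 j hj, hq_Rj, ofReal_zero] at this
    exact (mul_eq_zero.1 this).resolve_left (div_ne_zero (pow_ne_zero _ (by simp))
      (by exact_mod_cast j.factorial_ne_zero))
  rw [hn, hn, hq_Rj, hq_Rj, mulVec_mulVec, (commute_nexp ((Commute.refl N).pow_left b) r w).eq,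
    ← mulVec_mulVec, hq_mulVec, nexp_form nil hQ, ← nexp_of_le nil (Nat.le_succ r)]
  congr 2
  have e : ∀ A : Matrix n n ℂ, hq (Q * A) (N ^ b *ᵥ u) u = hq Q (A *ᵥ (N ^ b *ᵥ u)) u := fun A => by
    simp only [hq, mulVec_mulVec, mul_assoc]
  rw [e, nexp_mulVec, Finset.sum_range_succ', hq_add_left]
  have s : hq Q (∑ k ∈ Finset.range r, ((w - conj w) ^ (k + 1) / ((k + 1)! : ℂ)) •
      N ^ (k + 1) *ᵥ N ^ b *ᵥ u) u = 0 := by
    refine Finset.sum_induction _ (fun x => hq Q x u = 0) (fun x y hx hy => ?_) (by simp [hq])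
      fun k _ => ?_
    · rw [hq_add_left, hx, hy, add_zero]
    · rw [hq_smul_left, mulVec_mulVec, ← pow_add, z _ (by omega), mul_zero]
  rw [s]
  simp

theorem top_le {h : Matrix n n ℂ} {c : ℝ} (P : h.PosDef) (hc : 0 ≤ c) (bN : Bd h N c)
    (le : ∀ u v, ‖hq Q u v‖ ^ 2 ≤ hn h u * hn h v) {b : ℕ} (hb : b < r) (u : n → ℂ) :
    hn (Rj Q N b) u ≤ (1 + 2 * c) ^ r * hn h u := by
  have a := hn_nonneg P u
  have b1 : ‖hq Q (N ^ b *ᵥ u) u‖ ≤ c ^ b * hn h u := by
    refine abs_le_of_sq_le_sq' ((le _ _).trans ?_) (by positivity) |>.2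
    have := mul_le_mul_of_nonneg_right ((bN.pow hc b).sq P u) a
    nlinarith
  have b2 : ‖(2 * I) ^ b / (b ! : ℂ)‖ ≤ 2 ^ b := by
    rw [norm_div, norm_pow, norm_natCast]
    simpa using div_le_self (a := (2 : ℝ) ^ b) (by positivity) (by exact_mod_cast b.factorial_pos)
  refine (re_le_norm _).trans ?_
  rw [hq_Rj, norm_mul]
  refine (mul_le_mul b2 b1 (norm_nonneg _) (by positivity)).trans ?_
  rw [← mul_assoc, ← mul_pow]
  exact mul_le_mul_of_nonneg_right ((pow_le_pow_left₀ (by positivity) (by linarith) b).trans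
    (pow_le_pow_right₀ (by linarith) hb.le)) a

omit [DecidableEq n] in
theorem diff_hq (h : Matrix n n ℂ) (v : n → ℂ) : Differentiable ℂ fun u => hq h u v := by
  unfold hq dotProduct mulVec dotProduct
  fun_prop

end alg

theorem q_pow {M : ℕ} (hM : 0 < M) (w : ℂ) : qParam M w ^ M = ex w := by
  have : (M : ℂ) ≠ 0 := by exact_mod_cast hM.ne'
  rw [qParam, ex, ← exp_nat_mul]
  congr 1
  push_cast
  field_simp

theorem rad_pow {M : ℕ} (hM : 0 < M) (a : ℝ) : rad a M ^ M = Real.exp (-(2 * Real.pi * a)) := by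
  have : (M : ℝ) ≠ 0 := by exact_mod_cast hM.ne'
  rw [rad, ← Real.exp_nat_mul]
  congr 1
  field_simp

/-- the constant of the bound for the residue -/
def cA (r M : ℕ) (K : ℝ) : ℝ := ((1 + 2 * cN r M (Real.exp (lc K))) ^ r *
  (Real.exp (M * cN r M (Real.exp (lc K))) ^ 2 * Real.exp (lc K * (2 + M)))) ^ M

theorem one_le_cA (r M : ℕ) (K : ℝ) : 1 ≤ cA r M K := by
  have c0 := cN_nonneg r M (Real.exp_pos (lc K)).le
  have l := lc_nonneg K
  exact one_le_pow₀ (one_le_mul_of_one_le_of_one_le (one_le_pow₀ (by linarith))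
    (one_le_mul_of_one_le_of_one_le (one_le_pow₀ (Real.one_le_exp (by positivity)))
      (Real.one_le_exp (by positivity))))

namespace Orb

variable {a R K : ℝ} {y0 : E} {h Y : ℂ × E → Matrix n n ℂ} {Q T : Matrix n n ℂ}
  {om F : ℂ × E → n → ℂ} {r M : ℕ} {a0 : ℤ}

theorem sig_F (O : Orb a y0 R K h Y Q T om r M a0 F) {y : E} (hy : y ∈ ball y0 R) :
    (msig r M T - qParam M 1 ^ a0 • (1 : Matrix n n ℂ)) *ᵥ F (0, y) = 0 := by
  have c := (O.an1 hy).continuousAt.tendsto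
  have t1 := ((mv (msig r M T)).continuous.tendsto _).comp (c.comp O.tq)
  have tq2 : Tendsto (fun τ : ℝ => qParam M (τ * I) * qParam M 1) atTop (𝓝 0) := by
    simpa using O.tq.mul_const (qParam M 1)
  have t2 := (c.comp tq2).const_smul (qParam M 1 ^ a0)
  rw [sub_mulVec, smul_mulVec, one_mulVec, sub_eq_zero]
  refine tendsto_nhds_unique (t1.congr' ?_) t2
  filter_upwards [eventually_gt_atTop a] with τ hτ
  have hp : ((τ : ℂ) * I, y) ∈ strip a y0 R := ⟨by simpa using hτ, hy⟩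
  have e := O.omT _ hp
  rw [O.eq _ hp, O.eq (τ * I + 1, y) ⟨by simpa using hτ, hy⟩] at e
  simp only [qParam_add, mul_zpow, mul_smul, mulVec_smul] at e
  have e2 := congrArg (fun v => nexp r (mlog r M T) (-(τ * I + 1)) *ᵥ v)
    (smul_right_injective _ (zpow_ne_zero a0 (qParam_ne_zero _)) e)
  simp only [mulVec_smul, mulVec_mulVec, nexp_neg_mul O.nil, one_mulVec] at e2
  simp only [Function.comp, mv_apply]
  rw [e2, ← mul_assoc, ← (commute_nexp (commute_mlog (Commute.refl T) r M) r _).eq, mul_assoc,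
    ← nexp_add O.nil, msig]
  congr 3
  ring

theorem deg [FiniteDimensional ℂ E] (O : Orb a y0 R K h Y Q T om r M a0 F) {b : ℕ}
    (h0 : ∀ j, b < j → ∀ y ∈ ball y0 R, hn (Rj Q (mlog r M T) j) (F (0, y)) = 0) {ν : ℕ}
    (rk : RankLe (strip a y0 R) om ν) (bad : ¬ Scal (strip a y0 R) T om) {y : E}
    (hy : y ∈ ball y0 R) (hc : hn (Rj Q (mlog r M T) b) (F (0, y)) ≠ 0) (L : Submodule ℂ E)
    (hL : ν ≤ Module.finrank ℂ L) : ∃ ξ ∈ L, ξ ≠ 0 ∧
      V.lev (fun y => Real.log (hn (Rj Q (mlog r M T) b) (F (0, y)))) y ξ = 0 := by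
  have m0 : (M : ℂ) ≠ 0 := by exact_mod_cast O.M0.ne'
  have nb := isOpen_ball.mem_nhds hy
  refine rank_drop' (isOpen_ball.prod isOpen_ball)
    ((convex_ball _ _).prod (convex_ball _ _)).isPreconnected O.an
    (c0 := 2 * Real.pi * I / M) (div_ne_zero two_pi_I_ne_zero m0) (N := mlog r M T)
    (A := msig r M T - qParam M 1 ^ a0 • (1 : Matrix n n ℂ)) (R := Rj Q (mlog r M T) b)
    ⟨r, O.nil⟩ ?_ ?_ ?_ ⟨mem_ball_self (rad_pos _ _), hy⟩
    (mem_of_superset nb fun s hs => O.sig_F hs)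
    (.of_forall fun s => (hq_herm (Rj_herm O.herm O.skew b) _).symm) hc
    (mem_of_superset nb fun s hs => ?_) L hL
  · rw [sub_mul, mul_sub, (mlog_commute_msig r M T).eq, smul_mul_assoc, mul_smul_comm, one_mul,
      mul_one]
  · rintro ⟨z, s⟩ hp hz e he
    obtain ⟨w, rfl⟩ : ∃ w, qParam M w = z := ⟨_, qParam_right_inv O.m0.ne' hz⟩
    have hs : (w, s) ∈ strip a y0 R := ⟨(q_mem O.m0 w).1 hp.1, hp.2⟩
    have dq : HasDerivAt (qParam M) (2 * Real.pi * I / M * qParam M w) w := by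
      have := (((hasDerivAt_id w).const_mul (2 * Real.pi * I)).div_const ((M : ℝ) : ℂ)).cexp
      refine this.congr_deriv ?_
      simp only [qParam, id, ofReal_natCast]
      ring
    have dz := (hasDerivAt_zpow a0 _ (Or.inl (qParam_ne_zero w))).comp w dq
    refine hrk_of_cover (om := om) (κ := a0 * (2 * Real.pi * I / M))
      (U := fun w => qParam M w ^ a0 • mv (nexp r (mlog r M T) w))
      (O.an _ hp).differentiableAt dq ?_ (fun u v huv => ?_)
      (mem_of_superset (isOpen_strip.mem_nhds hs) fun p hp => O.eq p hp) (rk _ hs) e he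
    · refine (dz.smul (der_mv_nexp O.nil w)).congr_deriv ?_
      rw [ContinuousLinearMap.smul_comp, smul_smul, zpow_sub_one₀ (qParam_ne_zero w)]
      congr 2
      field_simp [qParam_ne_zero w]
    · have e1 : nexp r (mlog r M T) w *ᵥ u = nexp r (mlog r M T) w *ᵥ v :=
        smul_right_injective _ (zpow_ne_zero a0 (qParam_ne_zero w)) huv
      have e2 := congrArg (fun v => nexp r (mlog r M T) (-w) *ᵥ v) e1
      simpa only [mulVec_mulVec, nexp_neg_mul O.nil, one_mulVec] using e2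
  · by_contra hz
    push Not at hz
    refine bad ⟨qParam M 1 ^ a0, fun p hp => ?_⟩
    obtain ⟨z1, z2⟩ := hz (qParam M p.1, p.2) ⟨(q_mem O.m0 _).2 hp.1, hp.2⟩
    rw [sub_mulVec, smul_mulVec, one_mulVec, sub_eq_zero] at z2
    rw [O.eq p hp, nexp_fix O.nil z1, mulVec_smul, smul_comm, ← z2]
    conv_lhs => rw [← msig_mul_nexp O.unip, ← mulVec_mulVec, nexp_fix O.nil z1]
  · have := hq_herm (Rj_herm O.herm O.skew (b + 1)) (F (0, s))
    rw [h0 _ b.lt_succ_self s hs, hq] at this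
    rw [mem_ofPred_eq, mulVec_mulVec, Rj_succ, smul_mulVec, dotProduct_smul, this]
    simp

theorem res_le (O : Orb a y0 R K h Y Q T om r M a0 F) {b : ℕ} (hb : b < r)
    (h0 : ∀ j, b < j → hn (Rj Q (mlog r M T) j) (F (0, y0)) = 0)
    (hc : 0 < hn (Rj Q (mlog r M T) b) (F (0, y0))) (s : ℕ) :
    ∃ W : E → ℂ, DifferentiableOn ℂ W (ball y0 R) ∧
      hn (Rj Q (mlog r M T) b) (F (0, y0)) ^ (M * s) ≤ ‖W y0‖ ^ 2 ∧
      ∀ y ∈ ball y0 (R / 2), ∀ (G : ℂ → ℂ) (ρ : ℂ) (B : ℝ),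
        DifferentiableOn ℂ G (ball 0 (Real.exp (-(2 * Real.pi * a))) \ {0}) →
        Tendsto (fun z => G z * z ^ (a0 * s + 1)) (𝓝[≠] 0) (𝓝 ρ) →
        (∀ w : ℂ, w.im = a + 1 → ‖G (ex w) * ex w‖ ^ 2 * hn (h (w, y)) (om (w, y)) ^ (M * s) ≤ B) →
        ‖ρ * W y‖ ^ 2 ≤ cA r M K ^ s * B := by
  have P0 := O.gm.pos _ O.p0
  have c0 := cN_nonneg r M (Real.exp_pos (lc K)).le
  have bN := O.bdN
  set c := cN r M (Real.exp (lc K)) with hcc
  set N := mlog r M T
  let u0 := nexp r N (w0 a) *ᵥ F (0, y0)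
  have b0 : hn (Rj Q N b) (F (0, y0)) ≤ (1 + 2 * c) ^ r * hn (h (w0 a, y0)) u0 := by
    rw [← top_inv O.herm O.nil O.skew h0 (w0 a)]
    exact top_le P0 c0 bN (O.le _ O.p0) hb _
  have C0 : 0 < (1 + 2 * c) ^ r := by positivity
  have u1 : 0 < hn (h (w0 a, y0)) u0 := (mul_pos_iff_of_pos_left C0).1 (hc.trans_le b0)
  let e : (n → ℂ) → ℂ := fun v => (√((1 + 2 * c) ^ r / hn (h (w0 a, y0)) u0) : ℝ) *
    hq (h (w0 a, y0)) (nexp r N (w0 a) *ᵥ v) u0
  have ed : Differentiable ℂ e :=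
    ((diff_hq _ u0).comp (mv (nexp r N (w0 a))).differentiable).const_mul _
  have en : ∀ v, ‖e v‖ ^ 2 = (1 + 2 * c) ^ r / hn (h (w0 a, y0)) u0 *
      ‖hq (h (w0 a, y0)) (nexp r N (w0 a) *ᵥ v) u0‖ ^ 2 := fun v => by
    rw [norm_mul, mul_pow, norm_real, Real.norm_of_nonneg (Real.sqrt_nonneg _),
      Real.sq_sqrt (by positivity)]
  have es : ∀ (z : ℂ) v, z * e v = e (z • v) := fun z v => by
    simp only [e, mulVec_smul, hq_smul_left]
    ring
  refine ⟨fun y => e (F (0, y)) ^ (M * s), fun y hy =>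
    ((ed _).comp y (O.an2 hy).differentiableAt).pow (M * s) |>.differentiableWithinAt, ?_, ?_⟩
  · rw [norm_pow, ← pow_mul, mul_comm _ 2, pow_mul _ 2, en]
    refine pow_le_pow_left₀ hc.le (b0.trans (le_of_eq ?_)) _
    rw [show nexp r N (w0 a) *ᵥ F (0, y0) = u0 from rfl, hq_self P0, norm_real,
      Real.norm_of_nonneg u1.le]
    field_simp
  intro y hy G ρ B hG hρ hB
  have R0 := O.pos
  have yb : y ∈ ball y0 R := ball_subset_ball (by linarith) hy
  have B0 : 0 ≤ B := le_trans (mul_nonneg (sq_nonneg _) (pow_nonneg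
    (hn_nonneg (O.gm.pos (w0 a, y) ⟨O.p0.1, yb⟩) _) _)) (hB (w0 a) (w0_im a))
  have cA0 : 0 ≤ cA r M K := zero_le_one.trans (one_le_cA r M K)
  have gd := differentiableOn_update_limUnder_of_isLittleO (f := fun z => G z * z ^ (a0 * s + 1))
    (ball_mem_nhds (0 : ℂ) (Real.exp_pos (-(2 * Real.pi * a))))
    (hG.mul fun z hz => (differentiableAt_zpow.2 (Or.inl hz.2)).differentiableWithinAt)
    (IsBoundedUnder.isLittleO_sub_self_inv (hρ.sub_const _).norm.isBoundedUnder_le)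
  rw [hρ.limUnder_eq] at gd
  set g := Function.update (fun z => G z * z ^ (a0 * s + 1)) 0 ρ with hg
  have rl : rad (a + 1) M < rad a M := by
    have := (q_mem O.m0 (w0 a) (a := a)).2 O.p0.1
    rwa [mem_ball_zero_iff, norm_qParam, w0_im] at this
  have Φd : DifferentiableOn ℂ (fun z => g (z ^ M) * e (F (z, y)) ^ (M * s)) (ball 0 (rad a M)) := by
    refine (gd.comp (f := fun z : ℂ => z ^ M) (by fun_prop) fun z hz => ?_).mul fun z hz =>
      (((ed _).comp z ((O.an (z, y) ⟨hz, yb⟩).differentiableAt.comp z (by fun_prop))).pow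
        (M * s)).differentiableWithinAt
    rw [mem_ball_zero_iff, norm_pow, ← rad_pow O.M0]
    exact pow_lt_pow_left₀ (mem_ball_zero_iff.1 hz) (norm_nonneg _) O.M0.ne'
  have mx := norm_le_of_forall_mem_frontier_norm_le (U := ball (0 : ℂ) (rad (a + 1) M))
    isBounded_ball (C := √(cA r M K ^ s * B)) (DifferentiableOn.diffContOnCl (Φd.mono (by
      rw [closure_ball _ (rad_pos _ _).ne']
      exact closedBall_subset_ball rl))) (fun z hz => ?_) (z := 0)
    (subset_closure (mem_ball_self (rad_pos _ _)))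
  · rw [zero_pow O.M0.ne', hg, Function.update_self] at mx
    exact (Real.le_sqrt (norm_nonneg _) (by positivity)).1 mx
  rw [frontier_ball _ (rad_pos _ _).ne', mem_sphere_zero_iff_norm] at hz
  have z0 : z ≠ 0 := norm_pos_iff.1 (hz ▸ rad_pos _ _)
  have wr := abs_re_inv O.m0 z
  have wq := qParam_right_inv O.m0.ne' z0
  set w := invQParam M z
  have wi : w.im = a + 1 := by
    have m0 := O.m0
    have pp := Real.pi_pos
    rw [← wq, norm_qParam, rad, Real.exp_eq_exp, div_left_inj' m0.ne'] at hz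
    exact mul_left_cancel₀ (by linarith) hz
  have hp : (w, y) ∈ strip a y0 R := ⟨by simp only [wi]; linarith, yb⟩
  have zM : z ^ M = ex w := by rw [← wq, q_pow O.M0]
  have e1 : g (z ^ M) * e (F (z, y)) ^ (M * s) =
      G (ex w) * ex w * e (z ^ a0 • F (z, y)) ^ (M * s) := by
    rw [hg, Function.update_of_ne (pow_ne_zero M z0), ← es, mul_pow (z ^ a0), ← zM,
      zpow_add_one₀ (pow_ne_zero M z0), ← zpow_natCast z M, ← zpow_natCast (z ^ a0), ← _root_.zpow_mul,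
      ← _root_.zpow_mul]
    push_cast
    rw [show (M : ℤ) * (a0 * s) = a0 * (M * s) by ring]
    ring
  have e2 : nexp r N (w0 a) *ᵥ (z ^ a0 • F (z, y)) = nexp r N (w0 a - w) *ᵥ om (w, y) := by
    rw [O.eq _ hp, wq, mulVec_smul, mulVec_smul, mulVec_mulVec, ← nexp_add O.nil, sub_add_cancel]
  have nw : ‖w0 a - w‖ ≤ M := by
    have := norm_le_abs_re_add_abs_im (w0 a - w)
    rw [sub_im, w0_im, wi, sub_self, abs_zero, add_zero, sub_re,
      show (w0 a).re = 0 by simp [w0], zero_sub, abs_neg] at this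
    linarith
  have b1 := ((bd_nexp P0 bN c0 r (w0 a - w)).mono
    (Real.exp_le_exp.2 (mul_le_mul_of_nonneg_right nw c0))).sq P0 (om (w, y))
  have b2 := (cmp_strip O.gm (R' := R / 2) (by linarith) O.m0 (ball_subset_closedBall hy) wi.ge wr
    (om (w, y))).2
  rw [wi, add_sub_cancel_left, Real.log_one, add_zero, show R / (R - R / 2) = 2 by
    field_simp; norm_num] at b2
  have b3 : ‖e (z ^ a0 • F (z, y))‖ ^ 2 ≤ (1 + 2 * c) ^ r * (Real.exp (M * c) ^ 2 *
      Real.exp (lc K * (2 + M))) * hn (h (w, y)) (om (w, y)) := by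
    rw [en, e2]
    refine (mul_le_mul_of_nonneg_left (hq_cs P0 _ _) (by positivity)).trans ?_
    rw [mul_comm (hn _ _), ← mul_assoc, div_mul_cancel₀ _ u1.ne', mul_assoc, mul_assoc]
    exact mul_le_mul_of_nonneg_left (b1.trans (mul_le_mul_of_nonneg_left b2 (sq_nonneg _))) C0.le
  refine Real.le_sqrt_of_sq_le ?_
  rw [e1, norm_mul, mul_pow, norm_pow, ← pow_mul, mul_comm _ 2, pow_mul _ 2]
  refine (mul_le_mul_of_nonneg_left (pow_le_pow_left₀ (sq_nonneg _) b3 _) (sq_nonneg _)).trans ?_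
  rw [mul_pow, mul_left_comm, pow_mul]
  exact mul_le_mul_of_nonneg_left (hB w wi) (pow_nonneg cA0 s)

end Orb

/-- `M` depends on the rank only, `C` on the rank and on `K` only -/
theorem horn_local (n : Type) [Fintype n] [DecidableEq n] : ∃ M : ℕ, 0 < M ∧ ∀ K : ℝ, ∃ C : ℝ, 1 ≤ C ∧
    ∀ (E : Type) [NormedAddCommGroup E] [NormedSpace ℂ E] [FiniteDimensional ℂ E]
      (a : ℝ) (y0 : E) (R : ℝ) (h Y : ℂ × E → Matrix n n ℂ) (Q T : Matrix n n ℂ) (om : ℂ × E → n → ℂ),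
      HornM a y0 R K h Y Q T om → ∃ (a0 : ℤ) (b : ℕ) (c : E → ℝ),
      (∀ y ∈ ball y0 R, 0 < c y ∧ ContDiffAt ℝ ∞ c y ∧
        Asy (fun w => hn (h (w, y)) (om (w, y))) (4 * Real.pi * a0 / M) b (c y)) ∧
      (∀ ν : ℕ, RankLe (strip a y0 R) om ν → ¬ Scal (strip a y0 R) T om → ∀ y ∈ ball y0 R,
        ∀ L : Submodule ℂ E, ν ≤ Module.finrank ℂ L →
          ∃ ξ ∈ L, ξ ≠ 0 ∧ 0 ≤ V.lev (fun y => Real.log (c y)) y ξ) ∧
      ∀ s : ℕ, ∃ W : E → ℂ, DifferentiableOn ℂ W (ball y0 R) ∧ c y0 ^ (M * s) ≤ ‖W y0‖ ^ 2 ∧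
        ∀ y ∈ ball y0 (R / 2), ∀ (G : ℂ → ℂ) (r : ℂ) (B : ℝ),
          DifferentiableOn ℂ G (ball 0 (Real.exp (-(2 * Real.pi * a))) \ {0}) →
          Tendsto (fun z => G z * z ^ (a0 * s + 1)) (𝓝[≠] 0) (𝓝 r) →
          (∀ w : ℂ, w.im = a + 1 → ‖G (ex w) * ex w‖ ^ 2 * hn (h (w, y)) (om (w, y)) ^ (M * s) ≤ B) →
          ‖r * W y‖ ^ 2 ≤ C ^ s * B := by
  obtain ⟨M, hM, kr⟩ := kron_unif n
  refine ⟨M, hM, fun K => ⟨cA (Fintype.card n) M K, one_le_cA _ _ _, ?_⟩⟩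
  intro E _ _ _ a y0 R h Y Q T om H
  have u := (kr T (isInt_iff.2 H.int) H.det_ne H.eig_le).1
  obtain ⟨a0, F, h1, h2, y1, hy1, h3⟩ := H.exists_orb hM u
  have O : Orb a y0 R K h Y Q T om (Fintype.card n) M a0 F := ⟨H, hM, u, h1, h2⟩
  obtain ⟨b, hb, ⟨y2, hy2, c2⟩, h0⟩ := O.exists_b hy1 h3
  have : (comap im atTop : Filter ℂ).NeBot := comap_neBot fun s hs => by
    obtain ⟨x, hx⟩ := Filter.nonempty_of_mem hs
    exact ⟨x * I, by simpa using hx⟩
  have ne := fun y hy => O.c_ne hb h0 hy2 (y2 := y) hy c2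
  have ps : ∀ y ∈ ball y0 R, 0 < hn (Rj Q (mlog (Fintype.card n) M T) b) (F (0, y)) := fun y hy => by
    refine lt_of_le_of_ne (ge_of_tendsto (O.asy hb hy fun j hj => h0 j hj y hy) ?_) (ne y hy).symm
    filter_upwards [tendsto_comap.eventually (eventually_gt_atTop a),
      tendsto_comap.eventually (eventually_gt_atTop 0)] with w t1 t2
    exact div_nonneg (hn_nonneg (H.gm.pos (w, y) ⟨t1, hy⟩) _) (by positivity)
  refine ⟨a0, b, fun y => hn (Rj Q (mlog (Fintype.card n) M T) b) (F (0, y)), fun y hy =>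
    ⟨ps y hy, (an_hn (O.an2 hy).restrictScalars _).contDiffAt, O.asy hb hy fun j hj => h0 j hj y hy⟩,
    fun ν rk bad y hy L hL => ?_, O.res_le hb (fun j hj => h0 j hj y0 (mem_ball_self H.pos))
      (ps y0 (mem_ball_self H.pos))⟩
  obtain ⟨ξ, k1, k2, k3⟩ := O.deg h0 rk bad hy (ne y hy) L hL
  exact ⟨ξ, k1, k2, k3.ge⟩

end

end Pool.Agent.Lib.MP_5c318e_ag.B
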