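import Pool.Agent.Lib.MP_5c318e_ag.B.Desc
import Pool.Agent.Lib.MP_5c318e_ag.M.Log

/-! The monodromy is quasi-unipotent; the section is a twisted holomorphic map. -/

set_option autoImplicit false

namespace Pool.Agent.Lib.MP_5c318e_ag.B

open Complex Matrix Metric Filter Topology Set Function.Periodic
open Pool.Agent.Lib.MP_5c318e_ag.M
open scoped ComplexOrder Nat

noncomputable section

variable {E : Type} [NormedAddCommGroup E] [NormedSpace ℂ E] {n : Type} [Fintype n] [DecidableEq n]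

section bd

variable {h N T : Matrix n n ℂ} {C : ℝ}

theorem bd_nexp (H : h.PosDef) (b : Bd h N C) (hC : 0 ≤ C) (r : ℕ) (w : ℂ) :
    Bd h (nexp r N w) (Real.exp (‖w‖ * C)) := by
  refine (bd_sum H (Finset.range r) fun i _ => (b.pow hC i).smul (w ^ i / (i ! : ℂ))).mono ?_
  refine le_trans (le_of_eq (Finset.sum_congr rfl fun i _ => ?_))
    (Real.sum_le_exp_of_nonneg (by positivity) r)
  rw [norm_div, norm_pow, norm_natCast, mul_pow]
  ring

/-- the bound for the logarithm of the monodromy -/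
def cN (r M : ℕ) (C : ℝ) : ℝ := ∑ i ∈ Finset.range r, (C ^ M + 1) ^ i

theorem cN_nonneg (r M : ℕ) (hC : 0 ≤ C) : 0 ≤ cN r M C :=
  Finset.sum_nonneg fun _ _ => by positivity

theorem bd_mlog (H : h.PosDef) (b : Bd h T C) (hC : 0 ≤ C) (r M : ℕ) :
    Bd h (mlog r M T) (cN r M C) := by
  have k : ∀ i : ℕ, ((i : ℝ))⁻¹ ≤ 1 := fun i => Nat.cast_inv_le_one i
  have a := (bd_sum H (Finset.range r) fun i _ =>
    (((b.pow hC M).sub H bd_one).pow (by positivity) i).smul ((-1) ^ (i + 1) / (i : ℂ))).smul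
    (1 / (M : ℂ))
  refine a.mono ?_
  refine (mul_le_of_le_one_left (Finset.sum_nonneg fun _ _ => by positivity)
    (by simpa using k M)).trans (Finset.sum_le_sum fun i _ => ?_)
  exact mul_le_of_le_one_left (by positivity) (by simpa using k i)

end bd

variable {a R K : ℝ} {y0 : E} {h Y : ℂ × E → Matrix n n ℂ} {Q T : Matrix n n ℂ}
  {om : ℂ × E → n → ℂ}

theorem w0_im (a : ℝ) : (w0 a).im = a + 1 := by simp [w0]

namespace HornM

theorem p0 (H : HornM a y0 R K h Y Q T om) : (w0 a, y0) ∈ strip a y0 R :=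
  ⟨by simp only [w0_im]; linarith, mem_ball_self H.pos⟩

theorem hn_T (H : HornM a y0 R K h Y Q T om) {p : ℂ × E} (hp : p ∈ strip a y0 R) (v : n → ℂ) :
    hn (h (p.1 + 1, p.2)) (T *ᵥ v) = hn (h p) v := by
  rw [hn, hq_mulVec, H.per p hp, hn]

theorem det_ne (H : HornM a y0 R K h Y Q T om) : T.det ≠ 0 := fun e => by
  have := H.gm.det_ne H.p0
  rw [← H.per _ H.p0, det_mul, e, mul_zero] at this
  exact this rfl

theorem eig_le (H : HornM a y0 R K h Y Q T om) (z : ℂ) (v : n → ℂ) (hv : v ≠ 0)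
    (e : T *ᵥ v = z • v) : ‖z‖ ≤ 1 := by
  by_contra hz
  rw [not_le] at hz
  have d : 0 < Real.log (‖z‖ ^ 2) := Real.log_pos (by nlinarith)
  have l := div_nonneg (lc_nonneg K) d.le
  let w : ℂ := ((a + (lc K / Real.log (‖z‖ ^ 2) + 1) : ℝ) : ℂ) * I
  have wi : w.im = a + (lc K / Real.log (‖z‖ ^ 2) + 1) := by
    simp only [w, mul_im, ofReal_re, I_im, mul_one, ofReal_im, I_re, mul_zero, add_zero]
  have hp : (w, y0) ∈ strip a y0 R := ⟨by simp only [wi]; linarith, mem_ball_self H.pos⟩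
  have hp' : (w + 1, y0) ∈ strip a y0 R := ⟨by simpa using hp.1, hp.2⟩
  have c := cmp_hor H.gm hv hp one_pos (u := 1) (by simp)
  have t := H.hn_T hp v
  rw [e, hn_smul] at t
  rw [← t, Real.log_mul (by positivity) (hn_pos (H.gm.pos _ hp') hv).ne', wi, add_sub_cancel_left,
    mul_one, ofReal_one, sub_add_cancel_right, abs_neg, abs_of_pos d,
    le_div_iff₀ (by positivity), mul_add, mul_div_cancel₀ _ d.ne'] at c
  linarith

theorem bd_T (H : HornM a y0 R K h Y Q T om) : Bd (h (w0 a, y0)) T (Real.exp (lc K)) := by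
  have hp' : (w0 a + 1, y0) ∈ strip a y0 R := ⟨by simpa using H.p0.1, H.p0.2⟩
  refine bd_of_sq (Real.exp_pos _).le fun v => ?_
  have c := (hn_le_of_log (H.gm.pos _ hp') (H.gm.pos _ H.p0) (c := lc K) (fun v hv => by
    simpa [w0_im] using cmp_hor H.gm hv H.p0 one_pos (u := 1) (by simp)) (T *ᵥ v)).2
  rw [H.hn_T H.p0] at c
  refine c.trans (mul_le_mul_of_nonneg_right ?_ (hn_nonneg (H.gm.pos _ H.p0) v))
  have := Real.one_le_exp (lc_nonneg K)
  nlinarith

theorem om_nat (H : HornM a y0 R K h Y Q T om) {p : ℂ × E} (hp : p ∈ strip a y0 R) (k : ℕ) :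
    om (p.1 + k, p.2) = T ^ k *ᵥ om p := by
  induction k with
  | zero => simp
  | succ k ih =>
    have := H.omT (p.1 + k, p.2) ⟨by simpa using hp.1, hp.2⟩
    rw [pow_succ', ← mulVec_mulVec, ← ih, ← this]
    push_cast
    rw [add_assoc]

theorem exists_orb [FiniteDimensional ℂ E] (H : HornM a y0 R K h Y Q T om) {r M : ℕ} (hM : 0 < M)
    (hT : (T ^ M - 1) ^ r = 0) :
    ∃ (a0 : ℤ) (F : ℂ × E → n → ℂ), AnalyticOnNhd ℂ F (ball 0 (rad a M) ×ˢ ball y0 R) ∧
      (∀ p ∈ strip a y0 R,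
        om p = qParam M p.1 ^ a0 • nexp r (mlog r M T) p.1 *ᵥ F (qParam M p.1, p.2)) ∧
      ∃ y ∈ ball y0 R, F (0, y) ≠ 0 := by
  set N := mlog r M T with hN
  have nil : N ^ r = 0 := mlog_pow hT
  have m0 : (0 : ℝ) < M := by exact_mod_cast hM
  have P0 := H.gm.pos _ H.p0
  have c0 := cN_nonneg r M (Real.exp_pos (lc K)).le
  set c := cN r M (Real.exp (lc K))
  have bN : Bd (h (w0 a, y0)) N c := bd_mlog P0 H.bd_T (Real.exp_pos _).le r M
  obtain ⟨A, hA⟩ := H.mod
  obtain ⟨C0, C00, hC0⟩ := exists_norm_le P0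
  obtain ⟨a0, F, h1, h2, h3⟩ := descend (Ψ := fun p => nexp r N (-p.1) *ᵥ om p) m0 H.pos
    (differentiableOn_pi.2 fun i => by
      simp only [mulVec, dotProduct]
      exact DifferentiableOn.fun_sum fun j _ =>
        (((differentiable_nexp r N i j).comp differentiable_fst.neg).differentiableOn).mul
          (differentiableOn_pi.1 H.hol j))
    (fun p hp => by
      simp only [ofReal_natCast]
      rw [H.om_nat hp, mulVec_mulVec, ← nexp_mlog hM hT, ← hN, ← nexp_add nil]
      congr 2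
      ring)
    (fun p hp e => H.ne p hp (by
      have := congrArg (fun v => nexp r N p.1 *ᵥ v) e
      simpa only [mulVec_mulVec, nexp_mul_neg nil, one_mulVec, mulVec_zero] using this))
    (A := c + (lc K + A) / 2) (fun y hy => by
      obtain ⟨C, hC⟩ := hA y hy
      have d := mem_ball.1 hy
      refine ⟨C0 * Real.exp (M * c) * Real.exp (lc K * (R / (R - dist y y0) + M - a) / 2) *
        √(max C 0), max (a + 1) 0, fun w h1 h2 => ?_⟩
      have i1 := (le_max_left _ _).trans h1
      have i0 := (le_max_right _ _).trans h1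
      have b1 := bd_nexp P0 bN c0 r (-w) (om (w, y))
      have b2 := (cmp_strip H.gm d m0 (mem_closedBall.2 le_rfl) i1 h2 (om (w, y))).2
      have b3 := (hC w i1).trans (mul_le_mul_of_nonneg_right (le_max_left C 0) (Real.exp_pos _).le)
      have nw : ‖-w‖ ≤ M + w.im := by
        rw [norm_neg]
        linarith [norm_le_abs_re_add_abs_im w, abs_of_nonneg i0]
      have l1 : Real.log (w.im - a) ≤ w.im - a := Real.log_le_self (by linarith)
      have b4 : √(hn (h (w0 a, y0)) (om (w, y))) ≤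
          Real.exp (lc K * (R / (R - dist y y0) + M - a) / 2) * √(max C 0) *
            Real.exp ((lc K + A) / 2 * w.im) := by
        refine Real.sqrt_le_iff.2 ⟨by positivity, b2.trans ?_⟩
        rw [mul_pow, mul_pow, Real.sq_sqrt (le_max_right _ _), ← Real.exp_nat_mul,
          ← Real.exp_nat_mul]
        refine (mul_le_mul_of_nonneg_left b3 (Real.exp_pos _).le).trans ?_
        rw [mul_left_comm, mul_right_comm, mul_comm _ (max C 0), ← Real.exp_add, ← Real.exp_add]
        refine mul_le_mul_of_nonneg_left (Real.exp_le_exp.2 ?_) (le_max_right _ _)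
        push_cast
        nlinarith [mul_le_mul_of_nonneg_left l1 (lc_nonneg K)]
      have b5 : Real.exp (‖-w‖ * c) ≤ Real.exp (M * c) * Real.exp (c * w.im) := by
        rw [← Real.exp_add, Real.exp_le_exp]
        nlinarith [mul_le_mul_of_nonneg_right nw c0]
      refine (hC0 _).trans ((mul_le_mul_of_nonneg_left (b1.trans
        (mul_le_mul b5 b4 (Real.sqrt_nonneg _) (by positivity))) C00).trans (le_of_eq ?_))
      rw [add_mul c, Real.exp_add (c * w.im)]
      ring)
  refine ⟨a0, F, h1, fun p hp => ?_, h3⟩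
  have := congrArg (fun v => nexp r N p.1 *ᵥ v) (h2 p hp)
  simpa only [mulVec_mulVec, nexp_mul_neg nil, one_mulVec, mulVec_smul] using this

end HornM

end

end Pool.Agent.Lib.MP_5c318e_ag.B
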