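import Pool.Agent.Lib.MP_5c318e_ag.B.Glob
import Pool.Agent.Lib.MP_9ff3e7_ag.F.CauchyEst

/-! Orders from growth, and the mean value inequality for powers of the Hodge norm. -/

set_option autoImplicit false

namespace Pool.Agent.Lib.MP_5c318e_ag.B

open Complex Matrix Metric Filter Topology Set Function.Periodic Asymptotics MeasureTheory
open scoped ComplexOrder

noncomputable section

/-- L2 => pointwise for `|G|² N^t` (flat frame on a ball, `N = h(om, om)`) -/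
theorem submean_pow (K : ℝ) : ∃ C : ℝ, 1 ≤ C ∧ ∀ (n : Type) [Fintype n] [DecidableEq n]
    (ι : Type) [Fintype ι] (y0 : ι → ℂ) (R : ℝ) (h Y : (ι → ℂ) → Matrix n n ℂ)
    (om : (ι → ℂ) → n → ℂ) (G : (ι → ℂ) → ℂ) (t : ℕ), 0 < R → V.GM (ball y0 R) h Y K →
    DifferentiableOn ℂ om (ball y0 R) → DifferentiableOn ℂ G (ball y0 R) →
    ENNReal.ofReal (‖G y0‖ ^ 2 * hn (h y0) (om y0) ^ t * (Real.pi * (R / 2) ^ 2) ^ Fintype.card ι) ≤
      ENNReal.ofReal (C ^ t) *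
        ∫⁻ y in ball y0 (R / 2), ENNReal.ofReal (‖G y‖ ^ 2 * hn (h y) (om y) ^ t) := by
  refine ⟨Real.exp (lc K), Real.one_le_exp (lc_nonneg K), ?_⟩
  intro n _ _ ι _ y0 R h Y om G t hR gm ho hG
  have P0 := gm.pos y0 (mem_ball_self hR)
  have u0 := hn_nonneg P0 (om y0)
  have sb : ball y0 (R / 2) ⊆ ball y0 R := ball_subset_ball (by linarith)
  let e : (n → ℂ) → ℂ := fun v => hq (h y0) v (om y0) / (√(hn (h y0) (om y0)) : ℝ)
  have en : ∀ v, ‖e v‖ ^ 2 = ‖hq (h y0) v (om y0)‖ ^ 2 / hn (h y0) (om y0) := fun v => by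
    rw [norm_div, div_pow, norm_real, Real.norm_of_nonneg (Real.sqrt_nonneg _), Real.sq_sqrt u0]
  have e0 : ‖e (om y0)‖ ^ 2 = hn (h y0) (om y0) := by
    rw [en, hq_self P0, norm_real, Real.norm_of_nonneg u0, sq, mul_self_div_self]
  have ed : Differentiable ℂ e := by
    simp only [e, div_eq_mul_inv]
    exact (diff_hq (h y0) (om y0)).mul_const _
  have sm := Pool.Agent.Lib.MP_9ff3e7_ag.F.submean_pi (F := fun y => G y * e (om y) ^ t) (x := y0)
    (half_pos hR) ((hG.mul ((ed.comp_differentiableOn ho).pow t)).mono sb)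
  rw [norm_mul, mul_pow, norm_pow, ← pow_mul, mul_comm t, pow_mul, e0] at sm
  refine sm.trans ?_
  rw [← lintegral_const_mul' _ _ ENNReal.ofReal_ne_top]
  refine setLIntegral_mono' measurableSet_ball fun y hy => ?_
  rw [← ENNReal.ofReal_mul (by positivity), norm_mul, mul_pow, norm_pow, ← pow_mul, mul_comm t,
    pow_mul, mul_left_comm, ← mul_pow]
  refine ENNReal.ofReal_le_ofReal (mul_le_mul_of_nonneg_left
    (pow_le_pow_left₀ (sq_nonneg _) (le_trans ?_ (cmp_ball gm hy _)) t) (sq_nonneg _))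
  rw [en]
  exact div_le_of_le_mul₀ u0 (hn_nonneg P0 _) (hq_cs P0 _ _)

theorem nrm_ex (w : ℂ) : ‖ex w‖ = Real.exp (-(2 * Real.pi * w.im)) := by simp [ex, norm_exp]

theorem exp_pow_eq {M : ℕ} (hM : 0 < M) (a0 : ℤ) (w : ℂ) :
    Real.exp (-(4 * Real.pi * a0 / M * w.im)) ^ M = ‖ex w‖ ^ (2 * a0) := by
  have : (M : ℝ) ≠ 0 := by exact_mod_cast hM.ne'
  rw [nrm_ex, ← Real.rpow_intCast, ← Real.exp_mul, ← Real.exp_nat_mul]
  congr 1
  push_cast
  field_simp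
  ring

theorem ex_inv {z : ℂ} (hz : z ≠ 0) : ex (invQParam 1 z) = z := by
  simpa [qParam, ex] using qParam_right_inv one_ne_zero hz

theorem tendsto_ex : Tendsto ex (comap im atTop) (𝓝[≠] 0) :=
  (qParam_tendsto one_pos).congr fun w => by simp [qParam, ex]

theorem ev_ex {A : ℂ → Prop} (h : ∀ᶠ w in comap im atTop, A (ex w)) : ∀ᶠ z in 𝓝[≠] 0, A z := by
  filter_upwards [(invQParam_tendsto one_pos).eventually h, self_mem_nhdsWithin] with z h1 h2
  rwa [ex_inv h2] at h1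

theorem ev_exU {P : Type} {l : Filter P} {A : ℂ × P → Prop}
    (h : ∀ᶠ p in comap im atTop ×ˢ l, A (ex p.1, p.2)) : ∀ᶠ p in 𝓝[≠] 0 ×ˢ l, A p := by
  filter_upwards [((invQParam_tendsto one_pos).prodMap tendsto_id).eventually h,
    tendsto_fst.eventually self_mem_nhdsWithin] with p h1 h2
  simpa only [Prod.map, id, ex_inv h2] using h1

section core

variable {X : Type} {L : Filter X} {w : X → ℂ} {f : X → ℝ} {M b : ℕ} {a0 : ℤ} {c : ℝ}

theorem core_lo (hM : 0 < M) (hc : 0 < c) (tw : Tendsto w L (comap im atTop))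
    (t : Tendsto (fun x => f x / (Real.exp (-(4 * Real.pi * a0 / M * (w x).im)) * (w x).im ^ b)) L
      (𝓝 c)) : ∀ᶠ x in L, (c / 2) ^ M * ‖ex (w x)‖ ^ (2 * a0) ≤ f x ^ M := by
  filter_upwards [t.eventually (lt_mem_nhds (half_lt_self hc)),
    (tendsto_comap.comp tw).eventually (eventually_ge_atTop 1)] with x h1 h2
  simp only [Function.comp] at h2
  rw [← exp_pow_eq hM, ← mul_pow]
  rw [lt_div_iff₀ (by positivity)] at h1
  refine pow_le_pow_left₀ (by positivity) (le_trans ?_ h1.le) M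
  exact mul_le_mul_of_nonneg_left (le_mul_of_one_le_right (Real.exp_pos _).le (one_le_pow₀ h2))
    (half_pos hc).le

theorem core_up (hM : 0 < M) (hc : 0 < c) (tw : Tendsto w L (comap im atTop))
    (t : Tendsto (fun x => f x / (Real.exp (-(4 * Real.pi * a0 / M * (w x).im)) * (w x).im ^ b)) L
      (𝓝 c)) : ∀ᶠ x in L, 0 < f x ∧
        f x ^ M ≤ (2 * c) ^ M * (w x).im ^ (b * M) * ‖ex (w x)‖ ^ (2 * a0) := by
  filter_upwards [t.eventually (gt_mem_nhds (show c < 2 * c by linarith)),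
    t.eventually (lt_mem_nhds hc),
    (tendsto_comap.comp tw).eventually (eventually_gt_atTop 0)] with x h1 h0 h2
  simp only [Function.comp] at h2
  rw [div_lt_iff₀ (by positivity)] at h1
  rw [lt_div_iff₀ (by positivity), zero_mul] at h0
  rw [← exp_pow_eq hM, pow_mul, ← mul_pow, ← mul_pow]
  exact ⟨h0, pow_le_pow_left₀ h0.le (h1.le.trans (le_of_eq (by ring))) M⟩

theorem small (A : ℝ) (k : ℕ) {ε : ℝ} (hε : 0 < ε) :
    ∀ᶠ w : ℂ in comap im atTop, A * w.im ^ k ≤ ‖ex w‖ ^ (-ε) := by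
  have o := ((isLittleO_pow_exp_pos_mul_atTop k (b := 2 * Real.pi * ε)
    (by positivity [Real.pi_pos])).const_mul_left A).eventuallyLE
  filter_upwards [(tendsto_comap (f := im)).eventually o] with w hw
  rw [nrm_ex, ← Real.exp_mul, neg_mul_neg, mul_right_comm]
  exact (le_abs_self _).trans (hw.trans_eq (Real.norm_of_nonneg (Real.exp_pos _).le))

theorem core_hi (hM : 0 < M) (hc : 0 < c) (tw : Tendsto w L (comap im atTop))
    (t : Tendsto (fun x => f x / (Real.exp (-(4 * Real.pi * a0 / M * (w x).im)) * (w x).im ^ b)) L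
      (𝓝 c)) {ε : ℝ} (hε : 0 < ε) : ∀ᶠ x in L, f x ^ M ≤ ‖ex (w x)‖ ^ (2 * a0 - ε : ℝ) := by
  filter_upwards [core_up hM hc tw t, tw.eventually (small ((2 * c) ^ M) (b * M) hε)] with x h1 h2
  have p : 0 < ‖ex (w x)‖ := norm_pos_iff.2 (exp_ne_zero _)
  refine h1.2.trans ((mul_le_mul_of_nonneg_right h2 (by positivity)).trans (le_of_eq ?_))
  rw [← Real.rpow_intCast, ← Real.rpow_add p]
  congr 1
  push_cast
  ring

end core

section unif

variable {P : Type} {l : Filter P} {g : ℂ × P → ℝ} {M b : ℕ} {a0 : ℤ} {c : ℝ}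

theorem AsyU.lo (h : AsyU (fun p => g (ex p.1, p.2)) l (4 * Real.pi * a0 / M) b c) (hM : 0 < M)
    (hc : 0 < c) : ∀ᶠ p in 𝓝[≠] 0 ×ˢ l, (c / 2) ^ M * ‖p.1‖ ^ (2 * a0) ≤ g p ^ M :=
  ev_exU (core_lo hM hc tendsto_fst h)

theorem AsyU.hi (h : AsyU (fun p => g (ex p.1, p.2)) l (4 * Real.pi * a0 / M) b c) (hM : 0 < M)
    (hc : 0 < c) {ε : ℝ} (hε : 0 < ε) :
    ∀ᶠ p in 𝓝[≠] 0 ×ˢ l, g p ^ M ≤ ‖p.1‖ ^ (2 * a0 - ε : ℝ) :=
  ev_exU (core_hi hM hc tendsto_fst h hε)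

theorem AsyU.hi' (h : AsyU (fun p => g (ex p.1, p.2)) l (4 * Real.pi * a0 / M) 0 c) (hM : 0 < M)
    (hc : 0 < c) : ∀ᶠ p in 𝓝[≠] 0 ×ˢ l, g p ^ M ≤ (2 * c) ^ M * ‖p.1‖ ^ (2 * a0) :=
  ev_exU ((core_up hM hc tendsto_fst h).mono fun p hp => by simpa using hp.2)

end unif

/-- orders from growth: `|G|² N^(M s) = O(|z|^(-2 e))` bounds `G z^(a0 s)` by `|z|^(-e)`, and
conversely `G z^(a0 s)` bounded gives `O(|z|^(-2 e))` for every `e > 0` -/
theorem Asy.order {N : ℂ → ℝ} {M : ℕ} (hM : 0 < M) {a0 : ℤ} {b : ℕ} {c : ℝ} (hc : 0 < c)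
    (h : Asy N (4 * Real.pi * a0 / M) b c) (s : ℕ) (G : ℂ → ℂ) :
    (∀ e C : ℝ, (∀ᶠ w in comap im atTop, ‖G (ex w)‖ ^ 2 * N w ^ (M * s) ≤ C * ‖ex w‖ ^ (-(2 * e))) →
      ∃ C' : ℝ, ∀ᶠ z in 𝓝[≠] (0 : ℂ), ‖G z * z ^ (a0 * s)‖ ≤ C' * ‖z‖ ^ (-e)) ∧
    (∀ C : ℝ, (∀ᶠ z in 𝓝[≠] (0 : ℂ), ‖G z * z ^ (a0 * s)‖ ≤ C) → ∀ e : ℝ, 0 < e →
      ∀ᶠ w in comap im atTop, ‖G (ex w)‖ ^ 2 * N w ^ (M * s) ≤ ‖ex w‖ ^ (-(2 * e))) := by
  have id1 : ∀ z : ℂ, ‖G z * z ^ (a0 * s)‖ ^ 2 = ‖G z‖ ^ 2 * (‖z‖ ^ (2 * a0)) ^ s := fun z => by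
    rw [norm_mul, mul_pow, norm_zpow, ← zpow_natCast (‖z‖ ^ (a0 * s)), ← zpow_natCast (‖z‖ ^ (2 * a0)),
      ← _root_.zpow_mul, ← _root_.zpow_mul]
    congr 2
    push_cast
    ring
  refine ⟨fun e C hC => ⟨√(|C| / ((c / 2) ^ M) ^ s), ev_ex ?_⟩, fun C hC e he => ?_⟩
  · filter_upwards [hC, core_lo hM hc tendsto_id h] with w h1 h2
    have p : 0 < ‖ex w‖ := norm_pos_iff.2 (exp_ne_zero _)
    refine abs_le_of_sq_le_sq' ?_ (by positivity) |>.2
    rw [mul_pow _ _ 2, Real.sq_sqrt (by positivity), ← Real.rpow_natCast (‖ex w‖ ^ (-e)),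
      ← Real.rpow_mul p.le, id1, div_mul_eq_mul_div, le_div_iff₀ (by positivity), mul_assoc,
      ← mul_pow, mul_comm (‖ex w‖ ^ (2 * a0))]
    rw [pow_mul] at h1
    refine (mul_le_mul_of_nonneg_left (pow_le_pow_left₀ (by positivity) h2 s)
      (sq_nonneg _)).trans (h1.trans ?_)
    rw [show -e * (2 : ℕ) = -(2 * e) by push_cast; ring]
    exact mul_le_mul_of_nonneg_right (le_abs_self C) (by positivity)
  · filter_upwards [tendsto_ex.eventually hC, core_up hM hc tendsto_id h,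
      small (C ^ 2 * ((2 * c) ^ M) ^ s) (b * M * s) (mul_pos two_pos he),
      tendsto_comap.eventually (eventually_gt_atTop 0)] with w h1 h2 h3 h4
    have h5 := pow_le_pow_left₀ (norm_nonneg _) h1 2
    rw [id1] at h5
    rw [pow_mul]
    refine (mul_le_mul_of_nonneg_left (pow_le_pow_left₀ (pow_nonneg h2.1.le M) h2.2 s)
      (sq_nonneg _)).trans (le_trans ?_ h3)
    simp only [id]
    rw [mul_pow _ _ s, mul_left_comm, mul_comm, mul_assoc (C ^ 2), pow_mul _ _ s, ← mul_pow _ _ s]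
    exact mul_le_mul_of_nonneg_right h5 (by positivity)

end

end Pool.Agent.Lib.MP_5c318e_ag.B
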