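import Pool.Agent.Lib.MP_5c318e_ag.V.Lev
import Pool.Agent.Lib.MP_5c318e_ag.E.FlatA

/-! The submean inequality and limits of polynomial expressions in `im w`. -/

set_option autoImplicit false

namespace Pool.Agent.Lib.MP_5c318e_ag.B

open Complex Metric Filter Topology Set MeasureTheory Function.Periodic Asymptotics

/-- the submean inequality for a function with nonnegative Laplacian -/
theorem submean {u : ℂ → ℝ} (hu : ∀ z ∈ closedBall (0 : ℂ) 1, ContDiffAt ℝ 2 u z)
    (hl : ∀ z ∈ ball (0 : ℂ) 1, 0 ≤ V.lev u z 1) : u 0 ≤ Real.circleAverage u 0 1 := by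
  have c : ContinuousOn u (closedBall 0 1) := fun z hz => (hu z hz).continuousAt.continuousWithinAt
  have cs := c.mono sphere_subset_closedBall
  refine le_of_forall_pos_le_add fun ε hε => ?_
  obtain ⟨p, hp⟩ := Flat.trig_re cs (ε := ε / 3) (by linarith)
  have pc : Continuous fun z => (p.eval z).re := continuous_re.comp p.continuous
  obtain ⟨z, hz, hm⟩ := (isCompact_closedBall (0 : ℂ) 1).exists_isMaxOn
    (nonempty_closedBall.2 zero_le_one)
    (f := fun z => u z - (p.eval z).re + ε / 3 * ‖z‖ ^ 2)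
    ((c.sub pc.continuousOn).add (by fun_prop))
  have p2 : ContDiffAt ℂ 2 (fun z => p.eval z) z := p.differentiable.contDiff.contDiffAt
  have r2 : ContDiffAt ℝ 2 (fun z => (p.eval z).re) z :=
    reCLM.contDiff.contDiffAt.comp z (p2.restrict_scalars ℝ)
  have n2 : ContDiffAt ℝ 2 (fun z : ℂ => ‖z‖ ^ 2) z := contDiffAt_id.norm_sq ℝ
  have hs : z ∈ sphere (0 : ℂ) 1 := by
    by_contra hs
    have hb : z ∈ ball (0 : ℂ) 1 := by
      rw [← closedBall_sdiff_sphere]
      exact ⟨hz, hs⟩
    have := V.lev_nonpos_of_max (ξ := 1) (((hu z hz).sub r2).add (contDiffAt_const.mul n2))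
      (hm.isLocalMax (mem_of_superset (isOpen_ball.mem_nhds hb) ball_subset_closedBall))
    rw [V.lev_add ((hu z hz).sub r2) (contDiffAt_const.mul n2), V.lev_sub (hu z hz) r2,
      V.lev_re_holo p2, V.lev_const_mul _ n2, V.lev_normSq] at this
    have := hl z hb
    simp only [norm_one, one_pow, mul_one] at *
    linarith
  have a := hm (mem_closedBall_self zero_le_one)
  simp only [mem_ofPred_eq, norm_zero, mem_sphere_zero_iff_norm.1 hs] at a
  have e : Real.circleAverage (fun z => (p.eval z).re) 0 1 = (p.eval 0).re := by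
    have h := DiffContOnCl.circleAverage (f := fun z => p.eval z) (c := 0) (R := 1)
      p.differentiable.diffContOnCl
    rw [← h]
    exact reCLM.circleAverage_comp_comm (Flat.cint p.continuous.continuousOn)
  have b := Flat.avg_mono pc.continuousOn (g := fun z => 1 * u z + ε / 3 * 1)
    ((continuousOn_const.mul cs).add continuousOn_const) fun z hz => by
      linarith [(abs_le.1 (hp z hz)).1]
  rw [e, Flat.avg_lin cs continuousOn_const, Real.circleAverage_const] at b
  linarith [(abs_le.1 (hp z hs)).2]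

theorem pos_core {W : ℝ → ℂ → ℝ} {C D : ℝ}
    (hs : ∀ᶠ τ in atTop, W τ 0 ≤ Real.circleAverage (W τ) 0 1 ∧ ContinuousOn (W τ) (sphere 0 1))
    (hu : ∀ᶠ τ in atTop, ∀ t ∈ sphere (0 : ℂ) 1, W τ t ≤ C * Real.log τ)
    (ha : ∀ᵐ θ : ℝ, ∃ l, Tendsto (fun τ => W τ (circleMap 0 1 θ)) atTop (𝓝 l))
    (hl : ∀ᶠ τ in atTop, Real.log τ - D ≤ W τ 0) : False := by
  have lg := Real.tendsto_log_atTop
  have cm : ∀ θ, circleMap 0 1 θ ∈ sphere (0 : ℂ) 1 := circleMap_mem_sphere 0 zero_le_one
  have t := intervalIntegral.tendsto_integral_filter_of_dominated_convergence (μ := volume)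
    (a := 0) (b := 2 * Real.pi) (l := atTop) (f := fun _ => (0 : ℝ))
    (F := fun τ θ => max (W τ (circleMap 0 1 θ) / Real.log τ) 0) (fun _ => max C 0)
    (hs.mono fun τ h => (((h.2.comp_continuous (continuous_circleMap 0 1) cm).div_const _).max
      continuous_const).aestronglyMeasurable)
    (by
      filter_upwards [hu, lg.eventually (eventually_gt_atTop 0)] with τ h1 h2
      refine .of_forall fun θ _ => ?_
      rw [Real.norm_of_nonneg (le_max_right _ _)]
      exact max_le_max ((div_le_iff₀ h2).2 (h1 _ (cm θ))) le_rfl)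
    intervalIntegrable_const
    (ha.mono fun θ ⟨l, h⟩ _ => by simpa using (h.div_atTop lg).max (tendsto_const_nhds (x := 0)))
  have t2 : Tendsto (fun τ => Real.circleAverage (fun z => max (W τ z / Real.log τ) 0) 0 1) atTop
      (𝓝 0) := by
    simpa [Real.circleAverage_def] using t.const_mul (2 * Real.pi)⁻¹
  have t3 : Tendsto (fun τ => 1 - D / Real.log τ) atTop (𝓝 1) := by
    simpa using (tendsto_const_nhds (x := D).div_atTop lg).const_sub 1
  refine absurd (le_of_tendsto_of_tendsto t3 t2 ?_) (by norm_num)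
  filter_upwards [hs, hl, lg.eventually (eventually_gt_atTop 0)] with τ h1 h2 h3
  have a := Flat.avg_mono (f := fun z => (Real.log τ)⁻¹ * W τ z + 0 * W τ z)
    ((continuousOn_const.mul h1.2).add (continuousOn_const.mul h1.2))
    (g := fun z => max (W τ z / Real.log τ) 0) ((h1.2.div_const _).sup continuousOn_const)
    fun z _ => by
      rw [zero_mul, add_zero, inv_mul_eq_div]
      exact le_max_left _ _
  rw [Flat.avg_lin h1.2 h1.2, zero_mul, add_zero, inv_mul_eq_div] at a
  refine le_trans ?_ a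
  rw [le_div_iff₀ h3, sub_mul, one_mul, div_mul_cancel₀ _ h3.ne']
  linarith [h1.1]

theorem tend_pow_q {m : ℝ} (hm : 0 < m) (k : ℕ) :
    Tendsto (fun w : ℂ => w.im ^ k * ‖qParam m w‖) (comap im atTop) (𝓝 0) := by
  have c : 0 < 2 * Real.pi / m := by positivity [Real.pi_pos]
  have t := ((Real.tendsto_pow_mul_exp_neg_atTop_nhds_zero k).comp
    ((tendsto_comap (f := im)).const_mul_atTop c)).div_const ((2 * Real.pi / m) ^ k)
  rw [zero_div] at t
  refine t.congr fun w => ?_
  simp only [Function.comp, norm_qParam, mul_pow]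
  rw [show -(2 * Real.pi / m * w.im) = -2 * Real.pi * w.im / m by ring]
  field_simp

theorem tend_term {m : ℝ} (hm : 0 < m) {g : ℂ → ℝ} (hg : DifferentiableAt ℝ g 0) (i b : ℕ)
    (h0 : b < i → g 0 = 0) : Tendsto (fun w : ℂ => g (qParam m w) * w.im ^ i / w.im ^ b)
      (comap im atTop) (𝓝 (if i = b then g 0 else 0)) := by
  have tq : Tendsto (qParam m) (comap im atTop) (𝓝 0) :=
    (qParam_tendsto hm).mono_right nhdsWithin_le_nhds
  have tg := hg.continuousAt.tendsto.comp tq
  have p : ∀ᶠ w : ℂ in comap im atTop, 0 < w.im := tendsto_comap.eventually (eventually_gt_atTop 0)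
  rcases lt_trichotomy i b with h | rfl | h
  · rw [if_neg h.ne]
    obtain ⟨e, rfl⟩ := Nat.exists_eq_add_of_lt h
    refine (tg.div_atTop ((tendsto_pow_atTop e.succ_ne_zero).comp (tendsto_comap (f := im)))).congr'
      (p.mono fun w hw => ?_)
    simp only [Function.comp, Nat.succ_eq_add_one]
    field_simp
    ring
  · rw [if_pos rfl]
    exact tg.congr' (p.mono fun w hw => by simp [mul_div_assoc, div_self (pow_pos hw i).ne'])
  · rw [if_neg h.ne']
    obtain ⟨e, rfl⟩ := Nat.exists_eq_add_of_lt h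
    have o := (hg.isBigO_sub.comp_tendsto tq).norm_right.mul
      (isBigO_refl (fun w : ℂ => w.im ^ (e + 1)) (comap im atTop))
    have t := o.trans_tendsto ((tend_pow_q hm (e + 1)).congr fun w => by
      simp only [Function.comp, sub_zero, mul_comm])
    refine t.congr' (p.mono fun w hw => ?_)
    simp only [Function.comp, h0 h, sub_zero]
    field_simp
    ring

theorem tend_poly {m : ℝ} (hm : 0 < m) {g : ℕ → ℂ → ℝ} (hg : ∀ j, DifferentiableAt ℝ (g j) 0)
    (r k b : ℕ) (h0 : ∀ j, b < j + k → g j 0 = 0) :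
    Tendsto (fun w : ℂ => (∑ j ∈ Finset.range r, w.im ^ j * g j (qParam m w)) * w.im ^ k / w.im ^ b)
      (comap im atTop) (𝓝 (∑ j ∈ Finset.range r, if j + k = b then g j 0 else 0)) := by
  refine (tendsto_finsetSum _ fun j _ => tend_term hm (hg j) (j + k) b (h0 j)).congr fun w => ?_
  rw [Finset.sum_mul, Finset.sum_div]
  exact Finset.sum_congr rfl fun j _ => by ring

theorem tend_mul_I : Tendsto (fun τ : ℝ => (τ : ℂ) * I) atTop (comap im atTop) :=
  tendsto_comap_iff.2 (tendsto_id.congr fun τ => by simp)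

end Pool.Agent.Lib.MP_5c318e_ag.B
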