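import Pool.Agent.Lib.MP_5c318e_ag.B.Orb
import Pool.Agent.Lib.MP_5c318e_ag.B.Sub

/-! Asymptotics of the norm of the section; the leading coefficient is positive. -/

set_option autoImplicit false

namespace Pool.Agent.Lib.MP_5c318e_ag.B

open Complex Matrix Metric Filter Topology Set Function.Periodic MeasureTheory
open Pool.Agent.Lib.MP_5c318e_ag.M
open scoped ComplexOrder Nat ComplexConjugate ContDiff

noncomputable section

variable {E : Type} [NormedAddCommGroup E] [NormedSpace ℂ E] {n : Type} [Fintype n] [DecidableEq n]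

/-- the forms that give the coefficients of the norm -/
def Rj (Q N : Matrix n n ℂ) (j : ℕ) : Matrix n n ℂ := ((2 * I) ^ j / (j ! : ℂ)) • (Q * N ^ j)

section alg

variable {Q N : Matrix n n ℂ} {r : ℕ}

theorem Rj_herm (H : Q.IsHermitian) (hQ : Nᴴ * Q = -(Q * N)) (j : ℕ) : (Rj Q N j).IsHermitian := by
  have e : Q * (-N) ^ j = Nᴴ ^ j * Q :=
    (SemiconjBy.pow_right (show SemiconjBy Q (-N) Nᴴ by rw [SemiconjBy, hQ, mul_neg]) j).eq
  rw [IsHermitian, Rj, conjTranspose_smul, conjTranspose_mul, conjTranspose_pow, H.eq, ← e,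
    ← neg_one_smul ℂ N, _root_.smul_pow, mul_smul_comm, smul_smul]
  congr 1
  simp only [star_div₀, star_pow, star_mul', star_ofNat, star_def, conj_I, map_natCast]
  rw [div_mul_eq_mul_div, ← mul_pow]
  congr 2
  ring

omit [DecidableEq n] in
theorem hq_herm {A : Matrix n n ℂ} (H : A.IsHermitian) (u : n → ℂ) : hq A u u = (hn A u : ℝ) :=
  (conj_eq_iff_re.1 (hq_conj H u u)).symm

theorem Rj_zero (nil : N ^ r = 0) {j : ℕ} (hj : r ≤ j) (u : n → ℂ) : hn (Rj Q N j) u = 0 := by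
  simp [Rj, pow_eq_zero_of_le hj nil, hn, hq]

theorem Rj_succ (Q N : Matrix n n ℂ) (j : ℕ) :
    Rj Q N j * N = ((j + 1 : ℂ) / (2 * I)) • Rj Q N (j + 1) := by
  have h0 : ((j : ℂ) + 1) ≠ 0 := by exact_mod_cast j.succ_ne_zero
  have h1 : (j ! : ℂ) ≠ 0 := by exact_mod_cast j.factorial_ne_zero
  rw [Rj, Rj, smul_smul, smul_mul_assoc, mul_assoc, ← pow_succ, Nat.factorial_succ]
  congr 1
  push_cast
  field_simp
  ring

theorem hn_nexp (nil : N ^ r = 0) (hQ : Nᴴ * Q = -(Q * N)) (w : ℂ) (u : n → ℂ) :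
    hn Q (nexp r N w *ᵥ u) = ∑ j ∈ Finset.range r, w.im ^ j * hn (Rj Q N j) u := by
  rw [hn, hq_mulVec, nexp_form nil hQ, sub_conj, nexp, Finset.mul_sum]
  simp only [hn, hq, sum_mulVec, dotProduct_sum, re_sum]
  refine Finset.sum_congr rfl fun j _ => ?_
  rw [← re_ofReal_mul, Rj, mul_smul_comm, smul_mulVec, smul_mulVec, dotProduct_smul,
    dotProduct_smul, smul_eq_mul, smul_eq_mul, ← mul_assoc]
  congr 2
  push_cast
  ring

omit [DecidableEq n] in
theorem an_hn {X : Type} [NormedAddCommGroup X] [NormedSpace ℝ X] {f : X → n → ℂ} {x : X}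
    (hf : AnalyticAt ℝ f x) (A : Matrix n n ℂ) : AnalyticAt ℝ (fun y => hn A (f y)) x := by
  have c := analyticAt_pi_iff.1 hf
  refine (reCLM.analyticAt _).comp (f := fun y => hq A (f y) (f y)) ?_
  simp only [hq, dotProduct, mulVec]
  exact Finset.analyticAt_fun_sum _ fun i _ =>
    (((conjCLE : ℂ →L[ℝ] ℂ).analyticAt _).comp (c i)).mul
      (Finset.analyticAt_fun_sum _ fun j _ => analyticAt_const.mul (c j))

theorem bd_nexp_poly {h : Matrix n n ℂ} {C : ℝ} (H : h.PosDef) (b : Bd h N C) (hC : 0 ≤ C) (r : ℕ)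
    (w : ℂ) : Bd h (nexp r N w) (r * (1 + ‖w‖ * C) ^ r) := by
  refine (bd_sum H (Finset.range r) fun i _ => (b.pow hC i).smul (w ^ i / (i ! : ℂ))).mono ?_
  have x0 : 0 ≤ ‖w‖ * C := by positivity
  refine (Finset.sum_le_card_nsmul _ _ ((1 + ‖w‖ * C) ^ r) fun i hi => ?_).trans (by simp)
  rw [norm_div, norm_pow, norm_natCast, div_mul_eq_mul_div, ← mul_pow]
  refine (div_le_self (by positivity) (by exact_mod_cast i.factorial_pos)).trans ?_
  exact (pow_le_pow_left₀ x0 (by linarith) i).trans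
    (pow_le_pow_right₀ (by linarith) (Finset.mem_range.1 hi).le)

end alg

/-- the section is `q ^ a0 exp (w N) F (q, y)` -/
structure Orb (a : ℝ) (y0 : E) (R K : ℝ) (h Y : ℂ × E → Matrix n n ℂ) (Q T : Matrix n n ℂ)
    (om : ℂ × E → n → ℂ) (r M : ℕ) (a0 : ℤ) (F : ℂ × E → n → ℂ) : Prop
    extends HornM a y0 R K h Y Q T om where
  M0 : 0 < M
  unip : (T ^ M - 1) ^ r = 0
  an : AnalyticOnNhd ℂ F (ball 0 (rad a M) ×ˢ ball y0 R)
  eq : ∀ p ∈ strip a y0 R,
    om p = qParam M p.1 ^ a0 • nexp r (mlog r M T) p.1 *ᵥ F (qParam M p.1, p.2)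

namespace Orb

variable {a R K : ℝ} {y0 : E} {h Y : ℂ × E → Matrix n n ℂ} {Q T : Matrix n n ℂ}
  {om F : ℂ × E → n → ℂ} {r M : ℕ} {a0 : ℤ}

theorem m0 (O : Orb a y0 R K h Y Q T om r M a0 F) : (0 : ℝ) < M := by exact_mod_cast O.M0

theorem nil (O : Orb a y0 R K h Y Q T om r M a0 F) : mlog r M T ^ r = 0 := mlog_pow O.unip

theorem skew (O : Orb a y0 R K h Y Q T om r M a0 F) :
    (mlog r M T)ᴴ * Q = -(Q * mlog r M T) := mlog_skew O.unip O.uni

theorem bdN (O : Orb a y0 R K h Y Q T om r M a0 F) :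
    Bd (h (w0 a, y0)) (mlog r M T) (cN r M (Real.exp (lc K))) :=
  bd_mlog (O.gm.pos _ O.p0) O.bd_T (Real.exp_pos _).le r M

omit [Fintype n] [DecidableEq n] in
theorem norm_q (M : ℕ) (a0 : ℤ) (w : ℂ) :
    ‖qParam M w ^ a0‖ ^ 2 = Real.exp (-(4 * Real.pi * a0 / M * w.im)) := by
  rw [norm_zpow, norm_qParam, ← Real.rpow_intCast, ← Real.exp_mul, ← Real.exp_nat_mul]
  congr 1
  push_cast
  ring

theorem N_eq (O : Orb a y0 R K h Y Q T om r M a0 F) {p : ℂ × E} (hp : p ∈ strip a y0 R) :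
    hn (h p) (om p) = Real.exp (-(4 * Real.pi * a0 / M * p.1.im)) *
      ∑ j ∈ Finset.range r, p.1.im ^ j * hn (Rj Q (mlog r M T) j) (F (qParam M p.1, p.2)) := by
  rw [hn, ← O.top p hp, ← hn, O.eq p hp, hn_smul, norm_q, hn_nexp O.nil O.skew]

theorem an0 (O : Orb a y0 R K h Y Q T om r M a0 F) {y : E} (hy : y ∈ ball y0 R) :
    AnalyticAt ℂ F (0, y) := O.an _ ⟨mem_ball_self (rad_pos _ _), hy⟩

theorem an1 (O : Orb a y0 R K h Y Q T om r M a0 F) {y : E} (hy : y ∈ ball y0 R) :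
    AnalyticAt ℂ (fun z => F (z, y)) 0 :=
  (O.an0 hy).comp_of_eq (analyticAt_id.prod analyticAt_const) rfl

theorem an2 (O : Orb a y0 R K h Y Q T om r M a0 F) {y : E} (hy : y ∈ ball y0 R) :
    AnalyticAt ℂ (fun y => F (0, y)) y :=
  (O.an0 hy).comp_of_eq (analyticAt_const.prod analyticAt_id) rfl

theorem tend (O : Orb a y0 R K h Y Q T om r M a0 F) {y : E} (hy : y ∈ ball y0 R) (k b : ℕ)
    (h0 : ∀ j, b < j + k → hn (Rj Q (mlog r M T) j) (F (0, y)) = 0) :
    Tendsto (fun w : ℂ => hn (h (w, y)) (om (w, y)) /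
        (Real.exp (-(4 * Real.pi * a0 / M * w.im)) * w.im ^ b) * w.im ^ k) (comap im atTop)
      (𝓝 (∑ j ∈ Finset.range r, if j + k = b then hn (Rj Q (mlog r M T) j) (F (0, y)) else 0)) := by
  refine (tend_poly O.m0 (g := fun j z => hn (Rj Q (mlog r M T) j) (F (z, y)))
    (fun j => (an_hn (O.an1 hy).restrictScalars _).differentiableAt) r k b h0).congr' ?_
  filter_upwards [tendsto_comap.eventually (eventually_gt_atTop a)] with w hw
  rw [O.N_eq (p := (w, y)) ⟨hw, hy⟩, mul_div_mul_left _ _ (Real.exp_pos _).ne']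
  ring

theorem lower (O : Orb a y0 R K h Y Q T om r M a0 F) {R' : ℝ} (hR : R' < R) :
    ∃ (κ : ℝ) (k : ℕ), 0 < κ ∧ ∀ᶠ τ : ℝ in atTop, ∀ y ∈ closedBall y0 R',
      hn (h (w0 a, y0)) (F (qParam M (τ * I), y)) ≤
        κ * (hn (h (τ * I, y)) (om (τ * I, y)) /
          Real.exp (-(4 * Real.pi * a0 / M * ((τ : ℂ) * I).im)) * τ ^ k) := by
  have P0 := O.gm.pos _ O.p0
  have c0 := cN_nonneg r M (Real.exp_pos (lc K)).le
  set c := cN r M (Real.exp (lc K))
  obtain ⟨k, hk⟩ := exists_nat_ge (lc K)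
  refine ⟨((r + 1) * (1 + c) ^ r) ^ 2 * (Real.exp (lc K * (R / (R - R') + 1)) * 2 ^ k),
    2 * r + k, by positivity, ?_⟩
  filter_upwards [eventually_ge_atTop (a + 1), eventually_ge_atTop 1, eventually_ge_atTop (-a)]
    with τ h1 h2 h3 y hy
  have i : ((τ : ℂ) * I).im = τ := by simp
  have hp : ((τ : ℂ) * I, y) ∈ strip a y0 R :=
    ⟨by simp only [i]; linarith, closedBall_subset_ball hR hy⟩
  have b1 := (bd_nexp_poly P0 O.bdN c0 r (-(τ * I))).sq P0
    (nexp r (mlog r M T) (τ * I) *ᵥ F (qParam M (τ * I), y))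
  rw [mulVec_mulVec, nexp_neg_mul O.nil, one_mulVec] at b1
  have b2 := (cmp_strip O.gm hR one_pos hy (w := τ * I) (by rwa [i]) (by simp) (om (τ * I, y))).2
  conv_lhs at b2 => rw [O.eq _ hp, hn_smul, norm_q]
  rw [← le_div_iff₀' (Real.exp_pos _), mul_div_assoc] at b2
  have N0 := div_nonneg (hn_nonneg (O.gm.pos _ hp) (om (τ * I, y)))
    (Real.exp_pos (-(4 * Real.pi * a0 / M * ((τ : ℂ) * I).im))).le
  have e1 : (r * (1 + ‖-((τ : ℂ) * I)‖ * c) ^ r) ^ 2 ≤ ((r + 1) * (1 + c) ^ r) ^ 2 * τ ^ (2 * r) := by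
    rw [pow_mul' τ, ← mul_pow, mul_assoc, ← mul_pow]
    refine pow_le_pow_left₀ (by positivity) (mul_le_mul (by linarith)
      (pow_le_pow_left₀ (by positivity) ?_ r) (by positivity) (by positivity)) 2
    rw [norm_neg, norm_mul, norm_I, norm_real, Real.norm_of_nonneg (by linarith)]
    nlinarith
  have e2 : Real.exp (lc K * (R / (R - R') + 1 + Real.log (((τ : ℂ) * I).im - a))) ≤
      Real.exp (lc K * (R / (R - R') + 1)) * 2 ^ k * τ ^ k := by
    rw [mul_add, Real.exp_add, mul_assoc, ← mul_pow, i]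
    refine mul_le_mul_of_nonneg_left ?_ (Real.exp_pos _).le
    have l0 := Real.log_nonneg (x := τ - a) (by linarith)
    refine (Real.exp_le_exp.2 (mul_le_mul_of_nonneg_right hk l0)).trans ?_
    rw [Real.exp_nat_mul, Real.exp_log (by linarith)]
    exact pow_le_pow_left₀ (by linarith) (by linarith) k
  refine b1.trans ((mul_le_mul e1 (b2.trans (mul_le_mul_of_nonneg_right e2 N0))
    (hn_nonneg P0 _) (by positivity)).trans (le_of_eq ?_))
  ring

theorem tq (O : Orb a y0 R K h Y Q T om r M a0 F) :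
    Tendsto (fun τ : ℝ => qParam M (τ * I)) atTop (𝓝 0) :=
  ((qParam_tendsto O.m0).mono_right nhdsWithin_le_nhds).comp tend_mul_I

theorem exists_b (O : Orb a y0 R K h Y Q T om r M a0 F) {y : E} (hy : y ∈ ball y0 R)
    (h0 : F (0, y) ≠ 0) : ∃ b, b < r ∧ (∃ y ∈ ball y0 R, hn (Rj Q (mlog r M T) b) (F (0, y)) ≠ 0) ∧
      ∀ j, b < j → ∀ y ∈ ball y0 R, hn (Rj Q (mlog r M T) j) (F (0, y)) = 0 := by
  classical
  let P : ℕ → Prop := fun j => ∃ y ∈ ball y0 R, hn (Rj Q (mlog r M T) j) (F (0, y)) ≠ 0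
  have lt : ∀ j, P j → j < r := fun j ⟨y, _, h⟩ => lt_of_not_ge fun hj => h (Rj_zero O.nil hj _)
  have ex : ∃ j, P j := by
    by_contra hz
    have z : ∀ j, hn (Rj Q (mlog r M T) j) (F (0, y)) = 0 := fun j => by
      by_contra h
      exact hz ⟨j, y, hy, h⟩
    obtain ⟨κ, k, -, hκ⟩ := O.lower (mem_ball.1 hy)
    have t := ((O.tend hy k 0 fun j _ => z j).comp tend_mul_I).const_mul κ
    simp only [z, ite_self, Finset.sum_const_zero, mul_zero] at t
    have t2 := (an_hn (O.an1 hy).restrictScalars (h (w0 a, y0))).continuousAt.tendsto.comp O.tq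
    refine (hn_pos (O.gm.pos _ O.p0) h0).not_ge (le_of_tendsto_of_tendsto t2 t (hκ.mono fun τ h => ?_))
    simpa using h y (mem_closedBall.2 le_rfl)
  obtain ⟨j, hj⟩ := ex
  have s := Nat.findGreatest_spec (lt j hj).le hj
  refine ⟨_, lt _ s, s, fun i hi z hz => ?_⟩
  by_contra h
  exact Nat.findGreatest_is_greatest hi (lt i ⟨z, hz, h⟩).le ⟨z, hz, h⟩

theorem asy (O : Orb a y0 R K h Y Q T om r M a0 F) {b : ℕ} (hb : b < r) {y : E}
    (hy : y ∈ ball y0 R) (h0 : ∀ j, b < j → hn (Rj Q (mlog r M T) j) (F (0, y)) = 0) :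
    Asy (fun w => hn (h (w, y)) (om (w, y))) (4 * Real.pi * a0 / M) b
      (hn (Rj Q (mlog r M T) b) (F (0, y))) := by
  simpa [Asy, hb] using O.tend hy 0 b h0

theorem c_ne [FiniteDimensional ℂ E] (O : Orb a y0 R K h Y Q T om r M a0 F) {b : ℕ} (hb : b < r)
    (h0 : ∀ j, b < j → ∀ y ∈ ball y0 R, hn (Rj Q (mlog r M T) j) (F (0, y)) = 0) {y1 y2 : E}
    (h1 : y1 ∈ ball y0 R) (h2 : y2 ∈ ball y0 R) (c1 : hn (Rj Q (mlog r M T) b) (F (0, y1)) ≠ 0) :
    hn (Rj Q (mlog r M T) b) (F (0, y2)) ≠ 0 := fun c2 => by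
  have := FiniteDimensional.complete ℂ E
  set A := Rj Q (mlog r M T) b
  have P0 := O.gm.pos _ O.p0
  let l : ℂ → E := fun t => y2 + t • (y1 - y2)
  have la : ∀ t, AnalyticAt ℂ l t := fun t => analyticAt_const.add (analyticAt_id.smul analyticAt_const)
  have fa : ∀ t, l t ∈ ball y0 R → AnalyticAt ℂ (fun t => F (0, l t)) t := fun t ht =>
    (O.an2 ht).comp (la t)
  have l0 : l 0 = y2 := by simp [l]
  have ga : AnalyticOnNhd ℝ (fun s : ℝ => hn A (F (0, l s))) (Icc 0 1) := fun s hs =>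
    an_hn (((fa s ((convex_ball y0 R).add_smul_sub_mem h2 h1 hs)).restrictScalars (𝕜 := ℝ)).comp
      (ofRealCLM.analyticAt s)) A
  have g1 : ∀ᶠ s : ℝ in 𝓝[≠] 0, hn A (F (0, l s)) ≠ 0 := by
    by_contra hf
    have := ga.eqOn_zero_of_preconnected_of_frequently_eq_zero isPreconnected_Icc
      (left_mem_Icc.2 zero_le_one) (by simpa using hf) (right_mem_Icc.2 zero_le_one)
    exact c1 (by simpa [l] using this)
  have tr : Tendsto (fun s : ℝ => (s : ℂ)) (𝓝 0) (𝓝 0) := by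
    simpa using continuous_ofReal.tendsto 0
  have g2 : ∀ᶠ t in 𝓝[≠] (0 : ℂ), F (0, l t) ≠ 0 :=
    (fa 0 (l0 ▸ h2)).eventually_eq_zero_or_eventually_ne_zero.resolve_left fun hz => by
      obtain ⟨s, a1, a2⟩ := (g1.and ((tr.eventually hz).filter_mono nhdsWithin_le_nhds)).exists
      exact a1 (by rw [a2, hn_zero])
  obtain ⟨R', r1, r2⟩ := exists_between (mem_ball.1 h2)
  have g3 : ∀ᶠ t in 𝓝 (0 : ℂ), l t ∈ ball y0 R' :=
    (la 0).continuousAt.eventually (isOpen_ball.mem_nhds (l0 ▸ r1))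
  obtain ⟨δ, δ0, hδ⟩ := Metric.eventually_nhds_iff.1 ((eventually_nhdsWithin_iff.1 g2).and g3)
  obtain ⟨s, a1, s0, sδ⟩ : ∃ s : ℝ, hn A (F (0, l s)) ≠ 0 ∧ 0 < s ∧ s < δ :=
    ((g1.filter_mono (nhdsGT_le_nhdsNE 0)).and (Ioo_mem_nhdsGT δ0)).exists
  let γ : ℂ → E := fun t => l (s * t)
  have γa : ∀ t, AnalyticAt ℂ γ t := fun t => (la _).comp (analyticAt_const.mul analyticAt_id)
  have ns : ∀ t ∈ closedBall (0 : ℂ) 1, dist (s * t : ℂ) 0 < δ := fun t ht => by
    rw [dist_zero_right, norm_mul, norm_real, Real.norm_of_nonneg s0.le]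
    nlinarith [mem_closedBall_zero_iff.1 ht]
  have γ' : ∀ t ∈ closedBall (0 : ℂ) 1, γ t ∈ ball y0 R' := fun t ht => (hδ (ns t ht)).2
  have γb : ∀ t ∈ closedBall (0 : ℂ) 1, γ t ∈ ball y0 R := fun t ht =>
    ball_subset_ball r2.le (γ' t ht)
  have γ0 : γ 0 = y2 := by simp [γ, l]
  have cm : ∀ θ, circleMap 0 1 θ ∈ closedBall (0 : ℂ) 1 := fun θ =>
    sphere_subset_closedBall (circleMap_mem_sphere 0 zero_le_one θ)
  have i : ∀ τ : ℝ, ((τ : ℂ) * I).im = τ := fun τ => by simp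
  let β : ℝ := 4 * Real.pi * a0 / M
  let X : ℝ → ℂ → ℝ := fun τ t => hn (h (τ * I, γ t)) (om (τ * I, γ t)) /
    (Real.exp (-(β * ((τ : ℂ) * I).im)) * ((τ : ℂ) * I).im ^ b)
  have st : ∀ τ : ℝ, a < τ → ∀ t ∈ closedBall (0 : ℂ) 1, ((τ : ℂ) * I, γ t) ∈ strip a y0 R :=
    fun τ hτ t ht => ⟨by rwa [i], γb t ht⟩
  have X0 : ∀ τ : ℝ, a < τ → 0 < τ → ∀ t ∈ closedBall (0 : ℂ) 1, 0 < X τ t := fun τ h1 h2 t ht =>
    div_pos (hn_pos (O.gm.pos _ (st τ h1 t ht)) (O.ne _ (st τ h1 t ht))) (by rw [i]; positivity)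
  obtain ⟨κ, k, κ0, hκ⟩ := O.lower r2
  obtain ⟨t0, ht0, hm⟩ := (isCompact_sphere (0 : ℂ) 1).exists_isMinOn
    (NormedSpace.sphere_nonempty.2 zero_le_one) (f := fun t => hn (h (w0 a, y0)) (F (0, γ t)))
    fun t ht => (an_hn ((O.an2 (γb t (sphere_subset_closedBall ht))).comp
      (γa t)).restrictScalars _).continuousAt.continuousWithinAt
  have m0 : 0 < hn (h (w0 a, y0)) (F (0, γ t0)) :=
    hn_pos P0 ((hδ (ns t0 (sphere_subset_closedBall ht0))).1
      (mul_ne_zero (ofReal_ne_zero.2 s0.ne') (ne_of_mem_sphere ht0 one_ne_zero)))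
  set m := hn (h (w0 a, y0)) (F (0, γ t0))
  have tube : ∀ᶠ z in 𝓝 (0 : ℂ), ∀ t ∈ sphere (0 : ℂ) 1, m / 2 < hn (h (w0 a, y0)) (F (z, γ t)) :=
    (isCompact_sphere (0 : ℂ) 1).eventually_forall_of_forall_eventually fun t ht => by
      have c : ContinuousAt (fun p : ℂ × ℂ => hn (h (w0 a, y0)) (F (p.1, γ p.2))) (0, t) :=
        (an_hn (O.an0 (γb t (sphere_subset_closedBall ht))).restrictScalars _).continuousAt.comp_of_eq
          (continuousAt_fst.prodMk (ContinuousAt.comp (g := γ) (γa t).continuousAt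
            continuousAt_snd)) rfl
      exact c.eventually (lt_mem_nhds (lt_of_lt_of_le (by linarith) (hm ht)))
  have tl := (O.tend h2 1 b fun j hj => by
    rcases (Nat.lt_succ_iff.1 hj).eq_or_lt with rfl | hj
    · exact c2
    · exact h0 j hj y2 h2).comp tend_mul_I
  set L := ∑ j ∈ Finset.range r, if j + 1 = b then hn (Rj Q (mlog r M T) j) (F (0, y2)) else 0
  refine pos_core (W := fun τ t => -Real.log (X τ t)) (C := (k + b + 1 : ℕ))
    (D := Real.log (|L| + 1)) ?_ ?_ ?_ ?_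
  · filter_upwards [eventually_gt_atTop a, eventually_gt_atTop 0] with τ t1 t2
    have gc : ∀ t, ContDiffAt ℂ 2 (fun t => ((τ : ℂ) * I, γ t)) t := fun t =>
      contDiffAt_const.prodMk (γa t).contDiffAt
    have sm : ∀ t ∈ closedBall (0 : ℂ) 1,
        ContDiffAt ℝ 2 (fun q => Real.log (hn (h q) (om q))) ((τ : ℂ) * I, γ t) := fun t ht =>
      V.cd2 ((sm_hn O.gm.toMet (st τ t1 t ht) fun j => ((analyticAt_pi_iff.1
        (osg isOpen_strip O.hol _ (st τ t1 t ht)) j).contDiffAt (n := ∞)).restrict_scalars ℝ).log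
        (hn_pos (O.gm.pos _ (st τ t1 t ht)) (O.ne _ (st τ t1 t ht))).ne')
    have s2 : ∀ t ∈ closedBall (0 : ℂ) 1, ContDiffAt ℝ 2
        (fun t => Real.log (hn (h (τ * I, γ t)) (om (τ * I, γ t)))) t := fun t ht =>
      ContDiffAt.comp (g := fun q => Real.log (hn (h q) (om q))) t (sm t ht)
        ((gc t).restrict_scalars ℝ)
    have sb := submean (fun t ht => (s2 t ht).neg) fun t ht => by
      have ht' := ball_subset_closedBall ht
      rw [V.lev_neg (s2 t ht'), neg_nonneg]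
      exact (V.lev_comp_holo (g := fun t => ((τ : ℂ) * I, γ t)) (sm t ht') (gc t)).trans_le
        (O.psh _ (st τ t1 t ht') _)
    have cu : ContinuousOn (fun t => -Real.log (hn (h (τ * I, γ t)) (om (τ * I, γ t))))
        (sphere 0 1) := fun t ht =>
      (s2 t (sphere_subset_closedBall ht)).neg.continuousAt.continuousWithinAt
    have e : ∀ t ∈ closedBall (0 : ℂ) 1, -Real.log (X τ t) =
        1 * -Real.log (hn (h (τ * I, γ t)) (om (τ * I, γ t))) +
          Real.log (Real.exp (-(β * ((τ : ℂ) * I).im)) * ((τ : ℂ) * I).im ^ b) * 1 := fun t ht => by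
      rw [Real.log_div (hn_pos (O.gm.pos _ (st τ t1 t ht)) (O.ne _ (st τ t1 t ht))).ne'
        (by rw [i]; positivity)]
      ring
    refine ⟨?_, ((continuousOn_const.mul cu).add continuousOn_const).congr
      fun t ht => e t (sphere_subset_closedBall ht)⟩
    rw [Real.circleAverage_congr_sphere fun t ht => e t (sphere_subset_closedBall
      (by simpa using ht)), Flat.avg_lin cu continuousOn_const, Real.circleAverage_const,
      e 0 (mem_closedBall_self zero_le_one)]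
    linarith
  · filter_upwards [hκ, O.tq.eventually tube, eventually_gt_atTop a, eventually_gt_atTop 0,
      eventually_ge_atTop (2 * κ / m)] with τ t1 t2 t3 t4 t5 t ht
    have x0 := X0 τ t3 t4 t (sphere_subset_closedBall ht)
    have u := (t2 t ht).le.trans (t1 _ (ball_subset_closedBall (γ' t (sphere_subset_closedBall ht))))
    rw [← Real.log_pow, ← Real.log_inv]
    refine Real.log_le_log (inv_pos.2 x0) ?_
    rw [inv_le_iff_one_le_mul₀ x0]
    have e : hn (h (τ * I, γ t)) (om (τ * I, γ t)) / Real.exp (-(β * ((τ : ℂ) * I).im)) * τ ^ k =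
        τ ^ (k + b) * X τ t := by
      simp only [X, i]
      field_simp
      ring
    rw [e] at u
    rw [div_le_iff₀ m0] at t5
    have p : 0 < τ ^ (k + b) * X τ t := by positivity
    rw [pow_succ', mul_assoc]
    nlinarith
  · have ca : AnalyticOnNhd ℝ (fun θ : ℝ => hn A (F (0, γ (circleMap 0 1 θ)))) univ := fun θ _ =>
      an_hn ((((O.an2 (γb _ (cm θ))).comp (γa _)).restrictScalars (𝕜 := ℝ)).comp
        (analyticOnNhd_circleMap 0 1 θ trivial)) A
    have cz := (ca.eqOn_zero_or_eventually_ne_zero_of_preconnected isPreconnected_univ).resolve_left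
      fun hz => a1 (by simpa [γ, circleMap] using hz (mem_univ 0))
    have := ae_restrict_le_codiscreteWithin (μ := volume) MeasurableSet.univ cz
    rw [Measure.restrict_univ] at this
    filter_upwards [this] with θ hθ
    exact ⟨_, (((O.asy hb (γb _ (cm θ)) fun j hj => h0 j hj _ (γb _ (cm θ))).comp
      tend_mul_I).log hθ).neg⟩
  · filter_upwards [tl.eventually (gt_mem_nhds (show L < |L| + 1 by linarith [le_abs_self L])),
      eventually_gt_atTop a, eventually_gt_atTop 0] with τ t1 t2 t3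
    have x0 := X0 τ t2 t3 0 (mem_closedBall_self zero_le_one)
    have e : X τ 0 * τ < |L| + 1 := by simpa only [Function.comp, X, γ0, pow_one, i] using t1
    have := Real.log_le_log (mul_pos x0 t3) e.le
    rw [Real.log_mul x0.ne' t3.ne'] at this
    linarith

end Orb

end

end Pool.Agent.Lib.MP_5c318e_ag.B
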